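import Pool.Agent.T6.H44.DIV.Upper

/-!
Almost all ideals divide points of the expected radical, and of no smaller radical.
-/

set_option autoImplicit false

namespace Pool.Agent.T6.H44.DIV

open Finset NumberField IsDedekindDomain Pool.Agent.H691R3 Pool.Agent.TH876.Loc
open Pool.Agent.Y728 (log_pow_leK)
open Filter Topology

variable {K : Type} [Field K] [NumberField K]

open Classical in
/-- the prime divisors of an ideal -/
noncomputable def sn (n : Ideal (𝓞 K)) : Finset (Pr K) := if h : n ≠ 0 then supp n h else ∅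

theorem sn_eq {n : Ideal (𝓞 K)} (h : n ≠ 0) : sn n = supp n h := dif_pos h

theorem mem_sn {n : Ideal (𝓞 K)} (h : n ≠ 0) {v : Pr K} : v ∈ sn n ↔ v.asIdeal ∣ n := by
  rw [sn_eq h, mem_supp]

/-- ideals and their sets of primes -/
theorem card_le_sn (K : Type) [Field K] [NumberField K] (ε : ℝ) (hε : 0 < ε) :
    ∃ D : ℝ, 0 < D ∧ ∀ X : ℝ, 1 ≤ X → ∀ G : Finset (Ideal (𝓞 K)),
    (∀ n ∈ G, n ≠ 0 ∧ ((Ideal.absNorm n : ℕ) : ℝ) ≤ X) → ∀ U : Finset (Finset (Pr K)),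
    (∀ n ∈ G, sn n ∈ U) → (G.card : ℝ) ≤ U.card * (D * X ^ ε) := by
  classical
  obtain ⟨D, hD, h⟩ := ideals_supp K ε hε
  refine ⟨D, hD, fun X hX G hG U hU => ?_⟩
  have h1 : ∀ S ∈ U, (((G.filter fun n => sn n = S).card : ℕ) : ℝ) ≤ D * X ^ ε := by
    intro S _
    rcases (G.filter fun n => sn n = S).eq_empty_or_nonempty with he | ⟨n0, hn0⟩
    · rw [he, Finset.card_empty, Nat.cast_zero]
      positivity
    · obtain ⟨b1, b2⟩ := Finset.mem_filter.1 hn0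
      refine h X hX S ?_ _ ?_
      · have h2 := nn_supp_le (hG n0 b1).1
        rw [← sn_eq, b2] at h2
        have h3 := (hG n0 b1).2
        nlinarith
      · intro n hn
        obtain ⟨c1, c2⟩ := Finset.mem_filter.1 hn
        refine ⟨(hG n c1).1, (hG n c1).2, fun v hv => ?_⟩
        rw [← c2, mem_sn (hG n c1).1]
        exact hv
  have h2 := Finset.card_eq_sum_card_fiberwise (f := sn) (s := G) (t := U) hU
  rw [h2, Nat.cast_sum]
  refine (Finset.sum_le_sum h1).trans ?_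
  rw [Finset.sum_const, nsmul_eq_mul]

/-- the number of ideals -/
theorem count_ideals (K : Type) [Field K] [NumberField K] :
    ∃ D : ℝ, 0 < D ∧ ∀ X : ℝ, 1 ≤ X → ∀ G : Finset (Ideal (𝓞 K)),
    (∀ n ∈ G, n ≠ 0 ∧ ((Ideal.absNorm n : ℕ) : ℝ) ≤ X) → (G.card : ℝ) ≤ D * X ^ (5 / 4 : ℝ) := by
  classical
  obtain ⟨D, hD, h⟩ := card_le_sn K (1 / 8) (by norm_num)
  obtain ⟨X0, hX0, hsets⟩ := card_setsM K (k := 8) (by norm_num)
  set G0 : Finset (Ideal (𝓞 K)) := (Ideal.finite_setOfPred_absNorm_le ⌊X0⌋₊).toFinset with hG0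
  refine ⟨D + G0.card, by positivity, fun X hX G hG => ?_⟩
  have hXp : 0 < X := by linarith
  have hX54 : 1 ≤ X ^ (5 / 4 : ℝ) := Real.one_le_rpow hX (by norm_num)
  have hG0c : (0 : ℝ) ≤ G0.card := Nat.cast_nonneg _
  rcases lt_or_ge X X0 with hc | hc
  · have h1 : G ⊆ G0 := by
      intro n hn
      rw [hG0, Set.Finite.mem_toFinset]
      show Ideal.absNorm n ≤ ⌊X0⌋₊
      exact Nat.le_floor ((hG n hn).2.trans hc.le)
    have h2 : (G.card : ℝ) ≤ G0.card := by exact_mod_cast Finset.card_le_card h1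
    nlinarith
  · have h1 := h X hX G hG (G.image sn) (fun n hn => Finset.mem_image_of_mem _ hn)
    have h2 := hsets X hc X hX le_rfl (G.image sn) (by
      intro S hS
      obtain ⟨n, hn, rfl⟩ := Finset.mem_image.1 hS
      rw [sn_eq (hG n hn).1]
      exact (nn_supp_le _).trans (hG n hn).2)
    have e : X * X ^ (1 / ((8 : ℕ) : ℝ)) * X ^ (1 / 8 : ℝ) = X ^ (5 / 4 : ℝ) := by
      conv_lhs => rw [← Real.rpow_one X]
      rw [← Real.rpow_mul hXp.le, ← Real.rpow_mul hXp.le, ← Real.rpow_add hXp,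
        ← Real.rpow_add hXp]
      congr 1
      norm_num
    calc (G.card : ℝ) ≤ (G.image sn).card * (D * X ^ (1 / 8 : ℝ)) := h1
      _ ≤ X * X ^ (1 / ((8 : ℕ) : ℝ)) * (D * X ^ (1 / 8 : ℝ)) :=
          mul_le_mul_of_nonneg_right h2 (by positivity)
      _ = D * (X * X ^ (1 / ((8 : ℕ) : ℝ)) * X ^ (1 / 8 : ℝ)) := by ring
      _ = D * X ^ (5 / 4 : ℝ) := by rw [e]
      _ ≤ _ := mul_le_mul_of_nonneg_right (by linarith) (by positivity)

/-- **almost all ideals divide points of the expected radical** -/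
theorem upper_ideals (K : Type) [Field K] [NumberField K] (ε : ℝ) (hε : 0 < ε) (hε1 : ε ≤ 1) :
    ∃ D : ℝ, 0 < D ∧ ∀ X : ℝ, 1 ≤ X → ∀ G : Finset (Ideal (𝓞 K)),
    (∀ n ∈ G, n ≠ 0 ∧ ((Ideal.absNorm n : ℕ) : ℝ) ≤ X ∧ ¬ ∃ y : K, Pt y ∧
      (∀ v : Pr K, v.asIdeal ∣ n → v ∈ sp y) ∧
      nn (sp y) ≤ lev (Ideal.absNorm n : ℕ) (pm (sn n)) * ((Ideal.absNorm n : ℕ) : ℝ) ^ ε) →
    (G.card : ℝ) ≤ D * X ^ (1 - ε / 1024) := by
  classical
  obtain ⟨κ, hκ⟩ : ∃ κ, κ = ε / 8 := ⟨_, rfl⟩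
  have hκ0 : 0 < κ := by rw [hκ]; positivity
  have hκ1 : κ ≤ 1 / 8 := by rw [hκ]; linarith
  obtain ⟨η, hη⟩ : ∃ η, η = κ / 128 := ⟨_, rfl⟩
  have hη0 : 0 < η := by rw [hη]; positivity
  obtain ⟨k0, hk0⟩ : ∃ k0 : ℕ, 1 / η ≤ k0 := exists_nat_ge _
  obtain ⟨k, hk⟩ : ∃ k, k = k0 + 1 := ⟨_, rfl⟩
  have hk1 : 1 ≤ k := by omega
  have hkp : (0 : ℝ) < k := by exact_mod_cast hk1
  have hkη : 1 / (k : ℝ) ≤ η := by
    have h1 : 1 / η ≤ (k : ℝ) := hk0.trans (by rw [hk]; push_cast; linarith)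
    rw [div_le_iff₀ hη0] at h1
    rw [div_le_iff₀ hkp]
    linarith
  obtain ⟨C, X1, hC, hX1, hcore⟩ := core K κ hκ0
  obtain ⟨D2, X2, hD2, hX2, hbad⟩ := bad_sets K κ hκ0 (by linarith)
  obtain ⟨X3, hX3, hsets⟩ := card_setsM K hk1
  obtain ⟨X4, hX4, hbig⟩ := Pool.Agent.Y96.sum_bigK K 1 η le_rfl hη0
  obtain ⟨D5, hD5, hsn⟩ := card_le_sn K η hη0
  obtain ⟨X0, hX0⟩ : ∃ X0, X0 = max (max X1 X2) (max (max X3 X4) (C ^ (1 / (3 * κ)))) := ⟨_, rfl⟩
  set G0 : Finset (Ideal (𝓞 K)) := (Ideal.finite_setOfPred_absNorm_le ⌊X0⌋₊).toFinset with hG0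
  refine ⟨G0.card + (2 + D2) * D5, by positivity, fun X hX G hG => ?_⟩
  have hXp : 0 < X := by linarith
  have hXe : 1 ≤ X ^ (1 - ε / 1024) := Real.one_le_rpow hX (by linarith)
  have hG0c : (0 : ℝ) ≤ G0.card := Nat.cast_nonneg _
  rcases lt_or_ge X X0 with hc | hc
  · have h1 : G ⊆ G0 := by
      intro n hn
      rw [hG0, Set.Finite.mem_toFinset]
      show Ideal.absNorm n ≤ ⌊X0⌋₊
      exact Nat.le_floor ((hG n hn).2.1.trans hc.le)
    have h2 : (G.card : ℝ) ≤ G0.card := by exact_mod_cast Finset.card_le_card h1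
    have h3 : 0 < (2 + D2) * D5 := by positivity
    calc (G.card : ℝ) ≤ G0.card := h2
      _ ≤ (G0.card + (2 + D2) * D5) * 1 := by linarith
      _ ≤ _ := mul_le_mul_of_nonneg_left hXe (by positivity)
  rw [hX0] at hc
  have hXX1 : X1 ≤ X := ((le_max_left _ _).trans (le_max_left _ _)).trans hc
  have hXX2 : X2 ≤ X := ((le_max_right _ _).trans (le_max_left _ _)).trans hc
  have hXX3 : X3 ≤ X :=
    ((le_max_left _ _).trans ((le_max_left _ _).trans (le_max_right _ _))).trans hc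
  have hXX4 : X4 ≤ X :=
    ((le_max_right _ _).trans ((le_max_left _ _).trans (le_max_right _ _))).trans hc
  have hXC : C ^ (1 / (3 * κ)) ≤ X := ((le_max_right _ _).trans (le_max_right _ _)).trans hc
  have hX16 : 16 ≤ X := hX1.trans hXX1
  have hlog : 1 ≤ Real.log X := by
    have := Pool.Agent.TH876.Loc.log_facts hX16
    have := Real.exp_one_gt_d9
    linarith
  have hCX : C ≤ X ^ (3 * κ) := by
    have h1 := Real.rpow_le_rpow (by positivity) hXC (show 0 ≤ 3 * κ by positivity)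
    rw [← Real.rpow_mul hC.le, one_div_mul_cancel (by positivity), Real.rpow_one] at h1
    exact h1
  obtain ⟨U, hU⟩ : ∃ U, U = G.image sn := ⟨_, rfl⟩
  have hUX : ∀ S ∈ U, nn S ≤ X := by
    intro S hS
    rw [hU] at hS
    obtain ⟨n, hn, rfl⟩ := Finset.mem_image.1 hS
    rw [sn_eq (hG n hn).1]
    exact (nn_supp_le _).trans (hG n hn).2.1
  obtain ⟨Ua, hUa⟩ : ∃ Ua, Ua = U.filter fun S => nn S < X ^ (3 / 4 : ℝ) := ⟨_, rfl⟩
  obtain ⟨Ub, hUb⟩ : ∃ Ub, Ub = U.filter fun S => X ^ (κ / 2) < (Real.log X ^ 2) ^ S.card := ⟨_, rfl⟩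
  obtain ⟨Uc, hUc⟩ : ∃ Uc, Uc = U.filter fun S => ∃ S' ⊆ S, X ^ (1 / 4 : ℝ) ≤ nn S' ∧
      ∃ y : K, Pt y ∧ S' ⊆ sp y ∧ nn (sp y) ≤ lev (nn S') (pm S') * X ^ (-(κ / 2)) := ⟨_, rfl⟩
  have hcov : U ⊆ Ua ∪ (Ub ∪ Uc) := by
    intro S hS
    by_contra hcon
    rw [Finset.mem_union, Finset.mem_union, not_or, not_or, hUa, hUb, hUc, Finset.mem_filter,
      Finset.mem_filter, Finset.mem_filter] at hcon
    obtain ⟨k1, k2, k3⟩ := hcon
    have k1' : X ^ (3 / 4 : ℝ) ≤ nn S := by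
      by_contra h
      exact k1 ⟨hS, not_le.1 h⟩
    have k2' : (Real.log X ^ 2) ^ S.card ≤ X ^ (κ / 2) := by
      by_contra h
      exact k2 ⟨hS, not_le.1 h⟩
    have k3' : ∀ S' ⊆ S, X ^ (1 / 4 : ℝ) ≤ nn S' → ∀ y : K, Pt y → S' ⊆ sp y →
        lev (nn S') (pm S') * X ^ (-(κ / 2)) ≤ nn (sp y) := by
      intro S' h1 h2 y h3 h4
      by_contra h
      exact k3 ⟨hS, S', h1, h2, y, h3, h4, (not_le.1 h).le⟩
    obtain ⟨y, hy1, hy2, hy3⟩ := hcore X hXX1 S (hUX S hS) k1' k2' k3'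
    rw [hU] at hS
    obtain ⟨n, hn, rfl⟩ := Finset.mem_image.1 hS
    obtain ⟨g1, g2, g3⟩ := hG n hn
    apply g3
    refine ⟨y, hy1, fun v hv => hy2 ((mem_sn g1).2 hv), hy3.trans ?_⟩
    have hnn : nn (sn n) ≤ ((Ideal.absNorm n : ℕ) : ℝ) := by
      rw [sn_eq g1]
      exact nn_supp_le g1
    have l1 : lev (nn (sn n)) (pm (sn n)) ≤ lev (Ideal.absNorm n : ℕ) (pm (sn n)) :=
      lev_mono (nn_pos _).le (Nat.cast_nonneg _) hnn le_rfl
    have l0 : 0 ≤ lev (nn (sn n)) (pm (sn n)) :=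
      (Real.rpow_nonneg (nn_pos _).le _).trans (le_max_left _ _)
    have l2 : C * X ^ (3 * κ) ≤ ((Ideal.absNorm n : ℕ) : ℝ) ^ ε := by
      calc C * X ^ (3 * κ) ≤ X ^ (3 * κ) * X ^ (3 * κ) :=
            mul_le_mul_of_nonneg_right hCX (by positivity)
        _ = (X ^ (3 / 4 : ℝ)) ^ ε := by
            rw [← Real.rpow_add hXp, ← Real.rpow_mul hXp.le]
            congr 1
            rw [hκ]
            ring
        _ ≤ _ := Real.rpow_le_rpow (by positivity) (k1'.trans hnn) hε.le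
    calc C * (lev (nn (sn n)) (pm (sn n)) * X ^ (3 * κ)) =
        lev (nn (sn n)) (pm (sn n)) * (C * X ^ (3 * κ)) := by ring
      _ ≤ lev (Ideal.absNorm n : ℕ) (pm (sn n)) * ((Ideal.absNorm n : ℕ) : ℝ) ^ ε :=
          mul_le_mul l1 l2 (by positivity) (l0.trans l1)
  have ha : (Ua.card : ℝ) ≤ X ^ (1 - κ / 64) := by
    have h34 : 1 ≤ X ^ (3 / 4 : ℝ) := Real.one_le_rpow hX (by norm_num)
    have h1 := hsets X hXX3 (X ^ (3 / 4 : ℝ)) h34 (by
      calc X ^ (3 / 4 : ℝ) ≤ X ^ (1 : ℝ) := Real.rpow_le_rpow_of_exponent_le hX (by norm_num)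
        _ = X := Real.rpow_one X) Ua (fun S hS => by
      rw [hUa] at hS
      exact (Finset.mem_filter.1 hS).2.le)
    refine h1.trans ?_
    rw [← Real.rpow_add hXp]
    refine Real.rpow_le_rpow_of_exponent_le hX ?_
    have : η ≤ 1 / 1024 := by rw [hη]; linarith
    linarith
  have hb : (Ub.card : ℝ) ≤ X ^ (1 - κ / 64) := by
    have h1 := hbig X hXX4 X hX le_rfl Ub (fun S hS => by
      rw [hUb] at hS
      exact hUX S (Finset.mem_filter.1 hS).1)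
    have h2 : (Ub.card : ℝ) * X ^ (κ / 4) ≤ ∑ S ∈ Ub, (1 * Real.log X) ^ S.card := by
      rw [← nsmul_eq_mul, ← Finset.sum_const]
      refine Finset.sum_le_sum fun S hS => ?_
      rw [hUb] at hS
      have h3 := (Finset.mem_filter.1 hS).2
      rw [one_mul]
      by_contra hcon
      push Not at hcon
      have h4 : (Real.log X ^ 2) ^ S.card = (Real.log X ^ S.card) ^ 2 := by
        rw [← pow_mul, ← pow_mul, mul_comm]
      have h5 : X ^ (κ / 2) = (X ^ (κ / 4)) ^ 2 := by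
        rw [← Real.rpow_natCast, ← Real.rpow_mul hXp.le]
        congr 1
        push_cast
        ring
      rw [h4, h5] at h3
      have h6 : (Real.log X ^ S.card) ^ 2 ≤ (X ^ (κ / 4)) ^ 2 :=
        pow_le_pow_left₀ (by positivity) hcon.le _
      linarith
    have h3 : (Ub.card : ℝ) * X ^ (κ / 4) ≤ X ^ (1 - κ / 64) * X ^ (κ / 4) := by
      refine (h2.trans h1).trans ?_
      have e1 : X * X ^ η = X ^ (1 + η) := by
        rw [Real.rpow_add hXp, Real.rpow_one]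
      rw [e1, ← Real.rpow_add hXp]
      refine Real.rpow_le_rpow_of_exponent_le hX ?_
      rw [hη]
      linarith
    exact le_of_mul_le_mul_right h3 (by positivity)
  have hcc : (Uc.card : ℝ) ≤ D2 * X ^ (1 - κ / 64) := by
    refine hbad X hXX2 Uc fun S hS => ?_
    rw [hUc] at hS
    obtain ⟨b1, b2⟩ := Finset.mem_filter.1 hS
    exact ⟨hUX S b1, b2⟩
  have hUcard : (U.card : ℝ) ≤ (2 + D2) * X ^ (1 - κ / 64) := by
    have h1 := Finset.card_le_card hcov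
    have h2 := Finset.card_union_le Ua (Ub ∪ Uc)
    have h3 := Finset.card_union_le Ub Uc
    have h4 : U.card ≤ Ua.card + (Ub.card + Uc.card) := by omega
    have h5 : (U.card : ℝ) ≤ Ua.card + (Ub.card + Uc.card) := by exact_mod_cast h4
    linarith
  have hfin := hsn X hX G (fun n hn => ⟨(hG n hn).1, (hG n hn).2.1⟩) U
    (fun n hn => by rw [hU]; exact Finset.mem_image_of_mem _ hn)
  calc (G.card : ℝ) ≤ U.card * (D5 * X ^ η) := hfin
    _ ≤ (2 + D2) * X ^ (1 - κ / 64) * (D5 * X ^ η) := mul_le_mul_of_nonneg_right hUcard (by positivity)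
    _ = (2 + D2) * D5 * (X ^ (1 - κ / 64) * X ^ η) := by ring
    _ = (2 + D2) * D5 * X ^ (1 - ε / 1024) := by
        rw [← Real.rpow_add hXp]
        congr 2
        rw [hη, hκ]
        ring
    _ ≤ _ := mul_le_mul_of_nonneg_right (by linarith) (by positivity)

/-- the ideals for which the least radical is the expected one -/
def Reg (ε : ℝ) (n : Ideal (𝓞 K)) : Prop :=
  (∀ y : K, Pt y → (∀ v : Pr K, v.asIdeal ∣ n → v ∈ sp y) →
    lev (Ideal.absNorm n : ℕ) (pm (sn n)) * ((Ideal.absNorm n : ℕ) : ℝ) ^ (-ε) < nn (sp y)) ∧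
  ∃ y : K, Pt y ∧ (∀ v : Pr K, v.asIdeal ∣ n → v ∈ sp y) ∧
    nn (sp y) ≤ lev (Ideal.absNorm n : ℕ) (pm (sn n)) * ((Ideal.absNorm n : ℕ) : ℝ) ^ ε

/-- **almost all ideals are regular** -/
theorem regular (K : Type) [Field K] [NumberField K] (ε : ℝ) (hε : 0 < ε) (hε1 : ε ≤ 1) :
    ∃ D : ℝ, 0 < D ∧ ∀ X : ℝ, 1 ≤ X → ∀ G : Finset (Ideal (𝓞 K)),
    (∀ n ∈ G, n ≠ 0 ∧ ((Ideal.absNorm n : ℕ) : ℝ) ≤ X ∧ ¬ Reg ε n) →
    (G.card : ℝ) ≤ D * X ^ (1 - ε / 1024) := by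
  classical
  obtain ⟨D1, hD1, hlow⟩ := lower_ideals K (ε / 2) (by positivity) (by linarith)
  obtain ⟨D2, hD2, hup⟩ := upper_ideals K ε hε hε1
  obtain ⟨D3, hD3, hcnt⟩ := count_ideals K
  refine ⟨D1 + D2 + D3, by positivity, fun X hX G hG => ?_⟩
  have hXp : 0 < X := by linarith
  obtain ⟨G1, hG1⟩ : ∃ G1, G1 = G.filter fun n => ((Ideal.absNorm n : ℕ) : ℝ) ≤ X ^ (1 / 2 : ℝ) :=
    ⟨_, rfl⟩
  obtain ⟨G2, hG2⟩ : ∃ G2, G2 = G.filter fun n => X ^ (1 / 2 : ℝ) < ((Ideal.absNorm n : ℕ) : ℝ) ∧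
      ¬ (∀ y : K, Pt y → (∀ v : Pr K, v.asIdeal ∣ n → v ∈ sp y) →
    lev (Ideal.absNorm n : ℕ) (pm (sn n)) * ((Ideal.absNorm n : ℕ) : ℝ) ^ (-ε) < nn (sp y)) :=
    ⟨_, rfl⟩
  obtain ⟨G3, hG3⟩ : ∃ G3, G3 = G.filter fun n => ¬ ∃ y : K, Pt y ∧
      (∀ v : Pr K, v.asIdeal ∣ n → v ∈ sp y) ∧
    nn (sp y) ≤ lev (Ideal.absNorm n : ℕ) (pm (sn n)) * ((Ideal.absNorm n : ℕ) : ℝ) ^ ε :=
    ⟨_, rfl⟩
  have hcov : G ⊆ G1 ∪ (G2 ∪ G3) := by
    intro n hn
    obtain ⟨h1, h2, h3⟩ := hG n hn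
    rw [Finset.mem_union, Finset.mem_union, hG1, hG2, hG3, Finset.mem_filter, Finset.mem_filter,
      Finset.mem_filter]
    by_cases h4 : ((Ideal.absNorm n : ℕ) : ℝ) ≤ X ^ (1 / 2 : ℝ)
    · exact Or.inl ⟨hn, h4⟩
    · right
      rw [Reg, not_and_or] at h3
      rcases h3 with h3 | h3
      · exact Or.inl ⟨hn, not_le.1 h4, h3⟩
      · exact Or.inr ⟨hn, h3⟩
  have c1 : (G1.card : ℝ) ≤ D3 * X ^ (1 - ε / 1024) := by
    have h1 := hcnt (X ^ (1 / 2 : ℝ)) (Real.one_le_rpow hX (by norm_num)) G1 (fun n hn => by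
      rw [hG1] at hn
      obtain ⟨b1, b2⟩ := Finset.mem_filter.1 hn
      exact ⟨(hG n b1).1, b2⟩)
    refine h1.trans (mul_le_mul_of_nonneg_left ?_ hD3.le)
    rw [← Real.rpow_mul hXp.le]
    refine Real.rpow_le_rpow_of_exponent_le hX ?_
    linarith
  have c2 : (G2.card : ℝ) ≤ D1 * X ^ (1 - ε / 1024) := by
    have h1 := hlow X hX G2 (fun n hn => by
      rw [hG2] at hn
      obtain ⟨b1, b2, b3⟩ := Finset.mem_filter.1 hn
      obtain ⟨h1, h2, h3⟩ := hG n b1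
      push Not at b3
      obtain ⟨y, hy1, hy2, hy3⟩ := b3
      refine ⟨h1, h2, y, hy1, hy2, ?_⟩
      rw [← sn_eq h1]
      refine hy3.trans (mul_le_mul_of_nonneg_left ?_ ?_)
      · have hn0 : (0 : ℝ) < ((Ideal.absNorm n : ℕ) : ℝ) := lt_trans (by positivity) b2
        rw [Real.rpow_neg hn0.le, Real.rpow_neg hXp.le]
        refine inv_anti₀ (by positivity) ?_
        calc X ^ (ε / 2) = (X ^ (1 / 2 : ℝ)) ^ ε := by
              rw [← Real.rpow_mul hXp.le]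
              congr 1
              ring
          _ ≤ _ := Real.rpow_le_rpow (by positivity) b2.le hε.le
      · exact (Real.rpow_nonneg (Nat.cast_nonneg _) _).trans (le_max_left _ _))
    refine h1.trans (mul_le_mul_of_nonneg_left ?_ hD1.le)
    refine Real.rpow_le_rpow_of_exponent_le hX ?_
    linarith
  have c3 : (G3.card : ℝ) ≤ D2 * X ^ (1 - ε / 1024) := by
    refine hup X hX G3 fun n hn => ?_
    rw [hG3] at hn
    obtain ⟨b1, b2⟩ := Finset.mem_filter.1 hn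
    obtain ⟨h1, h2, h3⟩ := hG n b1
    exact ⟨h1, h2, b2⟩
  have h1 := Finset.card_le_card hcov
  have h2 := Finset.card_union_le G1 (G2 ∪ G3)
  have h3 := Finset.card_union_le G2 G3
  have h4 : G.card ≤ G1.card + (G2.card + G3.card) := by omega
  have h5 : (G.card : ℝ) ≤ G1.card + (G2.card + G3.card) := by exact_mod_cast h4
  linarith

end Pool.Agent.T6.H44.DIV
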