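import Mathlib

/-!
Integers of a number field in boxes.
-/

set_option autoImplicit false

namespace Pool.Agent.T6.H44.DIV

open Finset NumberField

variable (K : Type) [Field K] [NumberField K]

/-- the indices of an integral basis -/
abbrev Ix := Module.Free.ChooseBasisIndex ℤ (𝓞 K)

theorem card_Ix : Fintype.card (Ix K) = Module.finrank ℚ K := by
  rw [← Module.finrank_eq_card_chooseBasisIndex, RingOfIntegers.rank]

/-- the size of the basis -/
noncomputable def C0 : ℝ := 1 + ∑ w : InfinitePlace K, ∑ i : Ix K, w (RingOfIntegers.basis K i : K)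

variable {K}

theorem C0_ge (w : InfinitePlace K) : 1 + ∑ i : Ix K, w (RingOfIntegers.basis K i : K) ≤ C0 K := by
  unfold C0
  have := Finset.single_le_sum (f := fun w : InfinitePlace K =>
    ∑ i : Ix K, w (RingOfIntegers.basis K i : K))
    (fun w _ => Finset.sum_nonneg fun i _ => apply_nonneg w _) (Finset.mem_univ w)
  linarith

theorem one_le_C0 : 1 ≤ C0 K := by
  unfold C0
  have : 0 ≤ ∑ w : InfinitePlace K, ∑ i : Ix K, w (RingOfIntegers.basis K i : K) :=
    Finset.sum_nonneg fun w _ => Finset.sum_nonneg fun i _ => apply_nonneg w _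
  linarith

theorem place_sum_le (w : InfinitePlace K) (f : Ix K → K) :
    w (∑ i, f i) ≤ ∑ i, w (f i) := by
  rw [← w.norm_embedding_eq, map_sum]
  refine (norm_sum_le _ _).trans (Finset.sum_le_sum fun i _ => ?_)
  rw [w.norm_embedding_eq]

theorem place_natCast (w : InfinitePlace K) (n : ℕ) : w (n : K) = n := by
  rw [← w.norm_embedding_eq]
  simp

theorem place_ratCast (w : InfinitePlace K) (q : ℚ) : w (q : K) = |(q : ℝ)| := by
  rw [← w.norm_embedding_eq]
  simp

variable (K) in
/-- many integers in a box -/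
theorem many_integers : ∃ c : ℝ, 0 < c ∧ ∀ ρ : ℝ, 1 ≤ ρ → ∃ B : Finset (𝓞 K),
    (∀ a ∈ B, ∀ w : InfinitePlace K, w (a : K) ≤ ρ) ∧
    c * ρ ^ Module.finrank ℚ K ≤ B.card := by
  classical
  have hC := one_le_C0 (K := K)
  have hC0 : 0 < C0 K := by linarith
  refine ⟨(1 / C0 K) ^ Module.finrank ℚ K, by positivity, fun ρ hρ => ?_⟩
  obtain ⟨m, hm⟩ : ∃ m, m = ⌊ρ / C0 K⌋₊ := ⟨_, rfl⟩
  have hm1 : (m : ℝ) ≤ ρ / C0 K := by rw [hm]; exact Nat.floor_le (by positivity)
  have hm2 : ρ / C0 K ≤ (m + 1 : ℕ) := by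
    push_cast
    rw [hm]
    exact (Nat.lt_floor_add_one _).le
  set φ : (Ix K → ℕ) → 𝓞 K := fun f => ∑ i, (f i : ℤ) • RingOfIntegers.basis K i with hφ
  have hinj : Function.Injective φ := by
    intro f g hfg
    funext i
    have h1 := congrArg (fun z => (RingOfIntegers.basis K).repr z i) hfg
    simp only [hφ] at h1
    rw [(RingOfIntegers.basis K).repr_sum_self, (RingOfIntegers.basis K).repr_sum_self] at h1
    exact_mod_cast h1
  refine ⟨(Fintype.piFinset fun _ : Ix K => Finset.range (m + 1)).image φ, ?_, ?_⟩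
  · intro a ha w
    obtain ⟨f, hf, rfl⟩ := Finset.mem_image.1 ha
    rw [Fintype.mem_piFinset] at hf
    have h1 : ((φ f : 𝓞 K) : K) = ∑ i, (f i : K) * (RingOfIntegers.basis K i : K) := by
      show algebraMap (𝓞 K) K (φ f) = _
      simp only [hφ]
      rw [map_sum]
      refine Finset.sum_congr rfl fun i _ => ?_
      rw [zsmul_eq_mul, map_mul]
      simp
    rw [h1]
    refine (place_sum_le w _).trans ?_
    have h2 : ∀ i ∈ (Finset.univ : Finset (Ix K)), w ((f i : K) * (RingOfIntegers.basis K i : K)) ≤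
        m * w (RingOfIntegers.basis K i : K) := by
      intro i _
      rw [map_mul, place_natCast]
      refine mul_le_mul_of_nonneg_right ?_ (apply_nonneg w _)
      have := Finset.mem_range.1 (hf i)
      exact_mod_cast Nat.lt_succ_iff.1 this
    refine (Finset.sum_le_sum h2).trans ?_
    rw [← Finset.mul_sum]
    have h3 := C0_ge w
    have h4 : 0 ≤ ∑ i : Ix K, w (RingOfIntegers.basis K i : K) :=
      Finset.sum_nonneg fun i _ => apply_nonneg w _
    calc (m : ℝ) * ∑ i : Ix K, w (RingOfIntegers.basis K i : K) ≤ ρ / C0 K * C0 K :=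
          mul_le_mul hm1 (by linarith) h4 (by positivity)
      _ = ρ := div_mul_cancel₀ _ hC0.ne'
  · rw [Finset.card_image_of_injective _ hinj, Fintype.card_piFinset, Finset.prod_const,
      Finset.card_univ, card_Ix, Finset.card_range]
    rw [← mul_pow]
    push_cast
    refine pow_le_pow_left₀ (by positivity) ?_ _
    push_cast at hm2
    calc 1 / C0 K * ρ = ρ / C0 K := by ring
      _ ≤ _ := hm2

/-- approximation by integers at the infinite places -/
theorem approx (s : K) : ∃ σ : 𝓞 K, ∀ w : InfinitePlace K, w (s - (σ : K)) ≤ C0 K := by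
  classical
  refine ⟨∑ i, ⌊(integralBasis K).repr s i⌋ • RingOfIntegers.basis K i, fun w => ?_⟩
  have h1 : s = ∑ i, ((integralBasis K).repr s i : K) * (RingOfIntegers.basis K i : K) := by
    conv_lhs => rw [← (integralBasis K).sum_repr s]
    refine Finset.sum_congr rfl fun i _ => ?_
    rw [integralBasis_apply, Rat.smul_def]
  have h2 : ((∑ i, ⌊(integralBasis K).repr s i⌋ • RingOfIntegers.basis K i : 𝓞 K) : K) =
      ∑ i, ((⌊(integralBasis K).repr s i⌋ : ℚ) : K) * (RingOfIntegers.basis K i : K) := by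
    show algebraMap (𝓞 K) K _ = _
    rw [map_sum]
    refine Finset.sum_congr rfl fun i _ => ?_
    rw [zsmul_eq_mul, map_mul]
    simp
  have h3 : s - ((∑ i, ⌊(integralBasis K).repr s i⌋ • RingOfIntegers.basis K i : 𝓞 K) : K) =
      ∑ i, ((Int.fract ((integralBasis K).repr s i) : ℚ) : K) * (RingOfIntegers.basis K i : K) := by
    have e : ∑ i, ((Int.fract ((integralBasis K).repr s i) : ℚ) : K) *
        (RingOfIntegers.basis K i : K) =
        ∑ i, ((integralBasis K).repr s i : K) * (RingOfIntegers.basis K i : K) -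
        ∑ i, ((⌊(integralBasis K).repr s i⌋ : ℚ) : K) * (RingOfIntegers.basis K i : K) := by
      rw [← Finset.sum_sub_distrib]
      refine Finset.sum_congr rfl fun i _ => ?_
      rw [← sub_mul, Int.fract]
      push_cast
      rfl
    rw [e, ← h2, ← h1]
  rw [h3]
  refine (place_sum_le w _).trans ?_
  have h4 : ∀ i ∈ (Finset.univ : Finset (Ix K)),
      w (((Int.fract ((integralBasis K).repr s i) : ℚ) : K) * (RingOfIntegers.basis K i : K)) ≤
        w (RingOfIntegers.basis K i : K) := by
    intro i _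
    rw [map_mul, place_ratCast]
    refine mul_le_of_le_one_left (apply_nonneg w _) ?_
    rw [abs_of_nonneg (by exact_mod_cast Int.fract_nonneg _)]
    exact_mod_cast (Int.fract_lt_one _).le
  refine (Finset.sum_le_sum h4).trans ?_
  have := C0_ge w
  linarith

variable (K) in
theorem sum_mult' : ∑ w : InfinitePlace K, w.mult = Module.finrank ℚ K := InfinitePlace.sum_mult_eq

theorem prod_pow_mult (x : ℝ) : ∏ w : InfinitePlace K, x ^ w.mult = x ^ Module.finrank ℚ K := by
  rw [Finset.prod_pow_eq_pow_sum, sum_mult']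

variable (K) in
/-- sets with large differences in boxes -/
theorem line_count : ∃ C : ℝ, 0 < C ∧ ∀ (S : Finset K) (A : InfinitePlace K → ℝ),
    (∀ w, 0 < A w) → (∀ t ∈ S, ∀ w : InfinitePlace K, w t ≤ A w) → ∀ B : ℝ, 0 < B →
    (∀ t ∈ S, ∀ t' ∈ S, t ≠ t' → B ≤ ∏ w : InfinitePlace K, w (t - t') ^ w.mult) →
    (S.card : ℝ) ≤ C * (1 + (∏ w : InfinitePlace K, A w ^ w.mult) / B) := by
  classical
  obtain ⟨d, hd⟩ : ∃ d, d = Module.finrank ℚ K := ⟨_, rfl⟩
  have hd1 : 1 ≤ d := by rw [hd]; exact Module.finrank_pos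
  have hd0 : (0 : ℝ) < d := by exact_mod_cast hd1
  refine ⟨5 ^ d * (2 * 2 ^ d), by positivity, fun S A hA hS B hB hdiff => ?_⟩
  obtain ⟨Q, hQ⟩ : ∃ Q, Q = ∏ w : InfinitePlace K, A w ^ w.mult := ⟨_, rfl⟩
  have hQ0 : 0 < Q := by rw [hQ]; exact Finset.prod_pos fun w _ => pow_pos (hA w) _
  obtain ⟨s, hs⟩ : ∃ s : ℝ, s = 1 / 2 * (B / (2 * Q)) ^ (1 / (d : ℝ)) := ⟨_, rfl⟩
  have hs0 : 0 < s := by rw [hs]; positivity
  have hsd : (2 * s) ^ d = B / (2 * Q) := by
    have h1 : 2 * s = (B / (2 * Q)) ^ (1 / (d : ℝ)) := by rw [hs]; ring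
    rw [h1, ← Real.rpow_natCast, ← Real.rpow_mul (by positivity), one_div_mul_cancel hd0.ne',
      Real.rpow_one]
  obtain ⟨m, hm⟩ : ∃ m : ℕ, m = ⌈1 / s⌉₊ := ⟨_, rfl⟩
  have hm1 : 1 / s ≤ m := by rw [hm]; exact Nat.le_ceil _
  have hm2 : (m : ℝ) < 1 / s + 1 := by rw [hm]; exact Nat.ceil_lt_add_one (by positivity)
  -- the cells
  set f : K → (InfinitePlace K → ℤ × ℤ) := fun t w =>
    (⌊(w.embedding t).re / (s * A w)⌋, ⌊(w.embedding t).im / (s * A w)⌋) with hf
  have hsA : ∀ w, 0 < s * A w := fun w => mul_pos hs0 (hA w)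
  have hinj : Set.InjOn f (S : Set K) := by
    intro t ht t' ht' he
    by_contra hne
    have h1 := hdiff t ht t' ht' hne
    have h2 : ∀ w : InfinitePlace K, w (t - t') ≤ 2 * (s * A w) := by
      intro w
      have e := congrFun he w
      simp only [hf, Prod.mk.injEq] at e
      obtain ⟨e1, e2⟩ := e
      have e3 := Int.abs_sub_lt_one_of_floor_eq_floor e1
      have e4 := Int.abs_sub_lt_one_of_floor_eq_floor e2
      rw [← sub_div, abs_div, abs_of_pos (hsA w), div_lt_one (hsA w)] at e3 e4
      rw [← w.norm_embedding_eq, map_sub]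
      refine (Complex.norm_le_abs_re_add_abs_im _).trans ?_
      rw [Complex.sub_re, Complex.sub_im]
      linarith
    have h3 : ∏ w : InfinitePlace K, w (t - t') ^ w.mult ≤
        ∏ w : InfinitePlace K, (2 * s * A w) ^ w.mult := by
      refine Finset.prod_le_prod (fun w _ => pow_nonneg (apply_nonneg w _) _) fun w _ => ?_
      refine pow_le_pow_left₀ (apply_nonneg w _) ?_ _
      have := h2 w
      linarith
    have h4 : ∏ w : InfinitePlace K, (2 * s * A w) ^ w.mult = B / 2 := by
      have h5 : ∀ w : InfinitePlace K, (2 * s * A w) ^ w.mult = (2 * s) ^ w.mult * A w ^ w.mult :=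
        fun w => mul_pow _ _ _
      rw [Finset.prod_congr rfl fun w _ => h5 w, Finset.prod_mul_distrib, prod_pow_mult, ← hQ,
        ← hd, hsd]
      field_simp
    linarith
  have himg : (S.image f).card ≤ (2 * m + 1) ^ d := by
    have hsub : S.image f ⊆ Fintype.piFinset fun w : InfinitePlace K =>
        (Finset.Icc (-(m : ℤ)) (m : ℤ)) ×ˢ
          (if w.mult = 1 then {0} else Finset.Icc (-(m : ℤ)) (m : ℤ)) := by
      intro g hg
      obtain ⟨t, ht, rfl⟩ := Finset.mem_image.1 hg
      rw [Fintype.mem_piFinset]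
      intro w
      have key : ∀ r : ℝ, |r| ≤ A w → ⌊r / (s * A w)⌋ ∈ Finset.Icc (-(m : ℤ)) (m : ℤ) := by
        intro r hr
        have h1 : |r / (s * A w)| ≤ m := by
          rw [abs_div, abs_of_pos (hsA w), div_le_iff₀ (hsA w)]
          calc |r| ≤ A w := hr
            _ = 1 / s * (s * A w) := by field_simp
            _ ≤ m * (s * A w) := mul_le_mul_of_nonneg_right hm1 (hsA w).le
        rw [abs_le] at h1
        rw [Finset.mem_Icc]
        constructor
        · rw [Int.le_floor]
          push_cast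
          exact h1.1
        · have h3 : ((⌊r / (s * A w)⌋ : ℤ) : ℝ) ≤ ((m : ℤ) : ℝ) := by
            push_cast
            exact (Int.floor_le _).trans h1.2
          exact_mod_cast h3
      have hn : ‖w.embedding t‖ ≤ A w := by
        rw [w.norm_embedding_eq]
        exact hS t ht w
      rw [Finset.mem_product]
      refine ⟨key _ ((Complex.abs_re_le_norm _).trans hn), ?_⟩
      split_ifs with hw
      · rw [Finset.mem_singleton]
        have hreal : w.IsReal := by
          by_contra hcon
          rw [InfinitePlace.mult, if_neg hcon] at hw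
          omega
        have him : (w.embedding t).im = 0 := by
          have h5 := InfinitePlace.conjugate_embedding_eq_of_isReal hreal
          have h6 := RingHom.congr_fun h5 t
          rw [ComplexEmbedding.conjugate_coe_eq] at h6
          exact Complex.conj_eq_iff_im.1 h6
        show ⌊(w.embedding t).im / (s * A w)⌋ = 0
        rw [him, zero_div, Int.floor_zero]
      · exact key _ ((Complex.abs_im_le_norm _).trans hn)
    refine (Finset.card_le_card hsub).trans (le_of_eq ?_)
    rw [Fintype.card_piFinset]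
    have hc : ∀ w : InfinitePlace K, ((Finset.Icc (-(m : ℤ)) (m : ℤ)) ×ˢ
          (if w.mult = 1 then {0} else Finset.Icc (-(m : ℤ)) (m : ℤ))).card =
        (2 * m + 1) ^ w.mult := by
      intro w
      have hI : (Finset.Icc (-(m : ℤ)) (m : ℤ)).card = 2 * m + 1 := by
        rw [Int.card_Icc]
        omega
      rw [Finset.card_product, hI]
      split_ifs with hw
      · rw [Finset.card_singleton, hw, mul_one, pow_one]
      · have h2 : w.mult = 2 := by
          have : w.mult = 1 ∨ w.mult = 2 := by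
            rw [InfinitePlace.mult]
            split_ifs
            · exact Or.inl rfl
            · exact Or.inr rfl
          rcases this with h | h
          · exact absurd h hw
          · exact h
        rw [hI, h2, sq]
    rw [Finset.prod_congr rfl fun w _ => hc w, Finset.prod_pow_eq_pow_sum, sum_mult', hd]
  rw [Finset.card_image_of_injOn hinj] at himg
  have h1 : (S.card : ℝ) ≤ (2 * m + 1) ^ d := by exact_mod_cast himg
  have h2 : (2 * (m : ℝ) + 1) ≤ 2 / s + 3 := by
    have : 2 / s = 2 * (1 / s) := by ring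
    rw [this]
    linarith
  have h3 : (S.card : ℝ) ≤ (2 / s + 3) ^ d :=
    h1.trans (pow_le_pow_left₀ (by positivity) h2 _)
  rw [← hQ]
  have h2d : (1 : ℝ) ≤ 2 * 2 ^ d := by
    have : (1 : ℝ) ≤ 2 ^ d := one_le_pow₀ (by norm_num)
    linarith
  rcases le_or_gt 1 s with h | h
  · have h4 : 2 / s + 3 ≤ 5 := by
      have : 2 / s ≤ 2 := div_le_self (by norm_num) h
      linarith
    have h5 : (S.card : ℝ) ≤ 5 ^ d := h3.trans (pow_le_pow_left₀ (by positivity) h4 _)
    have h6 : 0 ≤ Q / B := by positivity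
    calc (S.card : ℝ) ≤ 5 ^ d := h5
      _ ≤ 5 ^ d * (2 * 2 ^ d) := le_mul_of_one_le_right (by positivity) h2d
      _ ≤ _ := le_mul_of_one_le_right (by positivity) (by linarith)
  · have h4 : 2 / s + 3 ≤ 5 / s := by
      have : 1 ≤ 1 / s := by rw [le_div_iff₀ hs0]; linarith
      have e1 : 2 / s = 2 * (1 / s) := by ring
      have e2 : 5 / s = 5 * (1 / s) := by ring
      rw [e1, e2]
      linarith
    have h5 : (S.card : ℝ) ≤ (5 / s) ^ d := h3.trans (pow_le_pow_left₀ (by positivity) h4 _)
    have h6 : (5 / s) ^ d = 5 ^ d * (2 * 2 ^ d) * (Q / B) := by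
      have e1 : (5 / s) ^ d = 5 ^ d * 2 ^ d / (2 * s) ^ d := by
        rw [mul_pow, div_pow]
        field_simp
      rw [e1, hsd]
      field_simp
    rw [h6] at h5
    refine h5.trans (mul_le_mul_of_nonneg_left ?_ (by positivity))
    linarith

end Pool.Agent.T6.H44.DIV
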