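import Pool.Agent.TH876.KR.Sets
import Pool.Agent.TH876.KR.Small

/-!
Ideals of the ring of integers with given prime divisors.
-/

set_option autoImplicit false

namespace Pool.Agent.T6.H44.DIV

open Finset NumberField IsDedekindDomain Pool.Agent.H691R3 Pool.Agent.TH876.Loc
open Pool.Agent.TH876.KR (finite_primes)

variable {K : Type} [Field K] [NumberField K]

/-- the exponent of a prime in an ideal -/
noncomputable def ei (n : Ideal (𝓞 K)) (v : Pr K) : ℕ :=
  (Associates.mk v.asIdeal).count (Associates.mk n).factors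

/-- the prime divisors of an ideal -/
noncomputable def supp (n : Ideal (𝓞 K)) (hn : n ≠ 0) : Finset (Pr K) :=
  (Ideal.finite_factors hn).toFinset

theorem mem_supp {n : Ideal (𝓞 K)} {hn : n ≠ 0} {v : Pr K} : v ∈ supp n hn ↔ v.asIdeal ∣ n := by
  rw [supp, Set.Finite.mem_toFinset]
  rfl

theorem ei_eq_zero {n : Ideal (𝓞 K)} (hn : n ≠ 0) {v : Pr K} (hv : ¬ v.asIdeal ∣ n) :
    ei n v = 0 := by
  classical
  by_contra h
  apply hv
  have h1 : 1 ≤ ei n v := Nat.one_le_iff_ne_zero.2 h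
  have h2 := (Associates.prime_pow_dvd_iff_le (Associates.mk_ne_zero.2 hn)
    (Associates.irreducible_mk.2 v.irreducible) (k := 1)).2 h1
  rw [pow_one, Associates.mk_le_mk_iff_dvd] at h2
  exact h2

theorem prod_ei {n : Ideal (𝓞 K)} (hn : n ≠ 0) {S : Finset (Pr K)} (hS : ∀ v : Pr K, v.asIdeal ∣ n → v ∈ S) :
    ∏ v ∈ S, v.asIdeal ^ ei n v = n := by
  classical
  have h1 := Ideal.finprod_heightOneSpectrum_factorization hn
  conv_rhs => rw [← h1]
  rw [finprod_eq_prod_of_mulSupport_subset (s := S)]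
  · rfl
  · intro v hv
    rw [Function.mem_mulSupport] at hv
    by_contra hvS
    apply hv
    have h2 : ¬ v.asIdeal ∣ n := fun h => hvS (hS v h)
    show v.asIdeal ^ ei n v = 1
    rw [ei_eq_zero hn h2, pow_zero]

theorem absNorm_ei {n : Ideal (𝓞 K)} (hn : n ≠ 0) {S : Finset (Pr K)}
    (hS : ∀ v : Pr K, v.asIdeal ∣ n → v ∈ S) :
    ((Ideal.absNorm n : ℕ) : ℝ) = ∏ v ∈ S, Nv v ^ ei n v := by
  conv_lhs => rw [← prod_ei hn hS]
  rw [map_prod]
  push_cast
  refine Finset.prod_congr rfl fun v _ => ?_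
  rw [map_pow]
  push_cast
  rfl

theorem nn_supp_le {n : Ideal (𝓞 K)} (hn : n ≠ 0) : nn (supp n hn) ≤ (Ideal.absNorm n : ℝ) := by
  classical
  rw [absNorm_ei hn (S := supp n hn) fun v hv => mem_supp.2 hv]
  unfold nn
  refine Finset.prod_le_prod (fun v _ => (Nv_pos v).le) fun v hv => ?_
  have h1 : ei n v ≠ 0 := by
    intro h0
    have h2 := (Associates.prime_pow_dvd_iff_le (Associates.mk_ne_zero.2 hn)
      (Associates.irreducible_mk.2 v.irreducible) (k := 1)).1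
      (by rw [pow_one, Associates.mk_le_mk_iff_dvd]; exact mem_supp.1 hv)
    have h3 : 1 ≤ ei n v := h2
    omega
  calc Nv v = Nv v ^ 1 := (pow_one _).symm
    _ ≤ Nv v ^ ei n v := pow_le_pow_right₀ (one_le_Nv v) (Nat.one_le_iff_ne_zero.2 h1)

variable (K) in
/-- powers of a constant to the number of elements of a set of primes -/
theorem pow_card_le (C : ℝ) (hC : 1 ≤ C) (δ : ℝ) (hδ : 0 < δ) : ∃ D : ℝ, 0 < D ∧
    ∀ S : Finset (Pr K), C ^ S.card ≤ D * nn S ^ δ := by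
  classical
  have hC0 : 0 < C := by linarith
  set T := (finite_primes K (C ^ (1 / δ))).toFinset with hT
  have hTm : ∀ v : Pr K, v ∈ T ↔ Nv v ≤ C ^ (1 / δ) := by
    intro v
    rw [hT, Set.Finite.mem_toFinset]
    rfl
  refine ⟨C ^ T.card, by positivity, fun S => ?_⟩
  have h1 : ∀ v ∈ S, C ≤ (if v ∈ T then C else 1) * Nv v ^ δ := by
    intro v _
    have hv1 : 1 ≤ Nv v ^ δ := Real.one_le_rpow (one_le_Nv v) hδ.le
    split_ifs with hv
    · exact le_mul_of_one_le_right hC0.le hv1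
    · rw [hTm, not_le] at hv
      rw [one_mul]
      have h2 := Real.rpow_le_rpow (by positivity) hv.le hδ.le
      rw [← Real.rpow_mul hC0.le, one_div_mul_cancel hδ.ne', Real.rpow_one] at h2
      exact h2
  calc C ^ S.card = ∏ _v ∈ S, C := by rw [Finset.prod_const]
    _ ≤ ∏ v ∈ S, (if v ∈ T then C else 1) * Nv v ^ δ :=
        Finset.prod_le_prod (fun _ _ => hC0.le) h1
    _ = (∏ v ∈ S, if v ∈ T then C else 1) * nn S ^ δ := by
        rw [Finset.prod_mul_distrib]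
        congr 1
        unfold nn
        rw [Real.finsetProd_rpow _ _ fun v _ => (Nv_pos v).le]
    _ ≤ C ^ T.card * nn S ^ δ := by
        refine mul_le_mul_of_nonneg_right ?_ (Real.rpow_nonneg (nn_pos S).le _)
        rw [← Finset.prod_filter, Finset.prod_const]
        refine pow_le_pow_right₀ hC (Finset.card_le_card ?_)
        intro v hv
        exact (Finset.mem_filter.1 hv).2

variable (K) in
/-- the ideals of norm at most `X` with prime divisors in a given set -/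
theorem ideals_supp (ε : ℝ) (hε : 0 < ε) : ∃ D : ℝ, 0 < D ∧ ∀ X : ℝ, 1 ≤ X →
    ∀ S : Finset (Pr K), nn S ≤ X ^ 2 → ∀ G : Finset (Ideal (𝓞 K)),
    (∀ n ∈ G, n ≠ 0 ∧ ((Ideal.absNorm n : ℕ) : ℝ) ≤ X ∧ ∀ v : Pr K, v.asIdeal ∣ n → v ∈ S) →
    (G.card : ℝ) ≤ D * X ^ ε := by
  classical
  obtain ⟨σ, hσ⟩ : ∃ σ, σ = ε / 4 := ⟨_, rfl⟩
  have hσ0 : 0 < σ := by rw [hσ]; positivity
  have hC : (1 : ℝ) ≤ 1 + 2 / σ := by
    have : 0 < 2 / σ := by positivity
    linarith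
  obtain ⟨D, hD, hpow⟩ := pow_card_le K (1 + 2 / σ) hC σ hσ0
  refine ⟨D, hD, fun X hX S hS G hG => ?_⟩
  have hX0 : 0 < X := by linarith
  obtain ⟨Mx, hMx⟩ : ∃ Mx : ℕ, Mx = ⌊2 * Real.log X⌋₊ := ⟨_, rfl⟩
  set φ : Ideal (𝓞 K) → (S → ℕ) := fun n v => ei n v.1 with hφ
  have hinj : Set.InjOn φ (G : Set (Ideal (𝓞 K))) := by
    intro n hn n' hn' h
    have a := hG n hn
    have a' := hG n' hn'
    rw [← prod_ei a.1 a.2.2, ← prod_ei a'.1 a'.2.2]
    refine Finset.prod_congr rfl fun v hv => ?_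
    have := congrFun h ⟨v, hv⟩
    simp only [hφ] at this
    rw [this]
  -- exponents
  have hnorm : ∀ n ∈ G, ∏ v ∈ S, Nv v ^ ei n v ≤ X := by
    intro n hn
    have a := hG n hn
    rw [← absNorm_ei a.1 a.2.2]
    exact a.2.1
  have hle : ∀ n ∈ G, ∀ v ∈ S, ei n v ≤ Mx := by
    intro n hn v hv
    have h1 : Nv v ^ ei n v ≤ ∏ v ∈ S, Nv v ^ ei n v := by
      have h2 := Finset.prod_erase_mul S (fun v => Nv v ^ ei n v) hv
      rw [← h2]
      refine le_mul_of_one_le_left (pow_nonneg (Nv_pos v).le _) ?_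
      calc (1 : ℝ) = ∏ _v ∈ S.erase v, 1 := by rw [Finset.prod_const_one]
        _ ≤ ∏ v ∈ S.erase v, Nv v ^ ei n v :=
            Finset.prod_le_prod (fun _ _ => zero_le_one) fun v _ => one_le_pow₀ (one_le_Nv v)
    have h3 : (2 : ℝ) ^ ei n v ≤ X :=
      (pow_le_pow_left₀ (by norm_num) (two_le_Nv v) _).trans (h1.trans (hnorm n hn))
    have h4 := Real.log_le_log (by positivity) h3
    rw [Real.log_pow] at h4
    have h5 := Real.log_two_gt_d9
    rw [hMx]
    refine Nat.le_floor ?_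
    have h6 : (0 : ℝ) ≤ ei n v := Nat.cast_nonneg _
    nlinarith
  have h1 : ∀ n ∈ G, (1 : ℝ) ≤ X ^ σ * ∏ v : S, (Nv v.1 ^ (-σ)) ^ (φ n v) := by
    intro n hn
    have h2 : ∏ v : S, (Nv v.1 ^ (-σ)) ^ (φ n v) = (∏ v ∈ S, Nv v ^ ei n v) ^ (-σ) := by
      rw [← Real.finsetProd_rpow _ _ fun v _ => pow_nonneg (Nv_pos v).le _,
        ← Finset.prod_coe_sort S]
      refine Finset.prod_congr rfl fun v _ => ?_
      rw [← Real.rpow_natCast, ← Real.rpow_natCast, ← Real.rpow_mul (Nv_pos _).le,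
        ← Real.rpow_mul (Nv_pos _).le, mul_comm]
    have h3 : 0 < ∏ v ∈ S, Nv v ^ ei n v := Finset.prod_pos fun v _ => pow_pos (Nv_pos v) _
    rw [h2, Real.rpow_neg h3.le, ← div_eq_mul_inv, one_le_div (Real.rpow_pos_of_pos h3 _)]
    exact Real.rpow_le_rpow h3.le (hnorm n hn) hσ0.le
  have h2 : (G.card : ℝ) ≤ ∑ n ∈ G, X ^ σ * ∏ v : S, (Nv v.1 ^ (-σ)) ^ (φ n v) := by
    rw [Finset.card_eq_sum_ones, Nat.cast_sum]
    exact Finset.sum_le_sum fun n hn => by rw [Nat.cast_one]; exact h1 n hn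
  have h3 : ∑ n ∈ G, ∏ v : S, (Nv v.1 ^ (-σ)) ^ (φ n v) ≤ (1 + 2 / σ) ^ S.card := by
    have e1 : ∑ n ∈ G, ∏ v : S, (Nv v.1 ^ (-σ)) ^ (φ n v) =
        ∑ f ∈ G.image φ, ∏ v : S, (Nv v.1 ^ (-σ)) ^ (f v) := by
      rw [Finset.sum_image hinj]
    rw [e1]
    have e2 : G.image φ ⊆ Fintype.piFinset (fun _ : S => range (Mx + 1)) := by
      intro f hf
      obtain ⟨n, hn, rfl⟩ := Finset.mem_image.1 hf
      rw [Fintype.mem_piFinset]
      intro v
      exact Finset.mem_range.2 (Nat.lt_succ_of_le (hle n hn v.1 v.2))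
    refine (Finset.sum_le_sum_of_subset_of_nonneg e2 fun f _ _ => Finset.prod_nonneg fun v _ =>
      pow_nonneg (Real.rpow_nonneg (Nv_pos _).le _) _).trans ?_
    rw [← Finset.prod_univ_sum (fun _ : S => range (Mx + 1)) (fun v m => (Nv v.1 ^ (-σ)) ^ m)]
    have e3 : ∀ v : S, ∑ m ∈ range (Mx + 1), (Nv v.1 ^ (-σ)) ^ m ≤ 1 + 2 / σ := by
      intro v
      have hy := Pool.Agent.TH876.KR.y_lt hσ0 v.1
      have hy0 : 0 < Nv v.1 ^ (-σ) := Real.rpow_pos_of_pos (Nv_pos _) _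
      have hb := Pool.Agent.TH876.KR.y_bound hσ0 v.1
      have e4 : ∑ m ∈ range (Mx + 1), (Nv v.1 ^ (-σ)) ^ m ≤ (1 - Nv v.1 ^ (-σ))⁻¹ := by
        rw [← tsum_geometric_of_lt_one hy0.le hy]
        exact (summable_geometric_of_lt_one hy0.le hy).sum_le_tsum _ fun m _ => by positivity
      refine e4.trans ?_
      have e5 : (1 - Nv v.1 ^ (-σ))⁻¹ = 1 + Nv v.1 ^ (-σ) * (1 - Nv v.1 ^ (-σ))⁻¹ := by
        have : 1 - Nv v.1 ^ (-σ) ≠ 0 := by linarith
        field_simp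
        ring
      rw [e5]
      linarith
    refine (Finset.prod_le_prod (fun v _ => Finset.sum_nonneg fun m _ =>
      pow_nonneg (Real.rpow_nonneg (Nv_pos _).le _) _) fun v _ => e3 v).trans ?_
    rw [Finset.prod_const, Finset.card_univ, Fintype.card_coe]
  have h4 : nn S ^ σ ≤ X ^ (2 * σ) := by
    calc nn S ^ σ ≤ (X ^ 2) ^ σ := Real.rpow_le_rpow (nn_pos S).le hS hσ0.le
      _ = X ^ (2 * σ) := by
          rw [← Real.rpow_natCast, ← Real.rpow_mul hX0.le]
          norm_num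
  rw [← Finset.mul_sum] at h2
  calc (G.card : ℝ) ≤ X ^ σ * ∑ n ∈ G, ∏ v : S, (Nv v.1 ^ (-σ)) ^ (φ n v) := h2
    _ ≤ X ^ σ * (D * X ^ (2 * σ)) := by
        refine mul_le_mul_of_nonneg_left (h3.trans ((hpow S).trans ?_)) (by positivity)
        exact mul_le_mul_of_nonneg_left h4 hD.le
    _ = D * (X ^ σ * X ^ (2 * σ)) := by ring
    _ = D * X ^ (3 * σ) := by
        rw [← Real.rpow_add hX0]
        congr 2
        ring
    _ ≤ D * X ^ ε := by
        refine mul_le_mul_of_nonneg_left (Real.rpow_le_rpow_of_exponent_le hX ?_) hD.le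
        rw [hσ]
        linarith

end Pool.Agent.T6.H44.DIV
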