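import Pool.Agent.T6.H44.DIV.Prime
import Pool.Agent.T6.H44.DIV.Ide

/-!
Few ideals divide points of small radical.
-/

set_option autoImplicit false

namespace Pool.Agent.T6.H44.DIV

open Finset NumberField IsDedekindDomain Pool.Agent.H691R3 Pool.Agent.TH876.Loc
open Pool.Agent.Y728 (mainK log_pow_leK)

variable {K : Type} [Field K] [NumberField K]

/-- the largest norm of a prime of a set -/
noncomputable def pm (S : Finset (Pr K)) : ℕ := S.sup fun v => Ideal.absNorm v.asIdeal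

/-- the typical radical -/
noncomputable def lev (N P : ℝ) : ℝ := max (N ^ (3 / 2 : ℝ)) (N * P)

theorem lev_mono {N N' P P' : ℝ} (h0 : 0 ≤ N) (hP : 0 ≤ P) (h : N ≤ N') (h' : P ≤ P') :
    lev N P ≤ lev N' P' :=
  max_le_max (Real.rpow_le_rpow h0 h (by norm_num)) (mul_le_mul h h' hP (h0.trans h))

theorem le_pm {S : Finset (Pr K)} {v : Pr K} (hv : v ∈ S) : Nv v ≤ pm S := by
  have h := Finset.le_sup (f := fun v : Pr K => Ideal.absNorm v.asIdeal) hv
  show ((Ideal.absNorm v.asIdeal : ℕ) : ℝ) ≤ (pm S : ℝ)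
  exact_mod_cast h

theorem pm_mem {S : Finset (Pr K)} (hS : S.Nonempty) : ∃ v ∈ S, Nv v = pm S := by
  obtain ⟨v, hv, h⟩ := Finset.exists_mem_eq_sup S hS fun v : Pr K => Ideal.absNorm v.asIdeal
  refine ⟨v, hv, ?_⟩
  show ((Ideal.absNorm v.asIdeal : ℕ) : ℝ) = (pm S : ℝ)
  rw [pm, h]

theorem pm_le_nn (S : Finset (Pr K)) : (pm S : ℝ) ≤ nn S := by
  rcases S.eq_empty_or_nonempty with h | h
  · rw [h]
    have : pm (∅ : Finset (Pr K)) = 0 := rfl
    rw [this, Nat.cast_zero]
    exact (nn_pos _).le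
  · obtain ⟨v, hv, h1⟩ := pm_mem h
    rw [← h1]
    exact Nv_le_nn hv

theorem lev_le_sq {N P : ℝ} (hN : 1 ≤ N) (hP : P ≤ N) : lev N P ≤ N ^ 2 := by
  refine max_le ?_ ?_
  · rw [← Real.rpow_natCast N 2]
    exact Real.rpow_le_rpow_of_exponent_le hN (by norm_num)
  · rw [sq]
    exact mul_le_mul_of_nonneg_left hP (by linarith)

/-- **few ideals divide points of small radical** -/
theorem lower_ideals (K : Type) [Field K] [NumberField K] (ε : ℝ) (hε : 0 < ε) (hε1 : ε ≤ 1) :
    ∃ D : ℝ, 0 < D ∧ ∀ X : ℝ, 1 ≤ X → ∀ G : Finset (Ideal (𝓞 K)),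
    (∀ n ∈ G, ∃ hn : n ≠ 0, ((Ideal.absNorm n : ℕ) : ℝ) ≤ X ∧ ∃ y : K, Pt y ∧
      (∀ v : Pr K, v.asIdeal ∣ n → v ∈ sp y) ∧
      nn (sp y) ≤ lev (Ideal.absNorm n : ℕ) (pm (supp n hn)) * X ^ (-ε)) →
    (G.card : ℝ) ≤ D * X ^ (1 - ε / 2) := by
  classical
  obtain ⟨η, hη⟩ : ∃ η, η = ε / 24 := ⟨_, rfl⟩
  have hη0 : 0 < η := by rw [hη]; positivity
  obtain ⟨D1, hD1, hmain⟩ := mainK K η hη0
  obtain ⟨D2, hD2, hprime⟩ := prime_allK K η hη0
  obtain ⟨D3, hD3, hide⟩ := ideals_supp K η hη0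
  obtain ⟨D4, hD4, hlog⟩ := log_pow_leK 1 hη0
  set G0 : Finset (Ideal (𝓞 K)) := (Ideal.finite_setOfPred_absNorm_le 4).toFinset with hG0
  refine ⟨G0.card + 2 * D4 * ((D1 + 2 * D2) * D3), by positivity, fun X hX G hG => ?_⟩
  have hX0 : 0 < X := by linarith
  have hXe : 1 ≤ X ^ (1 - ε / 2) := Real.one_le_rpow hX (by linarith)
  have hlogX : 0 ≤ Real.log X := Real.log_nonneg hX
  rcases lt_or_ge X 4 with hX4 | hX4
  · have h1 : G ⊆ G0 := by
      intro n hn
      rw [hG0, Set.Finite.mem_toFinset]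
      obtain ⟨_, h1, _⟩ := hG n hn
      have h2 : ((Ideal.absNorm n : ℕ) : ℝ) ≤ ((4 : ℕ) : ℝ) := by push_cast; linarith
      show Ideal.absNorm n ≤ 4
      exact_mod_cast h2
    have h2 : (G.card : ℝ) ≤ G0.card := by exact_mod_cast Finset.card_le_card h1
    have h3 : 0 ≤ 2 * D4 * ((D1 + 2 * D2) * D3) := by positivity
    calc (G.card : ℝ) ≤ G0.card := h2
      _ ≤ (G0.card + 2 * D4 * ((D1 + 2 * D2) * D3)) * 1 := by linarith
      _ ≤ _ := mul_le_mul_of_nonneg_left hXe (by positivity)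
  -- the choice of the points
  have hex : ∀ n : Ideal (𝓞 K), ∃ y : K, n ∈ G → ∃ hn : n ≠ 0,
      ((Ideal.absNorm n : ℕ) : ℝ) ≤ X ∧ Pt y ∧ (∀ v : Pr K, v.asIdeal ∣ n → v ∈ sp y) ∧
      nn (sp y) ≤ lev (Ideal.absNorm n : ℕ) (pm (supp n hn)) * X ^ (-ε) := by
    intro n
    by_cases hn : n ∈ G
    · obtain ⟨h0, h1, y, h2⟩ := hG n hn
      exact ⟨y, fun _ => ⟨h0, h1, h2⟩⟩
    · exact ⟨0, fun h => absurd h hn⟩
  choose Y hY using hex
  obtain ⟨pn, hpn⟩ : ∃ pn : Ideal (𝓞 K) → ℕ, pn = fun n => if hn : n ≠ 0 then pm (supp n hn) else 0 :=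
    ⟨_, rfl⟩
  have hpn' : ∀ n (hn : n ≠ 0), pn n = pm (supp n hn) := by
    intro n hn
    rw [hpn]
    exact dif_pos hn
  obtain ⟨J, hJ⟩ : ∃ J : ℕ, J = Nat.log 2 ⌊X⌋₊ := ⟨_, rfl⟩
  have hpX : ∀ n ∈ G, (pn n : ℝ) ≤ X := by
    intro n hn
    obtain ⟨h0, h1, _⟩ := hY n hn
    rw [hpn' n h0]
    exact (pm_le_nn _).trans ((nn_supp_le h0).trans h1)
  have hjn : ∀ n ∈ G, Nat.log 2 (pn n) ∈ Finset.range (J + 1) := by
    intro n hn
    rw [Finset.mem_range, Nat.lt_succ_iff, hJ]
    exact Nat.log_mono_right (Nat.le_floor (hpX n hn))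
  obtain ⟨Gj, hGj⟩ : ∃ Gj : ℕ → Finset (Ideal (𝓞 K)), Gj = fun j =>
      G.filter fun n => Nat.log 2 (pn n) = j := ⟨_, rfl⟩
  have hcardG : (G.card : ℝ) = ∑ j ∈ Finset.range (J + 1), ((Gj j).card : ℝ) := by
    have := Finset.card_eq_sum_card_fiberwise (f := fun n => Nat.log 2 (pn n)) (s := G)
      (t := Finset.range (J + 1)) (fun n hn => hjn n hn)
    rw [this, Nat.cast_sum, hGj]
  -- one value of `j`
  have hone : ∀ j ∈ Finset.range (J + 1), ((Gj j).card : ℝ) ≤
      (D1 + 2 * D2) * D3 * X ^ (1 - 2 / 3 * ε + 3 * η) := by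
    intro j _
    obtain ⟨F, hF⟩ : ∃ F, F = (Gj j).image Y := ⟨_, rfl⟩
    have hmem : ∀ n ∈ Gj j, n ∈ G ∧ Nat.log 2 (pn n) = j := by
      intro n hn
      rw [hGj] at hn
      exact Finset.mem_filter.1 hn
    have hlt : ∀ n ∈ Gj j, (pn n : ℝ) ≤ 2 ^ (j + 1) := by
      intro n hn
      have h1 := (hmem n hn).2
      have h2 := Nat.lt_pow_succ_log_self (b := 2) (by norm_num) (pn n)
      rw [h1] at h2
      exact_mod_cast h2.le
    obtain ⟨Z, hZ⟩ : ∃ Z, Z = lev X (2 ^ (j + 1)) * X ^ (-ε) := ⟨_, rfl⟩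
    have hnZ : ∀ n ∈ Gj j, nn (sp (Y n)) ≤ Z := by
      intro n hn
      obtain ⟨h0, h1, h2, h3, h4⟩ := hY n (hmem n hn).1
      refine h4.trans ?_
      rw [hZ]
      refine mul_le_mul_of_nonneg_right ?_ (by positivity)
      refine lev_mono (Nat.cast_nonneg _) (Nat.cast_nonneg _) h1 ?_
      rw [← hpn' n h0]
      exact hlt n hn
    have hXe' : X ^ (-ε) ≤ 1 := Real.rpow_le_one_of_one_le_of_nonpos hX (by linarith)
    have hX2 : ∀ n ∈ Gj j, nn (sp (Y n)) ≤ X ^ 2 := by
      intro n hn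
      obtain ⟨h0, h1, h2, h3, h4⟩ := hY n (hmem n hn).1
      refine h4.trans ?_
      have h5 : lev (Ideal.absNorm n : ℕ) (pm (supp n h0)) ≤ X ^ 2 := by
        refine (lev_mono (Nat.cast_nonneg _) (Nat.cast_nonneg _) h1 ?_).trans
          (lev_le_sq hX le_rfl)
        exact (pm_le_nn _).trans ((nn_supp_le h0).trans h1)
      calc lev (Ideal.absNorm n : ℕ) (pm (supp n h0)) * X ^ (-ε) ≤ X ^ 2 * 1 :=
            mul_le_mul h5 hXe' (by positivity) (by positivity)
        _ = X ^ 2 := mul_one _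
    -- the number of points
    have hFc : (F.card : ℝ) ≤ (D1 + 2 * D2) * X ^ (1 - 2 / 3 * ε + 2 * η) := by
      rcases F.eq_empty_or_nonempty with he | ⟨y0, hy0⟩
      · rw [he, Finset.card_empty, Nat.cast_zero]
        positivity
      have hZ1 : 1 ≤ Z := by
        rw [hF, Finset.mem_image] at hy0
        obtain ⟨n, hn, _⟩ := hy0
        exact (one_le_nn _).trans (hnZ n hn)
      have hFall : ∀ y ∈ F, Pt y ∧ nn (sp y) ≤ Z := by
        intro y hy
        rw [hF, Finset.mem_image] at hy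
        obtain ⟨n, hn, rfl⟩ := hy
        obtain ⟨h0, h1, h2, h3, h4⟩ := hY n (hmem n hn).1
        exact ⟨h2, hnZ n hn⟩
      have hpw : 0 < X ^ (1 - 2 / 3 * ε + 2 * η) := by positivity
      rcases le_or_gt ((2 : ℝ) ^ (j + 1)) (X ^ (1 / 2 : ℝ)) with hc | hc
      · have hZe : Z = X ^ (3 / 2 - ε) := by
          have h1 : lev X (2 ^ (j + 1)) = X ^ (3 / 2 : ℝ) := by
            refine max_eq_left ?_
            calc X * 2 ^ (j + 1) ≤ X * X ^ (1 / 2 : ℝ) := mul_le_mul_of_nonneg_left hc hX0.le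
              _ = X ^ (3 / 2 : ℝ) := by
                  rw [show (3 / 2 : ℝ) = 1 + 1 / 2 by norm_num, Real.rpow_add hX0, Real.rpow_one]
          rw [hZ, h1, ← Real.rpow_add hX0]
          congr 1
        have h1 := hmain Z hZ1 F hFall
        have h2 : Z ^ (2 / 3 + η) ≤ X ^ (1 - 2 / 3 * ε + 2 * η) := by
          rw [hZe, ← Real.rpow_mul hX0.le]
          refine Real.rpow_le_rpow_of_exponent_le hX ?_
          nlinarith
        calc (F.card : ℝ) ≤ D1 * X ^ (1 - 2 / 3 * ε + 2 * η) :=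
              h1.trans (mul_le_mul_of_nonneg_left h2 hD1.le)
          _ ≤ _ := mul_le_mul_of_nonneg_right (by linarith) hpw.le
      · have hj1 : 1 ≤ j := by
          by_contra hcon
          have hj0 : j = 0 := by omega
          rw [hj0] at hc
          have h1 : (4 : ℝ) ^ (1 / 2 : ℝ) ≤ X ^ (1 / 2 : ℝ) :=
            Real.rpow_le_rpow (by norm_num) hX4 (by norm_num)
          have h2 : (4 : ℝ) ^ (1 / 2 : ℝ) = 2 := by
            rw [show (4 : ℝ) = 2 ^ (2 : ℝ) by norm_num, ← Real.rpow_mul (by norm_num)]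
            norm_num
          rw [h2] at h1
          norm_num at hc
          linarith
        have hZe : Z = 2 ^ (j + 1) * X ^ (1 - ε) := by
          have h1 : lev X (2 ^ (j + 1)) = X * 2 ^ (j + 1) := by
            refine max_eq_right ?_
            calc X ^ (3 / 2 : ℝ) = X * X ^ (1 / 2 : ℝ) := by
                  rw [show (3 / 2 : ℝ) = 1 + 1 / 2 by norm_num, Real.rpow_add hX0, Real.rpow_one]
              _ ≤ X * 2 ^ (j + 1) := mul_le_mul_of_nonneg_left hc.le hX0.le
          rw [hZ, h1, sub_eq_add_neg, Real.rpow_add hX0, Real.rpow_one]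
          ring
        have h1 := hprime Z (2 ^ j) hZ1 (one_le_pow₀ (by norm_num)) F (by
          intro y hy
          obtain ⟨a1, a2⟩ := hFall y hy
          refine ⟨a1, a2, ?_⟩
          rw [hF, Finset.mem_image] at hy
          obtain ⟨n, hn, rfl⟩ := hy
          obtain ⟨h0, h1, h2, h3, h4⟩ := hY n (hmem n hn).1
          have h5 := (hmem n hn).2
          have h6 : pn n ≠ 0 := by
            intro h6
            rw [h6, Nat.log_zero_right] at h5
            omega
          have h7 := Nat.pow_log_le_self 2 h6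
          rw [h5] at h7
          have h8 : (supp n h0).Nonempty := by
            rw [Finset.nonempty_iff_ne_empty]
            intro h8
            apply h6
            rw [hpn' n h0, h8]
            rfl
          obtain ⟨v, hv, hv'⟩ := pm_mem h8
          refine ⟨v, h3 v (mem_supp.1 hv), ?_⟩
          rw [hv', ← hpn' n h0]
          exact_mod_cast h7)
        have hZX : Z ≤ X ^ (3 : ℝ) := by
          rw [hF, Finset.mem_image] at hy0
          obtain ⟨n, hn, _⟩ := hy0
          have h5 : (2 : ℝ) ^ (j + 1) ≤ 2 * X := by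
            have h6 := hpX n (hmem n hn).1
            have h7 := (hmem n hn).2
            have h8 : pn n ≠ 0 := by
              intro h8
              rw [h8, Nat.log_zero_right] at h7
              omega
            have h9 := Nat.pow_log_le_self 2 h8
            rw [h7] at h9
            have h10 : (2 : ℝ) ^ j ≤ pn n := by exact_mod_cast h9
            rw [pow_succ]
            linarith
          have h6 : X ^ (1 - ε) ≤ X := by
            calc X ^ (1 - ε) ≤ X ^ (1 : ℝ) := Real.rpow_le_rpow_of_exponent_le hX (by linarith)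
              _ = X := Real.rpow_one X
          rw [hZe, show (3 : ℝ) = ((3 : ℕ) : ℝ) by norm_num, Real.rpow_natCast]
          calc 2 ^ (j + 1) * X ^ (1 - ε) ≤ (2 * X) * X :=
                mul_le_mul h5 h6 (by positivity) (by positivity)
            _ ≤ (X * X) * X := by
                refine mul_le_mul_of_nonneg_right ?_ hX0.le
                exact mul_le_mul_of_nonneg_right (by linarith) hX0.le
            _ = X ^ 3 := by ring
        have h2 : Z ^ η ≤ X ^ (3 * η) := by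
          calc Z ^ η ≤ (X ^ (3 : ℝ)) ^ η := Real.rpow_le_rpow (by linarith) hZX hη0.le
            _ = X ^ (3 * η) := by rw [← Real.rpow_mul hX0.le]
        have h3 : Z / 2 ^ j = 2 * X ^ (1 - ε) := by
          rw [hZe, pow_succ]
          field_simp
        rw [h3] at h1
        calc (F.card : ℝ) ≤ D2 * Z ^ η * (2 * X ^ (1 - ε)) := h1
          _ ≤ D2 * X ^ (3 * η) * (2 * X ^ (1 - ε)) :=
              mul_le_mul_of_nonneg_right (mul_le_mul_of_nonneg_left h2 hD2.le) (by positivity)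
          _ = 2 * D2 * (X ^ (3 * η) * X ^ (1 - ε)) := by ring
          _ = 2 * D2 * X ^ (1 - ε + 3 * η) := by
              rw [← Real.rpow_add hX0]
              congr 2
              ring
          _ ≤ 2 * D2 * X ^ (1 - 2 / 3 * ε + 2 * η) := by
              refine mul_le_mul_of_nonneg_left (Real.rpow_le_rpow_of_exponent_le hX ?_)
                (by positivity)
              rw [hη]
              linarith
          _ ≤ _ := mul_le_mul_of_nonneg_right (by linarith) hpw.le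
    -- the ideals of one point
    have hfib : ((Gj j).card : ℝ) ≤ F.card * (D3 * X ^ η) := by
      have h1 := Finset.card_eq_sum_card_image Y (Gj j)
      rw [h1, Nat.cast_sum, ← hF]
      have h2 : ∀ y ∈ F, (((Gj j).filter fun n => Y n = y).card : ℝ) ≤ D3 * X ^ η := by
        intro y hy
        rw [hF, Finset.mem_image] at hy
        obtain ⟨n0, hn0, rfl⟩ := hy
        refine hide X hX (sp (Y n0)) (hX2 n0 hn0) _ ?_
        intro n hn
        obtain ⟨b1, b2⟩ := Finset.mem_filter.1 hn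
        obtain ⟨h0, h1, h2, h3, h4⟩ := hY n (hmem n b1).1
        exact ⟨h0, h1, fun v hv => by rw [← b2]; exact h3 v hv⟩
      refine (Finset.sum_le_sum h2).trans ?_
      rw [Finset.sum_const, nsmul_eq_mul]
    calc ((Gj j).card : ℝ) ≤ F.card * (D3 * X ^ η) := hfib
      _ ≤ (D1 + 2 * D2) * X ^ (1 - 2 / 3 * ε + 2 * η) * (D3 * X ^ η) :=
          mul_le_mul_of_nonneg_right hFc (by positivity)
      _ = (D1 + 2 * D2) * D3 * (X ^ (1 - 2 / 3 * ε + 2 * η) * X ^ η) := by ring
      _ = _ := by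
          rw [← Real.rpow_add hX0]
          congr 2
          ring
  have hJ1 : ((J + 1 : ℕ) : ℝ) ≤ 2 * D4 * X ^ η := by
    have h1 : (2 : ℝ) ^ J ≤ X := by
      have h2 : 2 ^ J ≤ ⌊X⌋₊ := by
        rw [hJ]
        refine Nat.pow_log_le_self 2 ?_
        have : 1 ≤ ⌊X⌋₊ := Nat.le_floor (by exact_mod_cast hX)
        omega
      calc (2 : ℝ) ^ J ≤ (⌊X⌋₊ : ℝ) := by exact_mod_cast h2
        _ ≤ X := Nat.floor_le hX0.le
    have h2 := Real.log_le_log (by positivity) h1
    rw [Real.log_pow] at h2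
    have h3 := Real.log_two_gt_d9
    have h4 : (J : ℝ) ≤ 2 * Real.log X := by
      have h5 : (0 : ℝ) ≤ J := Nat.cast_nonneg _
      nlinarith
    have h5 := hlog X hX
    rw [pow_one] at h5
    push_cast
    nlinarith
  rw [hcardG]
  refine (Finset.sum_le_sum hone).trans ?_
  rw [Finset.sum_const, Finset.card_range, nsmul_eq_mul]
  calc ((J + 1 : ℕ) : ℝ) * ((D1 + 2 * D2) * D3 * X ^ (1 - 2 / 3 * ε + 3 * η)) ≤
      2 * D4 * X ^ η * ((D1 + 2 * D2) * D3 * X ^ (1 - 2 / 3 * ε + 3 * η)) :=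
        mul_le_mul_of_nonneg_right hJ1 (by positivity)
    _ = 2 * D4 * ((D1 + 2 * D2) * D3) * (X ^ η * X ^ (1 - 2 / 3 * ε + 3 * η)) := by ring
    _ = 2 * D4 * ((D1 + 2 * D2) * D3) * X ^ (1 - 2 / 3 * ε + 4 * η) := by
        rw [← Real.rpow_add hX0]
        congr 2
        ring
    _ = 2 * D4 * ((D1 + 2 * D2) * D3) * X ^ (1 - ε / 2) := by
        rw [hη]
        congr 2
        ring
    _ ≤ _ := by
        refine mul_le_mul_of_nonneg_right ?_ (by positivity)
        have : (0 : ℝ) ≤ G0.card := Nat.cast_nonneg _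
        linarith

end Pool.Agent.T6.H44.DIV
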