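import Pool.Agent.T6.H44.DIV.Sel
import Pool.Agent.T6.H44.DIV.Lower

/-!
A point of small radical with prescribed primes.
-/

set_option autoImplicit false

namespace Pool.Agent.T6.H44.DIV

open Finset NumberField IsDedekindDomain Pool.Agent.H691R3 Pool.Agent.TH876.Loc

variable {K : Type} [Field K] [NumberField K]

theorem prod_place_div (x : K) (β : ℝ) :
    ∏ w : InfinitePlace K, (w x / β) ^ w.mult =
      (∏ w : InfinitePlace K, w x ^ w.mult) / β ^ Module.finrank ℚ K := by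
  rw [← prod_pow_mult (K := K) β, ← Finset.prod_div_distrib]
  exact Finset.prod_congr rfl fun w _ => div_pow _ _ _

theorem Hw_nonneg {α β : ℝ} (hα : 0 < α) (g : 𝓞 K × 𝓞 K) : 0 ≤ Hw α β g :=
  Finset.prod_nonneg fun w _ => pow_nonneg
    ((div_nonneg (apply_nonneg w _) hα.le).trans (le_max_left _ _)) _

theorem norm_fst_le {α β : ℝ} (hα : 0 < α) (g : 𝓞 K × 𝓞 K) :
    ∏ w : InfinitePlace K, w (g.1 : K) ^ w.mult ≤ α ^ Module.finrank ℚ K * Hw α β g := by
  have h : (∏ w : InfinitePlace K, w (g.1 : K) ^ w.mult) / α ^ Module.finrank ℚ K ≤ Hw α β g := by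
    rw [← prod_place_div]
    refine Finset.prod_le_prod (fun w _ => pow_nonneg (div_nonneg (apply_nonneg w _) hα.le) _)
      fun w _ => ?_
    exact pow_le_pow_left₀ (div_nonneg (apply_nonneg w _) hα.le) (le_max_left _ _) _
  rw [div_le_iff₀ (pow_pos hα _)] at h
  linarith

theorem norm_snd_le {α β : ℝ} (hα : 0 < α) (hβ : 0 < β) (g : 𝓞 K × 𝓞 K) :
    ∏ w : InfinitePlace K, w (g.2 : K) ^ w.mult ≤ β ^ Module.finrank ℚ K * Hw α β g := by
  have h : (∏ w : InfinitePlace K, w (g.2 : K) ^ w.mult) / β ^ Module.finrank ℚ K ≤ Hw α β g := by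
    rw [← prod_place_div]
    refine Finset.prod_le_prod (fun w _ => pow_nonneg (div_nonneg (apply_nonneg w _) hβ.le) _)
      fun w _ => ?_
    exact pow_le_pow_left₀ (div_nonneg (apply_nonneg w _) hβ.le) (le_max_right _ _) _
  rw [div_le_iff₀ (pow_pos hβ _)] at h
  linarith

theorem norm_add_le' {α β : ℝ} (hα : 0 < α) (hβ : 0 < β) (hαβ : α ≤ β) (g : 𝓞 K × 𝓞 K) :
    ∏ w : InfinitePlace K, w ((g.1 + g.2 : 𝓞 K) : K) ^ w.mult ≤
      2 ^ Module.finrank ℚ K * β ^ Module.finrank ℚ K * Hw α β g := by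
  have h : (∏ w : InfinitePlace K, w ((g.1 + g.2 : 𝓞 K) : K) ^ w.mult) /
      (2 * β) ^ Module.finrank ℚ K ≤ Hw α β g := by
    rw [← prod_place_div]
    refine Finset.prod_le_prod (fun w _ => pow_nonneg (div_nonneg (apply_nonneg w _)
      (by positivity)) _) fun w _ => ?_
    refine pow_le_pow_left₀ (div_nonneg (apply_nonneg w _) (by positivity)) ?_ _
    rw [div_le_iff₀ (by positivity)]
    have e : ((g.1 + g.2 : 𝓞 K) : K) = (g.1 : K) + g.2 := map_add _ _ _
    rw [e]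
    refine (place_add_le w _ _).trans ?_
    have h1 : w (g.1 : K) ≤ max (w (g.1 : K) / α) (w (g.2 : K) / β) * β := by
      calc w (g.1 : K) = w (g.1 : K) / α * α := by field_simp
        _ ≤ max (w (g.1 : K) / α) (w (g.2 : K) / β) * β :=
            mul_le_mul (le_max_left _ _) hαβ hα.le
              ((div_nonneg (apply_nonneg w _) hα.le).trans (le_max_left _ _))
    have h2 : w (g.2 : K) ≤ max (w (g.1 : K) / α) (w (g.2 : K) / β) * β := by
      calc w (g.2 : K) = w (g.2 : K) / β * β := by field_simp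
        _ ≤ max (w (g.1 : K) / α) (w (g.2 : K) / β) * β :=
            mul_le_mul_of_nonneg_right (le_max_right _ _) hβ.le
    linarith
  rw [div_le_iff₀ (by positivity), mul_pow] at h
  linarith

/-- the norm of the product of the coordinates -/
theorem norm_abc_le {α β : ℝ} (hα : 0 < α) (hβ : 0 < β) (hαβ : α ≤ β) (g : 𝓞 K × 𝓞 K) :
    ∏ w : InfinitePlace K, w ((g.1 * g.2 * (g.1 + g.2) : 𝓞 K) : K) ^ w.mult ≤
      2 ^ Module.finrank ℚ K * α ^ Module.finrank ℚ K * (β ^ Module.finrank ℚ K) ^ 2 *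
        Hw α β g ^ 3 := by
  have e : ∀ w : InfinitePlace K, w ((g.1 * g.2 * (g.1 + g.2) : 𝓞 K) : K) ^ w.mult =
      w (g.1 : K) ^ w.mult * w (g.2 : K) ^ w.mult * w ((g.1 + g.2 : 𝓞 K) : K) ^ w.mult := by
    intro w
    have e1 : ((g.1 * g.2 * (g.1 + g.2) : 𝓞 K) : K) = (g.1 : K) * g.2 * ((g.1 + g.2 : 𝓞 K) : K) := by
      show algebraMap (𝓞 K) K _ = _
      rw [map_mul, map_mul]
    rw [e1, map_mul, map_mul, mul_pow, mul_pow]
  rw [Finset.prod_congr rfl fun w _ => e w, Finset.prod_mul_distrib, Finset.prod_mul_distrib]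
  have h1 := norm_fst_le (β := β) hα g
  have h2 := norm_snd_le hα hβ g
  have h3 := norm_add_le' hα hβ hαβ g
  have hH := Hw_nonneg (β := β) hα g
  have p1 : 0 ≤ ∏ w : InfinitePlace K, w (g.1 : K) ^ w.mult :=
    Finset.prod_nonneg fun w _ => pow_nonneg (apply_nonneg w _) _
  have p2 : 0 ≤ ∏ w : InfinitePlace K, w (g.2 : K) ^ w.mult :=
    Finset.prod_nonneg fun w _ => pow_nonneg (apply_nonneg w _) _
  have p3 : 0 ≤ ∏ w : InfinitePlace K, w ((g.1 + g.2 : 𝓞 K) : K) ^ w.mult :=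
    Finset.prod_nonneg fun w _ => pow_nonneg (apply_nonneg w _) _
  calc _ ≤ (α ^ Module.finrank ℚ K * Hw α β g) * (β ^ Module.finrank ℚ K * Hw α β g) *
        (2 ^ Module.finrank ℚ K * β ^ Module.finrank ℚ K * Hw α β g) :=
        mul_le_mul (mul_le_mul h1 h2 p2 (by positivity)) h3 p3 (by positivity)
    _ = _ := by ring

theorem Hw_le_one {α β : ℝ} (hα : 0 < α) (hβ : 0 < β) {g : 𝓞 K × 𝓞 K} (hg : InB α β g) :
    Hw α β g ≤ 1 := by
  refine Finset.prod_le_one (fun w _ => pow_nonneg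
    ((div_nonneg (apply_nonneg w _) hα.le).trans (le_max_left _ _)) _) fun w _ => ?_
  refine pow_le_one₀ ((div_nonneg (apply_nonneg w _) hα.le).trans (le_max_left _ _)) ?_
  exact max_le ((div_le_one hα).2 (hg w).1) ((div_le_one hβ).2 (hg w).2)

theorem nm_union [DecidableEq (Pr K)] {m : Pr K → ℕ} {S T : Finset (Pr K)} (h : Disjoint S T) :
    nm m (S ∪ T) = nm m S * nm m T := by
  unfold nm
  rw [Finset.prod_union h]

/-- the lower bound for the weighted height -/
theorem Hw_ge {α β h₀ : ℝ} (hα : 0 < α) (hαβ : α ≤ β) (hh : 0 < h₀) {m : Pr K → ℕ}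
    {S S1 S2 S3 : Finset (Pr K)} [DecidableEq (Pr K)] (h12 : Disjoint S1 S2)
    (h13 : Disjoint S1 S3) (h23 : Disjoint S2 S3) (hS : ∀ v ∈ S, v ∈ S1 ∨ v ∈ S2 ∨ v ∈ S3)
    (c1 : h₀ * β ^ Module.finrank ℚ K ≤ nm m S2 * nm m S3)
    (c2 : h₀ * α ^ Module.finrank ℚ K ≤ nm m S1 * nm m S3)
    (c3 : h₀ * α ^ Module.finrank ℚ K ≤ nm m S1 * nm m S2)
    (c4 : ∀ y : K, Pt y → h₀ ^ 3 * (2 ^ Module.finrank ℚ K * α ^ Module.finrank ℚ K *
      (β ^ Module.finrank ℚ K) ^ 2) ≤ nn (sp y) * nm m (S \ sp y) ^ 3)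
    (g : 𝓞 K × 𝓞 K) (hg0 : g ≠ 0) (hg : InL (tri m S1 S2 S3) g) : h₀ ≤ Hw α β g := by
  have hβ : 0 < β := by linarith
  have hαd : 0 < α ^ Module.finrank ℚ K := by positivity
  have hβd : 0 < β ^ Module.finrank ℚ K := by positivity
  rw [InL_tri] at hg
  obtain ⟨g1, g2, g3⟩ := hg
  by_cases hz1 : g.1 = 0
  · have hz2 : g.2 ≠ 0 := fun h => hg0 (Prod.ext hz1 h)
    have h1 : g.2 ∈ pr m (S2 ∪ S3) := by
      rw [mem_pr]
      intro v hv
      rcases Finset.mem_union.1 hv with h | h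
      · exact g2 v h
      · have := g3 v h
        rwa [hz1, zero_add] at this
    have h2 := norm_ge hz2 h1
    rw [absNorm_pr] at h2
    have h3 : nm m (S2 ∪ S3) ≤ ∏ w : InfinitePlace K, w (g.2 : K) ^ w.mult := h2
    rw [nm_union h23] at h3
    have h4 := norm_snd_le hα hβ g
    have h5 : β ^ Module.finrank ℚ K * h₀ ≤ β ^ Module.finrank ℚ K * Hw α β g := by linarith
    exact le_of_mul_le_mul_left h5 hβd
  by_cases hz2 : g.2 = 0
  · have h1 : g.1 ∈ pr m (S1 ∪ S3) := by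
      rw [mem_pr]
      intro v hv
      rcases Finset.mem_union.1 hv with h | h
      · exact g1 v h
      · have := g3 v h
        rwa [hz2, add_zero] at this
    have h2 := norm_ge hz1 h1
    rw [absNorm_pr] at h2
    have h3 : nm m (S1 ∪ S3) ≤ ∏ w : InfinitePlace K, w (g.1 : K) ^ w.mult := h2
    rw [nm_union h13] at h3
    have h4 := norm_fst_le (β := β) hα g
    have h5 : α ^ Module.finrank ℚ K * h₀ ≤ α ^ Module.finrank ℚ K * Hw α β g := by linarith
    exact le_of_mul_le_mul_left h5 hαd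
  by_cases hz3 : g.1 + g.2 = 0
  · have e : g.2 = -g.1 := by linear_combination hz3
    have h1 : g.1 ∈ pr m (S1 ∪ S2) := by
      rw [mem_pr]
      intro v hv
      rcases Finset.mem_union.1 hv with h | h
      · exact g1 v h
      · have := g2 v h
        rw [e, Ideal.neg_mem_iff] at this
        exact this
    have h2 := norm_ge hz1 h1
    rw [absNorm_pr] at h2
    have h3 : nm m (S1 ∪ S2) ≤ ∏ w : InfinitePlace K, w (g.1 : K) ^ w.mult := h2
    rw [nm_union h12] at h3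
    have h4 := norm_fst_le (β := β) hα g
    have h5 : α ^ Module.finrank ℚ K * h₀ ≤ α ^ Module.finrank ℚ K * Hw α β g := by linarith
    exact le_of_mul_le_mul_left h5 hαd
  · have hnz : Nz g := ⟨hz1, hz2, hz3⟩
    have h1 := norm_sp hnz m S (by
      intro v hv _
      rcases hS v hv with h | h | h
      · exact Or.inl (g1 v h)
      · exact Or.inr (Or.inl (g2 v h))
      · exact Or.inr (Or.inr (g3 v h)))
    have h2 := norm_abc_le hα hβ hαβ g
    have h3 := c4 (pt g) hnz.pt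
    have h3' : nn (sp (pt g)) * nm m (S \ sp (pt g)) ^ 3 ≤
        ∏ w : InfinitePlace K, w ((g.1 * g.2 * (g.1 + g.2) : 𝓞 K) : K) ^ w.mult := h1
    have hQ : 0 < 2 ^ Module.finrank ℚ K * α ^ Module.finrank ℚ K *
      (β ^ Module.finrank ℚ K) ^ 2 := by positivity
    have h4 : h₀ ^ 3 ≤ Hw α β g ^ 3 := by
      have h5 : h₀ ^ 3 * (2 ^ Module.finrank ℚ K * α ^ Module.finrank ℚ K *
          (β ^ Module.finrank ℚ K) ^ 2) ≤ Hw α β g ^ 3 * (2 ^ Module.finrank ℚ K *
          α ^ Module.finrank ℚ K * (β ^ Module.finrank ℚ K) ^ 2) := by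
        linarith
      exact le_of_mul_le_mul_right h5 hQ
    by_contra hcon
    push Not at hcon
    have := pow_lt_pow_left₀ hcon (Hw_nonneg hα g) (n := 3) (by norm_num)
    linarith

/-- exponents -/
theorem exists_exp (Y : ℝ) (hY : 1 ≤ Y) : ∃ m : Pr K → ℕ, ∀ v : Pr K, 1 ≤ m v ∧
    Y ≤ Nv v ^ m v ∧ Nv v ^ m v ≤ Y * Nv v := by
  classical
  have hex : ∀ v : Pr K, ∃ n : ℕ, 1 ≤ n ∧ Y ≤ Nv v ^ n := by
    intro v
    obtain ⟨n, hn⟩ := pow_unbounded_of_one_lt Y (show 1 < Nv v by linarith [two_le_Nv v])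
    exact ⟨n + 1, by omega, hn.le.trans (pow_le_pow_right₀ (one_le_Nv v) (by omega))⟩
  refine ⟨fun v => Nat.find (hex v), fun v => ?_⟩
  obtain ⟨h1, h2⟩ := Nat.find_spec (hex v)
  refine ⟨h1, h2, ?_⟩
  show Nv v ^ Nat.find (hex v) ≤ Y * Nv v
  rcases Nat.eq_or_lt_of_le h1 with h | h
  · rw [← h, pow_one]
    exact le_mul_of_one_le_left (Nv_pos v).le hY
  · have h3 := Nat.find_min (hex v) (m := Nat.find (hex v) - 1) (by omega)
    rw [not_and, not_le] at h3
    have h4 := h3 (by omega)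
    have h5 : Nv v ^ Nat.find (hex v) = Nv v ^ (Nat.find (hex v) - 1) * Nv v := by
      rw [← pow_succ]
      congr 1
      omega
    rw [h5]
    exact mul_le_mul_of_nonneg_right h4.le (Nv_pos v).le

theorem nn_le_nm {m : Pr K → ℕ} (hm : ∀ v, 1 ≤ m v) (S : Finset (Pr K)) : nn S ≤ nm m S := by
  unfold nn nm
  refine Finset.prod_le_prod (fun v _ => (Nv_pos v).le) fun v _ => ?_
  calc Nv v = Nv v ^ 1 := (pow_one _).symm
    _ ≤ Nv v ^ m v := pow_le_pow_right₀ (one_le_Nv v) (hm v)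

theorem nm_le {m : Pr K → ℕ} {Y : ℝ} (hm : ∀ v, Nv v ^ m v ≤ Y * Nv v)
    (S : Finset (Pr K)) : nm m S ≤ Y ^ S.card * nn S := by
  unfold nn nm
  rw [← Finset.prod_const, ← Finset.prod_mul_distrib]
  exact Finset.prod_le_prod (fun v _ => pow_nonneg (Nv_pos v).le _) fun v _ => hm v

/-- splitting a set of primes -/
theorem split_sets [DecidableEq (Pr K)] (S : Finset (Pr K)) {Q : ℝ} (hQ : 1 ≤ Q)
    (hS : nn S ≤ Q ^ 2) (hv : ∀ v ∈ S, Nv v ≤ Q) :
    ∃ S1 S2 S3 : Finset (Pr K), Disjoint S1 S2 ∧ Disjoint S1 S3 ∧ Disjoint S2 S3 ∧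
      S = S1 ∪ S2 ∪ S3 ∧ nn S1 ≤ Q ∧ nn S2 ≤ Q ∧ nn S3 ≤ Q := by
  have hne : (S.powerset.filter fun T => nn T ≤ Q).Nonempty :=
    ⟨∅, Finset.mem_filter.2 ⟨Finset.empty_mem_powerset _, by simpa [nn] using hQ⟩⟩
  obtain ⟨T, hT, hmax⟩ := Finset.exists_max_image _ Finset.card hne
  obtain ⟨hTS, hTQ⟩ := Finset.mem_filter.1 hT
  rw [Finset.mem_powerset] at hTS
  by_cases heq : T = S
  · refine ⟨T, ∅, ∅, Finset.disjoint_empty_right _, Finset.disjoint_empty_right _,
      Finset.disjoint_empty_right _, by simp [heq], hTQ, ?_, ?_⟩ <;> simpa [nn] using hQ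
  · obtain ⟨v, hvS, hvT⟩ := Finset.exists_of_ssubset (lt_of_le_of_ne hTS heq)
    have hvT1 : Disjoint T {v} := Finset.disjoint_singleton_right.2 hvT
    have h1 : Q < nn (insert v T) := by
      by_contra hcon
      push Not at hcon
      have := hmax (insert v T) (Finset.mem_filter.2 ⟨Finset.mem_powerset.2
        (Finset.insert_subset hvS hTS), hcon⟩)
      rw [Finset.card_insert_of_notMem hvT] at this
      omega
    have hsub : insert v T ⊆ S := Finset.insert_subset hvS hTS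
    have h2 : nn S = nn (insert v T) * nn (S \ insert v T) := by
      unfold nn
      rw [mul_comm]
      exact (Finset.prod_sdiff hsub).symm
    refine ⟨T, {v}, S \ insert v T, hvT1, ?_, ?_, ?_, hTQ, ?_, ?_⟩
    · rw [Finset.disjoint_left]
      intro u hu hu'
      exact (Finset.mem_sdiff.1 hu').2 (Finset.mem_insert_of_mem hu)
    · rw [Finset.disjoint_left]
      intro u hu hu'
      rw [Finset.mem_singleton] at hu
      exact (Finset.mem_sdiff.1 hu').2 (by rw [hu]; exact Finset.mem_insert_self _ _)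
    · ext u
      rw [Finset.mem_union, Finset.mem_union, Finset.mem_sdiff, Finset.mem_insert,
        Finset.mem_singleton]
      constructor
      · intro hu
        by_cases h3 : u = v
        · exact Or.inl (Or.inr h3)
        by_cases h4 : u ∈ T
        · exact Or.inl (Or.inl h4)
        · exact Or.inr ⟨hu, by rw [not_or]; exact ⟨h3, h4⟩⟩
      · rintro ((h3 | h3) | h3)
        · exact hTS h3
        · rw [h3]; exact hvS
        · exact h3.1
    · have : nn ({v} : Finset (Pr K)) = Nv v := by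
        unfold nn
        rw [Finset.prod_singleton]
      rw [this]
      exact hv v hvS
    · have h3 : 0 < nn (S \ insert v T) := nn_pos _
      by_contra hcon
      push Not at hcon
      have h4 : Q * Q < nn (insert v T) * nn (S \ insert v T) :=
        mul_lt_mul'' h1 hcon (by linarith) (by linarith)
      rw [← h2] at h4
      nlinarith

/-- the splitting with the sizes of the box -/
theorem sizes [DecidableEq (Pr K)] (S : Finset (Pr K)) :
    ∃ S1 S2 S3 : Finset (Pr K), Disjoint S1 S2 ∧ Disjoint S1 S3 ∧ Disjoint S2 S3 ∧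
      S = S1 ∪ S2 ∪ S3 ∧ ∃ A B : ℝ, 1 ≤ A ∧ A ≤ B ∧ A * B = nn S ∧
      A * B ^ 2 ≤ lev (nn S) (pm S) ∧ lev (nn S) (pm S) ≤ A * B ^ 2 ∧
      B * nn S1 ≤ nn S ∧ A * nn S2 ≤ nn S ∧ A * nn S3 ≤ nn S := by
  obtain ⟨N, hN⟩ : ∃ N, N = nn S := ⟨_, rfl⟩
  have hN1 : 1 ≤ N := by rw [hN]; exact one_le_nn S
  have hN0 : 0 < N := by linarith
  obtain ⟨Q, hQ⟩ : ∃ Q : ℝ, Q = N ^ (1 / 2 : ℝ) := ⟨_, rfl⟩
  have hQ1 : 1 ≤ Q := by rw [hQ]; exact Real.one_le_rpow hN1 (by norm_num)
  have hQ2 : Q * Q = N := by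
    rw [hQ, ← Real.rpow_add hN0]
    norm_num
  have hQ3 : N ^ (3 / 2 : ℝ) = N * Q := by
    rw [hQ, show (3 / 2 : ℝ) = 1 + 1 / 2 by norm_num, Real.rpow_add hN0, Real.rpow_one]
  rw [← hN]
  rcases le_or_gt (pm S : ℝ) Q with hc | hc
  · obtain ⟨S1, S2, S3, h12, h13, h23, hS, n1, n2, n3⟩ := split_sets S hQ1
      (by rw [← hN, sq, hQ2]) (fun v hv => (le_pm hv).trans hc)
    have hlev : lev N (pm S) = N * Q := by
      unfold lev
      rw [hQ3]
      exact max_eq_left (mul_le_mul_of_nonneg_left hc hN0.le)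
    have e : Q * Q ^ 2 = N * Q := by rw [← hQ2]; ring
    refine ⟨S1, S2, S3, h12, h13, h23, hS, Q, Q, hQ1, le_rfl, hQ2, ?_, ?_, ?_, ?_, ?_⟩
    · rw [hlev, e]
    · rw [hlev, e]
    · rw [← hQ2]; exact mul_le_mul_of_nonneg_left n1 (by linarith)
    · rw [← hQ2]; exact mul_le_mul_of_nonneg_left n2 (by linarith)
    · rw [← hQ2]; exact mul_le_mul_of_nonneg_left n3 (by linarith)
  · have hne : S.Nonempty := by
      rw [Finset.nonempty_iff_ne_empty]
      intro h
      rw [h] at hc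
      have : pm (∅ : Finset (Pr K)) = 0 := rfl
      rw [this, Nat.cast_zero] at hc
      linarith
    obtain ⟨v, hv, hvp⟩ := pm_mem hne
    obtain ⟨P, hP⟩ : ∃ P : ℝ, P = pm S := ⟨_, rfl⟩
    rw [← hP] at hc hvp ⊢
    have hP0 : 0 < P := by linarith
    have hPN : P ≤ N := by rw [hP, hN]; exact pm_le_nn S
    have h1 : nn (S.erase v) = N / P := by
      rw [eq_div_iff hP0.ne', ← hvp, hN]
      exact nn_erase hv
    have h2 : nn ({v} : Finset (Pr K)) = P := by
      unfold nn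
      rw [Finset.prod_singleton, hvp]
    have h3 : nn (∅ : Finset (Pr K)) = 1 := by simp [nn]
    have hNP : N ≤ P * P := by
      rw [← hQ2]
      exact mul_le_mul hc.le hc.le (by linarith) hP0.le
    have hlev : lev N P = N * P := by
      unfold lev
      rw [hQ3]
      exact max_eq_right (mul_le_mul_of_nonneg_left hc.le hN0.le)
    have e : N / P * P ^ 2 = N * P := by field_simp
    refine ⟨∅, S.erase v, {v}, Finset.disjoint_empty_left _, Finset.disjoint_empty_left _, ?_, ?_,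
      N / P, P, (one_le_div hP0).2 hPN, ?_, ?_, ?_, ?_, ?_, ?_, ?_⟩
    · rw [Finset.disjoint_singleton_right]
      exact Finset.notMem_erase _ _
    · ext u
      simp only [Finset.mem_union, Finset.mem_erase, Finset.mem_singleton, Finset.notMem_empty,
        false_or]
      constructor
      · intro hu
        by_cases h : u = v
        · exact Or.inr h
        · exact Or.inl ⟨h, hu⟩
      · rintro (h | h)
        · exact h.2
        · rw [h]; exact hv
    · rw [div_le_iff₀ hP0]; exact hNP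
    · field_simp
    · rw [hlev, e]
    · rw [hlev, e]
    · rw [h3, mul_one]; exact hPN
    · rw [h1, div_mul_div_comm, div_le_iff₀ (by positivity)]
      exact mul_le_mul_of_nonneg_left hNP hN0.le
    · rw [h2]
      exact le_of_eq (by field_simp)

end Pool.Agent.T6.H44.DIV
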