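import Pool.Agent.Y728.MainK

/-!
Points of `a + b + c = 0` over a number field: the counting lemmas for a general bound `M` for the
norm of the chosen set of primes.
-/

set_option autoImplicit false

namespace Pool.Agent.T6.H44.DIV

open Finset NumberField IsDedekindDomain Pool.Agent.H691R3 Pool.Agent.TH876.Loc
open Pool.Agent.TH876.KR (InP aw log_Nv_pos' log_nn side mem_side df_eq_zero Light Sc rho rho_gt
  scales small_total fiber_small all_heights choice rr_sum' side_sub sum_sets wt pi_sum_le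
  pair_count rpow_le_exp rr FiberSmall)
open Pool.Agent.Y728

/-- the number of sets of primes -/
theorem card_setsM (K : Type) [Field K] [NumberField K] {k : ℕ} (hk : 1 ≤ k) :
    ∃ X0 : ℝ, 16 ≤ X0 ∧ ∀ X : ℝ, X0 ≤ X → ∀ M : ℝ, 1 ≤ M → M ≤ X →
      ∀ U : Finset (Finset (Pr K)), (∀ S ∈ U, nn S ≤ M) → (U.card : ℝ) ≤ M * X ^ (1 / (k : ℝ)) := by
  classical
  have hk0 : (0 : ℝ) < k := by exact_mod_cast hk
  have h1k : 0 < 1 / (k : ℝ) := by positivity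
  obtain ⟨X0, hX0, h⟩ := Pool.Agent.Y96.sum_bigK K 1 (1 / (k : ℝ)) le_rfl h1k
  refine ⟨X0, hX0, fun X hX M hM1 hMX U hU => ?_⟩
  have hX16 : 16 ≤ X := hX0.trans hX
  have h1 := h X hX _ hM1 hMX U hU
  have hlog : 1 ≤ Real.log X := by
    have := Pool.Agent.TH876.Loc.log_facts hX16
    have := Real.exp_one_gt_d9
    linarith
  have h2 : (U.card : ℝ) ≤ ∑ S ∈ U, (1 * Real.log X) ^ S.card := by
    have h3 : ∑ S ∈ U, (1 : ℝ) ≤ ∑ S ∈ U, (1 * Real.log X) ^ S.card :=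
      Finset.sum_le_sum fun S _ => one_le_pow₀ (by linarith)
    rw [Finset.sum_const, nsmul_eq_mul, mul_one] at h3
    exact h3
  exact h2.trans h1

/-- large heights -/
theorem high_genK {K : Type} [Field K] [NumberField K] {h r : ℕ} {Cc : ℝ} {ε : Fin r → 𝓞 K}
    {g : Pr K → 𝓞 K} (G : GD K h r Cc ε g) {k : ℕ} (hk : 1 ≤ k) (κh : ℕ) (hfam : FamL K k κh) :
    ∃ C : ℝ, 1 ≤ C ∧ ∃ D : ℝ, 0 < D ∧ ∃ X0 : ℝ, 16 ≤ X0 ∧
    ∀ X : ℝ, X0 ≤ X → ∀ M : ℝ, 1 ≤ M → M ≤ X →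
    ∀ F : Finset K, (∀ x ∈ F, Pt x ∧ hgt x ≤ Real.exp (Real.log X ^ κh) ∧
      ∃ (S : Finset (Pr K)) (A B E : Fin 3) (p : Pr K), nn S ≤ M ∧
        A ≠ B ∧ B ≠ E ∧ A ≠ E ∧ InP k S A B E x p ∧ Nv p ≤ X ∧
        (C * Real.log X) ^ S.card * X ^ (1 / (k : ℝ)) < hgt x) →
    (F.card : ℝ) ≤ D * M * X ^ (4 / (k : ℝ)) := by
  classical
  have hk0 : (0 : ℝ) < k := by exact_mod_cast hk
  have h1k : 0 < 1 / (k : ℝ) := by positivity
  obtain ⟨C, hC, Xf, hXf, hfew⟩ := few_primesK G hk h1k κh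
  obtain ⟨D, hD, Xg, hXg, hF'⟩ := hfam
  obtain ⟨Xs, hXs, hsets⟩ := card_setsM K hk
  obtain ⟨Q, hQ⟩ : ∃ Q : ℝ, Q = (2 * k) ^ (2 * (k : ℝ)) := ⟨_, rfl⟩
  refine ⟨C, hC, D, hD, max (max Xf Xg) (max Xs Q), hXf.trans ((le_max_left _ _).trans (le_max_left _ _)),
    fun X hX M hM1 hMX F hF => ?_⟩
  have e1 : Xf ≤ X := ((le_max_left _ _).trans (le_max_left _ _)).trans hX
  have e2 : Xg ≤ X := ((le_max_right _ _).trans (le_max_left _ _)).trans hX
  have e3 : Xs ≤ X := ((le_max_left _ _).trans (le_max_right _ _)).trans hX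
  have e4 : Q ≤ X := ((le_max_right _ _).trans (le_max_right _ _)).trans hX
  have hX16 : 16 ≤ X := hXf.trans e1
  have hX1 : 1 ≤ X := by linarith
  have hXpos : 0 < X := by linarith
  have hM0 : 0 < M := by linarith
  have hlog : 1 ≤ Real.log X := by
    have := Pool.Agent.TH876.Loc.log_facts hX16
    have := Real.exp_one_gt_d9
    linarith
  -- `log X ≤ X ^ (1/k)`
  have hlogX : Real.log X ≤ X ^ (1 / (k : ℝ)) := by
    have h1 : Real.log X ≤ X ^ (1 / (2 * (k : ℝ))) / (1 / (2 * (k : ℝ))) :=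
      Real.log_le_rpow_div hXpos.le (by positivity)
    have h2 : X ^ (1 / (2 * (k : ℝ))) / (1 / (2 * (k : ℝ))) = 2 * k * X ^ (1 / (2 * (k : ℝ))) := by
      field_simp
    have h3 : 2 * (k : ℝ) ≤ X ^ (1 / (2 * (k : ℝ))) := by
      have h4 : Q ^ (1 / (2 * (k : ℝ))) ≤ X ^ (1 / (2 * (k : ℝ))) :=
        Real.rpow_le_rpow (by rw [hQ]; positivity) e4 (by positivity)
      have h5 : Q ^ (1 / (2 * (k : ℝ))) = 2 * k := by
        rw [hQ, ← Real.rpow_mul (by positivity)]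
        have : 2 * (k : ℝ) * (1 / (2 * (k : ℝ))) = 1 := by field_simp
        rw [this, Real.rpow_one]
      linarith
    have h6 : X ^ (1 / (k : ℝ)) = X ^ (1 / (2 * (k : ℝ))) * X ^ (1 / (2 * (k : ℝ))) := by
      rw [← Real.rpow_add hXpos]
      congr 1
      field_simp
      norm_num
    rw [h6]
    rw [h2] at h1
    exact h1.trans (mul_le_mul_of_nonneg_right h3 (by positivity))
  rcases F.eq_empty_or_nonempty with hFe | ⟨x0, hx0⟩
  · rw [hFe, Finset.card_empty, Nat.cast_zero]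
    positivity
  obtain ⟨_, _, _, _, _, _, p0, _⟩ := hF x0 hx0
  have hexF : ∀ x : K, ∃ (S : Finset (Pr K)) (A B E : Fin 3) (p : Pr K), x ∈ F →
      nn S ≤ M ∧
        A ≠ B ∧ B ≠ E ∧ A ≠ E ∧ InP k S A B E x p ∧ Nv p ≤ X ∧
        (C * Real.log X) ^ S.card * X ^ (1 / (k : ℝ)) < hgt x := by
    intro x
    by_cases hx : x ∈ F
    · obtain ⟨_, _, S, A, B, E, p, hh⟩ := hF x hx
      exact ⟨S, A, B, E, p, fun _ => hh⟩
    · exact ⟨∅, 0, 0, 0, p0, fun h => absurd h hx⟩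
  choose Sx Ax Bx Ex px hx using hexF
  obtain ⟨U, hU⟩ : ∃ U, U = F.image Sx := ⟨_, rfl⟩
  obtain ⟨R, hR⟩ : ∃ R : Finset (Pr K) → Finset (Pr K), R = fun S =>
    (F.filter fun x => Sx x = S).image px := ⟨_, rfl⟩
  obtain ⟨W, hW⟩ : ∃ W, W = F.image fun x => insert (px x) (Sx x) := ⟨_, rfl⟩
  have hUc : (U.card : ℝ) ≤ M * X ^ (1 / (k : ℝ)) := by
    refine hsets X e3 M hM1 hMX U fun S hS => ?_
    rw [hU, Finset.mem_image] at hS
    obtain ⟨x, hxF, rfl⟩ := hS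
    exact (hx x hxF).1
  have hRc : ∀ S ∈ U, ((R S).card : ℝ) ≤ X ^ (1 / (k : ℝ)) := by
    intro S hS
    refine hfew X e1 S (R S) ?_ ?_ ?_
    · rw [hU, Finset.mem_image] at hS
      obtain ⟨x, hxF, rfl⟩ := hS
      exact (hx x hxF).1.trans hMX
    · intro p hp
      rw [hR, Finset.mem_image] at hp
      obtain ⟨x, hx1, rfl⟩ := hp
      obtain ⟨hxF, rfl⟩ := Finset.mem_filter.1 hx1
      obtain ⟨a1, a2, a3, a4, a5, a6, a7⟩ := hx x hxF
      exact ⟨a5.pS, a6⟩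
    · intro p hp
      rw [hR, Finset.mem_image] at hp
      obtain ⟨x, hx1, rfl⟩ := hp
      obtain ⟨hxF, rfl⟩ := Finset.mem_filter.1 hx1
      obtain ⟨a1, a2, a3, a4, a5, a6, a7⟩ := hx x hxF
      exact ⟨Ax x, Bx x, Ex x, x, a2, a3, a4, (hF x hxF).1, a5, a7, (hF x hxF).2.1⟩
  have hWc : (W.card : ℝ) ≤ M * X ^ (2 / (k : ℝ)) := by
    have h1 : W ⊆ U.biUnion fun S => (R S).image fun p => insert p S := by
      intro T hT
      rw [hW, Finset.mem_image] at hT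
      obtain ⟨x, hxF, rfl⟩ := hT
      rw [Finset.mem_biUnion]
      refine ⟨Sx x, by rw [hU]; exact Finset.mem_image_of_mem _ hxF, ?_⟩
      rw [Finset.mem_image]
      refine ⟨px x, ?_, rfl⟩
      rw [hR, Finset.mem_image]
      exact ⟨x, Finset.mem_filter.2 ⟨hxF, rfl⟩, rfl⟩
    have h2 : W.card ≤ ∑ S ∈ U, (R S).card := by
      refine (Finset.card_le_card h1).trans (Finset.card_biUnion_le.trans ?_)
      exact Finset.sum_le_sum fun S _ => Finset.card_image_le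
    have h3 : (W.card : ℝ) ≤ ∑ S ∈ U, ((R S).card : ℝ) := by exact_mod_cast h2
    refine h3.trans ((Finset.sum_le_sum hRc).trans ?_)
    rw [Finset.sum_const, nsmul_eq_mul]
    refine (mul_le_mul_of_nonneg_right hUc (by positivity)).trans (le_of_eq ?_)
    rw [mul_assoc, ← Real.rpow_add hXpos]
    congr 2
    ring
  have hmain := hF' X e2 W (by
      intro T hT
      rw [hW, Finset.mem_image] at hT
      obtain ⟨x, hxF, rfl⟩ := hT
      obtain ⟨a1, a2, a3, a4, a5, a6, a7⟩ := hx x hxF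
      rw [Pool.Agent.Y728.nn_insert a5.pS, sq]
      exact mul_le_mul a6 (a1.trans hMX) (nn_pos _).le hXpos.le) F (by
      intro x hxF
      obtain ⟨a1, a2, a3, a4, a5, a6, a7⟩ := hx x hxF
      obtain ⟨b1, b2, _⟩ := hF x hxF
      refine ⟨b1, ?_, b2, insert (px x) (Sx x), ?_, InP_light b1 a2 a3 a4 a5⟩
      · have h1 : 1 ≤ (C * Real.log X) ^ (Sx x).card := one_le_pow₀ (by nlinarith)
        have h2 : 0 ≤ X ^ (1 / (k : ℝ)) := by positivity
        nlinarith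
      · rw [hW]
        exact Finset.mem_image_of_mem _ hxF)
  refine hmain.trans ?_
  calc D * W.card * X ^ (2 / (k : ℝ)) ≤ D * (M * X ^ (2 / (k : ℝ))) * X ^ (2 / (k : ℝ)) :=
        mul_le_mul_of_nonneg_right (mul_le_mul_of_nonneg_left hWc hD.le) (by positivity)
    _ = D * M * (X ^ (2 / (k : ℝ)) * X ^ (2 / (k : ℝ))) := by ring
    _ = D * M * X ^ (4 / (k : ℝ)) := by
        rw [← Real.rpow_add hXpos]
        congr 2
        ring

/-- one scale, small heights -/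
theorem low_genK (K : Type) [Field K] [NumberField K] {k : ℕ} (hk : 3 ≤ k) {C η : ℝ}
    (hC : 1 ≤ C) (hη : 0 < η) : ∃ D : ℝ, 0 < D ∧ ∃ X0 : ℝ, 16 ≤ X0 ∧ ∀ X : ℝ, X0 ≤ X →
    ∀ M : ℝ, 1 ≤ M → M * X ^ (2 / (k : ℝ)) ≤ X →
    ∀ l : ℝ, Real.log X ^ (2 + η) ≤ l → ∀ F : Finset K, (∀ x ∈ F, Pt x ∧ Sc k l x ∧
      ∃ (S : Finset (Pr K)) (A B E : Fin 3) (p : Pr K), nn S ≤ M ∧
        A ≠ B ∧ B ≠ E ∧ A ≠ E ∧ InP k S A B E x p ∧ Nv p ≤ X ∧
        l ≤ (C * Real.log X) ^ S.card * X ^ (1 / (k : ℝ))) →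
    (F.card : ℝ) ≤ D * M * X ^ (3 / (k : ℝ)) := by
  classical
  have hk0 : (0 : ℝ) < k := by positivity
  have h1k : 0 < 1 / (k : ℝ) := by positivity
  obtain ⟨C2, hC2⟩ : ∃ C2 : ℝ, C2 = C * 2 ^ (99 * k) := ⟨_, rfl⟩
  have h2k : (1 : ℝ) ≤ 2 ^ (99 * k) := one_le_pow₀ (by norm_num)
  have hC2C : C ≤ C2 := by
    rw [hC2]
    exact le_mul_of_one_le_right (by linarith) h2k
  have hC21 : 1 ≤ C2 := hC.trans hC2C
  obtain ⟨Xs, hXs1, hsum⟩ := Pool.Agent.Y96.sum_bigK K C2 (1 / (k : ℝ)) hC21 h1k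
  obtain ⟨D1, hD1, L0, hL0, hlow⟩ := Pool.Agent.Y515.low_scaleK K (k := k) hk hη
  obtain ⟨hfinU, -⟩ := sum_sets K 1 le_rfl 1 one_pos
  refine ⟨D1, hD1, max Xs (Real.exp L0), hXs1.trans (le_max_left _ _),
    fun X hX M hM1 hM2 l hl F hF => ?_⟩
  have hXs : Xs ≤ X := (le_max_left _ _).trans hX
  have hXL : Real.exp L0 ≤ X := (le_max_right _ _).trans hX
  have hX16 : 16 ≤ X := hXs1.trans hXs
  have hX1 : 1 ≤ X := by linarith
  have hX0 : 0 < X := by linarith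
  have hM0 : 0 < M := by linarith
  obtain ⟨L, hL⟩ : ∃ L, L = Real.log X := ⟨_, rfl⟩
  have hLL : L0 ≤ L := by rw [hL, Real.le_log_iff_exp_le hX0]; exact hXL
  have hL3 : 3 ≤ L := hL0.trans hLL
  have hMX : M ≤ X := by
    refine le_trans ?_ hM2
    exact le_mul_of_one_le_right hM0.le (Real.one_le_rpow hX1 (by positivity))
  set U := (hfinU M).toFinset with hU
  have hUm : ∀ S : Finset (Pr K), S ∈ U ↔ nn S ≤ M := by
    intro S
    rw [hU, Set.Finite.mem_toFinset]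
    rfl
  have hsumM := hsum X hXs M hM1 hMX U (fun S hS => (hUm S).1 hS)
  rw [← hL] at hl hsumM hF
  -- a single term
  have hterm : ∀ S ∈ U, (C * L) ^ S.card * X ^ (1 / (k : ℝ)) ≤ X := by
    intro S hS
    have e1 : (C * L) ^ S.card ≤ (C2 * L) ^ S.card :=
      pow_le_pow_left₀ (by positivity) (mul_le_mul_of_nonneg_right hC2C (by linarith)) _
    have e2 : (C2 * L) ^ S.card ≤ ∑ S ∈ U, (C2 * L) ^ S.card :=
      Finset.single_le_sum (f := fun S : Finset (Pr K) => (C2 * L) ^ S.card)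
        (fun _ _ => by positivity) hS
    calc (C * L) ^ S.card * X ^ (1 / (k : ℝ)) ≤
        M * X ^ (1 / (k : ℝ)) * X ^ (1 / (k : ℝ)) :=
          mul_le_mul_of_nonneg_right (e1.trans (e2.trans hsumM)) (by positivity)
      _ = M * X ^ (2 / (k : ℝ)) := by
          rw [mul_assoc, ← Real.rpow_add hX0]
          congr 2
          ring
      _ ≤ X := hM2
  obtain ⟨Fm, hFm⟩ : ∃ Fm : Finset (Pr K) → Finset K, Fm = fun S => F.filter fun x =>
      (∃ (A B E : Fin 3) (p : Pr K), A ≠ B ∧ B ≠ E ∧ A ≠ E ∧ InP k S A B E x p ∧ Nv p ≤ X) ∧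
      l ≤ (C * L) ^ S.card * X ^ (1 / (k : ℝ)) := ⟨_, rfl⟩
  have hsub : F ⊆ U.biUnion Fm := by
    intro x hx
    obtain ⟨a1, a2, S, A, B, E, p, hSM, hAB, hBE, hAE, hP, hpX, hlS⟩ := hF x hx
    rw [mem_biUnion]
    refine ⟨S, (hUm S).2 hSM, ?_⟩
    rw [hFm, mem_filter]
    exact ⟨hx, ⟨A, B, E, p, hAB, hBE, hAE, hP, hpX⟩, hlS⟩
  have hFmc : ∀ S ∈ U, ((Fm S).card : ℝ) ≤
      D1 * X ^ (1 / (k : ℝ)) * X ^ (1 / (k : ℝ)) * (C2 * L) ^ S.card := by
    intro S hS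
    rcases (Fm S).eq_empty_or_nonempty with he | ⟨t0, ht0⟩
    · rw [he, Finset.card_empty, Nat.cast_zero]
      positivity
    · have hSM := (hUm S).1 hS
      have hlthr : l ≤ (C * L) ^ S.card * X ^ (1 / (k : ℝ)) := by
        rw [hFm, mem_filter] at ht0
        exact ht0.2.2
      have h1 := hlow X hX1 (by rw [← hL]; exact hLL) l (by rw [← hL]; exact hl)
        (hlthr.trans (hterm S hS)) S (hSM.trans hMX) (Fm S) (by
          intro t ht
          rw [hFm, mem_filter] at ht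
          obtain ⟨b1, b2, -⟩ := ht
          exact ⟨(hF t b1).1, (hF t b1).2.1, b2⟩)
      refine h1.trans ?_
      calc D1 * X ^ (1 / (k : ℝ)) * l * ((2 : ℝ) ^ (99 * k)) ^ S.card ≤
          D1 * X ^ (1 / (k : ℝ)) * ((C * L) ^ S.card * X ^ (1 / (k : ℝ))) *
            ((2 : ℝ) ^ (99 * k)) ^ S.card :=
            mul_le_mul_of_nonneg_right (mul_le_mul_of_nonneg_left hlthr (by positivity))
              (by positivity)
        _ = D1 * X ^ (1 / (k : ℝ)) * X ^ (1 / (k : ℝ)) * ((C * L) ^ S.card *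
            ((2 : ℝ) ^ (99 * k)) ^ S.card) := by ring
        _ = D1 * X ^ (1 / (k : ℝ)) * X ^ (1 / (k : ℝ)) * (C2 * L) ^ S.card := by
            rw [← mul_pow, hC2]
            congr 2
            ring
  have h3 : (F.card : ℝ) ≤ ∑ S ∈ U, ((Fm S).card : ℝ) := by
    have := (Finset.card_le_card hsub).trans Finset.card_biUnion_le
    exact_mod_cast this
  refine (h3.trans (Finset.sum_le_sum hFmc)).trans ?_
  rw [← Finset.mul_sum]
  calc D1 * X ^ (1 / (k : ℝ)) * X ^ (1 / (k : ℝ)) * ∑ S ∈ U, (C2 * L) ^ S.card ≤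
      D1 * X ^ (1 / (k : ℝ)) * X ^ (1 / (k : ℝ)) * (M * X ^ (1 / (k : ℝ))) :=
        mul_le_mul_of_nonneg_left hsumM (by positivity)
    _ = D1 * M * (X ^ (1 / (k : ℝ)) * X ^ (1 / (k : ℝ)) * X ^ (1 / (k : ℝ))) := by ring
    _ = D1 * M * X ^ (3 / (k : ℝ)) := by
        rw [← Real.rpow_add hX0, ← Real.rpow_add hX0]
        congr 2
        ring

/-- **points of small height, two sides with a small radical** -/
theorem small_genK (K : Type) [Field K] [NumberField K] (ε : ℝ) (hε : 0 < ε) :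
    ∃ η : ℝ, 0 < η ∧ ∃ L1 : ℝ, 1 ≤ L1 ∧ ∃ C : ℝ, 0 < C ∧
    ∀ X : ℝ, 1 ≤ X → L1 ≤ Real.log X → ∀ Λ : ℝ, 0 ≤ Λ → Λ ≤ Real.log X → ∀ F : Finset K,
      (∀ x ∈ F, Pt x ∧ (∃ i j : Fin 3, i ≠ j ∧ rr i x + rr j x ≤ Λ) ∧
        hgt x ≤ Real.log X ^ (2 + η)) →
      (F.card : ℝ) ≤ C * X ^ ε * Real.exp Λ := by
  classical
  obtain ⟨C0, hC0, hfib⟩ := fiber_small K
  obtain ⟨θ, hθ⟩ : ∃ θ : ℝ, θ = ε / 2 := ⟨_, rfl⟩
  have hθ0 : 0 < θ := by rw [hθ]; positivity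
  obtain ⟨β, hβ⟩ : ∃ β : ℝ, β = 1 / (1 + θ / 2) := ⟨_, rfl⟩
  have hβ0 : 0 < β := by rw [hβ]; positivity
  have hβ1 : β ≤ 1 := by
    rw [hβ, div_le_one (by positivity)]; linarith
  have haβ : 1 < (1 + θ) * β := by
    rw [hβ, mul_one_div, lt_div_iff₀ (by positivity)]; linarith
  obtain ⟨η, hη⟩ : ∃ η : ℝ, η = θ / 4 := ⟨_, rfl⟩
  have hη0 : 0 < η := by rw [hη]; positivity
  have hγ : (1 + η) * β < 1 := by
    rw [hβ, mul_one_div, div_lt_one (by positivity), hη]; linarith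
  obtain ⟨Z, hZ⟩ : ∃ Z : ℝ, Z = (Module.finrank ℚ K : ℝ) *
    ∑' n : ℕ, ((n : ℝ) ^ ((1 + θ) * β))⁻¹ := ⟨_, rfl⟩
  have hZ0 : 0 ≤ Z := by
    rw [hZ]; exact mul_nonneg (Nat.cast_nonneg _) (tsum_nonneg fun n => by positivity)
  -- the threshold for `L`
  obtain ⟨W, hW⟩ : ∃ W : ℝ, W = (32 / ε) ^ β * Z / β * (16 / ε) := ⟨_, rfl⟩
  have hW0 : 0 ≤ W := by rw [hW]; positivity
  obtain ⟨γ, hγd⟩ : ∃ γ : ℝ, γ = 1 - (1 + η) * β := ⟨_, rfl⟩
  have hγ0 : 0 < γ := by rw [hγd]; linarith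
  obtain ⟨D, hD0, hD⟩ := rpow_le_exp (c := (2 + η) * C0) (δ := ε / 4) (by positivity)
    (by positivity)
  refine ⟨η, hη0, max 1 (W ^ (1 / γ)), le_max_left _ _, 9 * (C0 * D), by positivity,
    fun X hX hL Λ hΛ0 hΛL F hF => ?_⟩
  obtain ⟨L, hLd⟩ : ∃ L, L = Real.log X := ⟨_, rfl⟩
  rw [← hLd] at hL hF hΛL
  have hL1 : 1 ≤ L := (le_max_left _ _).trans hL
  have hL0 : 0 < L := by linarith
  have hX0 : 0 < X := by linarith
  have hWL : W ≤ L ^ γ := by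
    have h1 : (W ^ (1 / γ)) ^ γ ≤ L ^ γ :=
      Real.rpow_le_rpow (by positivity) ((le_max_right _ _).trans hL) hγ0.le
    rwa [← Real.rpow_mul hW0, one_div_mul_cancel hγ0.ne', Real.rpow_one] at h1
  obtain ⟨σ, hσ⟩ : ∃ σ : ℝ, σ = ε / 16 * L ^ (-(1 + η)) := ⟨_, rfl⟩
  have hσ0 : 0 < σ := by rw [hσ]; positivity
  obtain ⟨B, hB⟩ : ∃ B : ℝ, B = L ^ (2 + η) := ⟨_, rfl⟩
  have hB1 : 1 ≤ B := by
    rw [hB]; exact Real.one_le_rpow hL1 (by linarith)
  have hσB : σ * B = ε / 16 * L := by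
    rw [hσ, hB, mul_assoc, ← Real.rpow_add hL0]
    have : -(1 + η) + (2 + η) = 1 := by ring
    rw [this, Real.rpow_one]
  have h4 : (2 / σ) ^ β * Z / β ≤ ε / 16 * L := by
    have e1 : 2 / σ = 32 / ε * L ^ (1 + η) := by
      rw [hσ, Real.rpow_neg hL0.le]
      field_simp
      norm_num
    rw [e1, Real.mul_rpow (by positivity) (by positivity), ← Real.rpow_mul hL0.le]
    have e2 : L = L ^ ((1 + η) * β) * L ^ γ := by
      rw [← Real.rpow_add hL0, hγd]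
      have : (1 + η) * β + (1 - (1 + η) * β) = 1 := by ring
      rw [this, Real.rpow_one]
    have e3 : (32 / ε) ^ β * L ^ ((1 + η) * β) * Z / β =
        ε / 16 * (L ^ ((1 + η) * β) * W) := by
      rw [hW]
      field_simp
    rw [e3]
    conv_rhs => rw [e2]
    refine mul_le_mul_of_nonneg_left ?_ (by positivity)
    exact mul_le_mul_of_nonneg_left hWL (by positivity)
  have hV : ∀ P : Finset (Pr K), ∑ f ∈ Fintype.piFinset (fun _ : P => range (⌊2 * B⌋₊ + 1)),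
      ∏ v : P, wt σ (1 + θ) v.1 (f v) ≤ Real.exp (ε / 16 * L) := by
    intro P
    refine (pi_sum_le hσ0 hβ0 hβ1 haβ P _).trans (Real.exp_le_exp.2 ?_)
    rw [← hZ]
    exact h4
  have hBC : B ^ C0 ≤ D * Real.exp (ε / 4 * L) := by
    rw [hB, ← Real.rpow_mul hL0.le]
    exact hD L hL1
  have hpair : ∀ i j : Fin 3, i ≠ j →
      ((F.filter fun x => rr i x + rr j x ≤ Λ).card : ℝ) ≤ C0 * D * (X ^ ε * Real.exp Λ) := by
    intro i j hij
    have h1 := pair_count (a := 1 + θ) (L := 3 / 2 * Λ) (by positivity) hσ0.le hC0 hB1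
      (fun F h1 h2 => hfib B hB1 i j hij F h1 h2) hV
      (F.filter fun x => rr i x + rr j x ≤ Λ) (fun x hx => by
        obtain ⟨b1, b2⟩ := Finset.mem_filter.1 hx
        obtain ⟨c1, _, c3⟩ := hF x b1
        refine ⟨c1, ?_, by linarith⟩
        rw [hB]
        exact c3)
    refine h1.trans ?_
    have h5 : Real.exp (2 / 3 * (1 + θ) * (3 / 2 * Λ) + 2 * σ * B) * Real.exp (ε / 16 * L) ^ 2 =
        Real.exp ((1 + θ) * Λ + ε / 4 * L) := by
      rw [← Real.exp_nat_mul, ← Real.exp_add]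
      congr 1
      push_cast
      linear_combination 2 * hσB
    rw [h5]
    calc C0 * B ^ C0 * Real.exp ((1 + θ) * Λ + ε / 4 * L) ≤
        C0 * (D * Real.exp (ε / 4 * L)) * Real.exp ((1 + θ) * Λ + ε / 4 * L) := by
          refine mul_le_mul_of_nonneg_right ?_ (Real.exp_pos _).le
          exact mul_le_mul_of_nonneg_left hBC (by linarith)
      _ = C0 * D * Real.exp (ε / 4 * L + ((1 + θ) * Λ + ε / 4 * L)) := by
          rw [Real.exp_add (ε / 4 * L)]; ring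
      _ ≤ C0 * D * Real.exp (L * ε + Λ) := by
          refine mul_le_mul_of_nonneg_left (Real.exp_le_exp.2 ?_) (by positivity)
          rw [hθ]
          nlinarith
      _ = C0 * D * (X ^ ε * Real.exp Λ) := by rw [Real.rpow_def_of_pos hX0, hLd, Real.exp_add]
  obtain ⟨I, hI⟩ : ∃ I : Finset (Fin 3 × Fin 3), I = Finset.univ := ⟨_, rfl⟩
  have hcover : F ⊆ I.biUnion fun s => if s.1 = s.2 then ∅ else
      F.filter fun x => rr s.1 x + rr s.2 x ≤ Λ := by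
    intro x hx
    obtain ⟨c1, ⟨i, j, hij, c2⟩, _⟩ := hF x hx
    rw [Finset.mem_biUnion]
    refine ⟨(i, j), by rw [hI]; exact Finset.mem_univ _, ?_⟩
    rw [if_neg hij]
    exact Finset.mem_filter.2 ⟨hx, c2⟩
  have h1 := (Finset.card_le_card hcover).trans Finset.card_biUnion_le
  have h2 : (F.card : ℝ) ≤ ∑ s ∈ I, ((if s.1 = s.2 then ∅ else
      F.filter fun x => rr s.1 x + rr s.2 x ≤ Λ : Finset K).card : ℝ) := by exact_mod_cast h1
  have h3 : ∀ s ∈ I, ((if s.1 = s.2 then ∅ else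
      F.filter fun x => rr s.1 x + rr s.2 x ≤ Λ : Finset K).card : ℝ) ≤
      C0 * D * (X ^ ε * Real.exp Λ) := by
    intro s _
    split_ifs with hs
    · rw [Finset.card_empty, Nat.cast_zero]
      positivity
    · exact hpair s.1 s.2 hs
  refine (h2.trans (Finset.sum_le_sum h3)).trans (le_of_eq ?_)
  rw [Finset.sum_const, hI, Finset.card_univ, nsmul_eq_mul, Fintype.card_prod, Fintype.card_fin]
  push_cast
  ring

end Pool.Agent.T6.H44.DIV
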