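import Pool.Agent.T6.H44.DIV.Box

/-!
Lattices of pairs of integers of a number field.
-/

set_option autoImplicit false

namespace Pool.Agent.T6.H44.DIV

open Finset NumberField

variable {K : Type} [Field K] [NumberField K]

theorem one_le_prod_place {a : 𝓞 K} (ha : a ≠ 0) :
    1 ≤ ∏ w : InfinitePlace K, w (a : K) ^ w.mult := by
  rw [InfinitePlace.prod_eq_abs_norm]
  have h1 : Algebra.norm ℤ a ≠ 0 := Algebra.norm_ne_zero_iff.2 ha
  have h2 : (Algebra.norm ℚ (a : K)) = ((Algebra.norm ℤ a : ℤ) : ℚ) :=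
    (Algebra.coe_norm_int a).symm
  rw [h2]
  have h3 : (1 : ℤ) ≤ |Algebra.norm ℤ a| := Int.one_le_abs h1
  exact_mod_cast h3

variable (K) in
/-- few integers in a box -/
theorem few_integers : ∃ C : ℝ, 0 < C ∧ ∀ ρ : ℝ, 1 ≤ ρ → ∀ B : Finset (𝓞 K),
    (∀ a ∈ B, ∀ w : InfinitePlace K, w (a : K) ≤ ρ) →
    (B.card : ℝ) ≤ C * ρ ^ Module.finrank ℚ K := by
  classical
  obtain ⟨C, hC, h⟩ := line_count K
  refine ⟨2 * C, by positivity, fun ρ hρ B hB => ?_⟩
  have hρ0 : 0 < ρ := by linarith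
  have hinj : Function.Injective (fun a : 𝓞 K => (a : K)) := RingOfIntegers.coe_injective
  have h1 := h (B.image fun a : 𝓞 K => (a : K)) (fun _ => ρ) (fun _ => hρ0) (by
    intro t ht w
    obtain ⟨a, ha, rfl⟩ := Finset.mem_image.1 ht
    exact hB a ha w) 1 one_pos (by
    intro t ht t' ht' hne
    obtain ⟨a, ha, rfl⟩ := Finset.mem_image.1 ht
    obtain ⟨a', ha', rfl⟩ := Finset.mem_image.1 ht'
    have h2 : a - a' ≠ 0 := by
      intro h2
      apply hne
      rw [sub_eq_zero.1 h2]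
    have h3 := one_le_prod_place h2
    simpa using h3)
  rw [Finset.card_image_of_injective _ hinj, prod_pow_mult, div_one] at h1
  have h2 : 1 ≤ ρ ^ Module.finrank ℚ K := one_le_pow₀ hρ
  calc (B.card : ℝ) ≤ C * (1 + ρ ^ Module.finrank ℚ K) := h1
    _ ≤ C * (2 * ρ ^ Module.finrank ℚ K) := mul_le_mul_of_nonneg_left (by linarith) hC.le
    _ = _ := by ring

/-- the divisibility conditions -/
def InL (I : Fin 3 → Ideal (𝓞 K)) (g : 𝓞 K × 𝓞 K) : Prop :=
  g.1 ∈ I 0 ∧ g.2 ∈ I 1 ∧ g.1 + g.2 ∈ I 2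

/-- the box -/
def InB (α β : ℝ) (g : 𝓞 K × 𝓞 K) : Prop :=
  ∀ w : InfinitePlace K, w (g.1 : K) ≤ α ∧ w (g.2 : K) ≤ β

/-- the product of the norms -/
noncomputable def NI (I : Fin 3 → Ideal (𝓞 K)) : ℝ :=
  (Ideal.absNorm (I 0) : ℝ) * Ideal.absNorm (I 1) * Ideal.absNorm (I 2)

/-- the classes -/
noncomputable def cls (I : Fin 3 → Ideal (𝓞 K)) (g : 𝓞 K × 𝓞 K) :
    (𝓞 K ⧸ I 0) × (𝓞 K ⧸ I 1) × (𝓞 K ⧸ I 2) :=
  (Ideal.Quotient.mk (I 0) g.1, Ideal.Quotient.mk (I 1) g.2, Ideal.Quotient.mk (I 2) (g.1 + g.2))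

theorem cls_eq_iff (I : Fin 3 → Ideal (𝓞 K)) (g g' : 𝓞 K × 𝓞 K) :
    cls I g = cls I g' ↔ InL I (g - g') := by
  unfold cls InL
  rw [Prod.mk.injEq, Prod.mk.injEq, Ideal.Quotient.eq, Ideal.Quotient.eq, Ideal.Quotient.eq]
  have : (g - g').1 + (g - g').2 = g.1 + g.2 - (g'.1 + g'.2) := by
    rw [Prod.fst_sub, Prod.snd_sub]
    ring
  rw [this, Prod.fst_sub, Prod.snd_sub]

theorem card_classes {I : Fin 3 → Ideal (𝓞 K)} (hI : ∀ i, I i ≠ ⊥) :
    ∃ _ : Fintype ((𝓞 K ⧸ I 0) × (𝓞 K ⧸ I 1) × (𝓞 K ⧸ I 2)),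
      (Fintype.card ((𝓞 K ⧸ I 0) × (𝓞 K ⧸ I 1) × (𝓞 K ⧸ I 2)) : ℝ) = NI I := by
  classical
  have : ∀ i, Finite (𝓞 K ⧸ I i) := fun i => Ideal.finiteQuotientOfFreeOfNeBot (I i) (hI i)
  have : ∀ i, Fintype (𝓞 K ⧸ I i) := fun i => Fintype.ofFinite _
  refine ⟨inferInstance, ?_⟩
  rw [Fintype.card_prod, Fintype.card_prod]
  have h : ∀ i, Fintype.card (𝓞 K ⧸ I i) = Ideal.absNorm (I i) := by
    intro i
    rw [Ideal.absNorm_apply, Submodule.cardQuot_apply, Nat.card_eq_fintype_card]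
  rw [h, h, h, NI]
  push_cast
  ring

variable (K) in
/-- many vectors of a lattice in a box -/
theorem many_vectors : ∃ c : ℝ, 0 < c ∧ ∀ α β : ℝ, 1 ≤ α → 1 ≤ β →
    ∀ I : Fin 3 → Ideal (𝓞 K), (∀ i, I i ≠ ⊥) → ∃ G : Finset (𝓞 K × 𝓞 K),
    (∀ g ∈ G, InL I g ∧ InB (2 * α) (2 * β) g) ∧
    c * (α ^ Module.finrank ℚ K * β ^ Module.finrank ℚ K) ≤ G.card * NI I := by
  classical
  obtain ⟨c, hc, h⟩ := many_integers K
  refine ⟨c * c, by positivity, fun α β hα hβ I hI => ?_⟩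
  obtain ⟨B1, hB1, c1⟩ := h α hα
  obtain ⟨B2, hB2, c2⟩ := h β hβ
  obtain ⟨_, hcard⟩ := card_classes hI
  have hα0 : 0 < α := by linarith
  have hβ0 : 0 < β := by linarith
  have hP : c * c * (α ^ Module.finrank ℚ K * β ^ Module.finrank ℚ K) ≤ ((B1 ×ˢ B2).card : ℝ) := by
    rw [Finset.card_product]
    push_cast
    calc c * c * (α ^ Module.finrank ℚ K * β ^ Module.finrank ℚ K) =
        (c * α ^ Module.finrank ℚ K) * (c * β ^ Module.finrank ℚ K) := by ring
      _ ≤ _ := mul_le_mul c1 c2 (by positivity) (Nat.cast_nonneg _)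
  obtain ⟨q, -, hq⟩ := Finset.exists_max_image
    (Finset.univ : Finset ((𝓞 K ⧸ I 0) × (𝓞 K ⧸ I 1) × (𝓞 K ⧸ I 2)))
    (fun q => ((B1 ×ˢ B2).filter fun g => cls I g = q).card) ⟨cls I 0, Finset.mem_univ _⟩
  obtain ⟨Fq, hFq⟩ : ∃ Fq, Fq = (B1 ×ˢ B2).filter fun g => cls I g = q := ⟨_, rfl⟩
  have hsum : ((B1 ×ˢ B2).card : ℝ) ≤ Fq.card * NI I := by
    have h1 := Finset.card_eq_sum_card_fiberwise (f := cls I) (s := B1 ×ˢ B2)
      (t := Finset.univ) (fun g _ => Finset.mem_univ _)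
    rw [h1, Nat.cast_sum]
    have h2 : ∀ q' ∈ (Finset.univ : Finset ((𝓞 K ⧸ I 0) × (𝓞 K ⧸ I 1) × (𝓞 K ⧸ I 2))),
        ((((B1 ×ˢ B2).filter fun g => cls I g = q').card : ℕ) : ℝ) ≤ (Fq.card : ℝ) := by
      intro q' hq'
      rw [hFq]
      exact_mod_cast hq q' hq'
    refine (Finset.sum_le_sum h2).trans (le_of_eq ?_)
    rw [Finset.sum_const, Finset.card_univ, nsmul_eq_mul, hcard, mul_comm]
  have hpos : 0 < c * c * (α ^ Module.finrank ℚ K * β ^ Module.finrank ℚ K) := by positivity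
  have hne : Fq.Nonempty := by
    rw [Finset.nonempty_iff_ne_empty]
    intro he
    rw [he, Finset.card_empty, Nat.cast_zero, zero_mul] at hsum
    linarith
  obtain ⟨g0, hg0⟩ := hne
  have hmem : ∀ g ∈ Fq, g ∈ B1 ×ˢ B2 ∧ cls I g = q := by
    intro g hg
    rw [hFq] at hg
    exact Finset.mem_filter.1 hg
  refine ⟨Fq.image fun g => g - g0, ?_, ?_⟩
  · intro g' hg'
    obtain ⟨g, hg, rfl⟩ := Finset.mem_image.1 hg'
    obtain ⟨a1, a2⟩ := hmem g hg
    obtain ⟨b1, b2⟩ := hmem g0 hg0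
    refine ⟨(cls_eq_iff I g g0).1 (a2.trans b2.symm), fun w => ?_⟩
    rw [Finset.mem_product] at a1 b1
    have key : ∀ x y : 𝓞 K, ∀ r : ℝ, w (x : K) ≤ r → w (y : K) ≤ r →
        w ((x - y : 𝓞 K) : K) ≤ 2 * r := by
      intro x y r hx hy
      have e : ((x - y : 𝓞 K) : K) = (x : K) - y := map_sub _ _ _
      rw [e, ← w.norm_embedding_eq, map_sub]
      refine (norm_sub_le _ _).trans ?_
      rw [w.norm_embedding_eq, w.norm_embedding_eq]
      linarith
    exact ⟨key _ _ _ (hB1 _ a1.1 w) (hB1 _ b1.1 w), key _ _ _ (hB2 _ a1.2 w) (hB2 _ b1.2 w)⟩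
  · rw [Finset.card_image_of_injective _ (sub_left_injective)]
    exact hP.trans hsum

theorem place_add_le (w : InfinitePlace K) (x y : K) : w (x + y) ≤ w x + w y := by
  rw [← w.norm_embedding_eq, map_add]
  refine (norm_add_le _ _).trans ?_
  rw [w.norm_embedding_eq, w.norm_embedding_eq]

variable (K) in
/-- few vectors of a lattice in a box which contains two independent vectors -/
theorem two_dim : ∃ C : ℝ, 0 < C ∧ ∀ α β : ℝ, 1 ≤ α → 1 ≤ β →
    ∀ I : Fin 3 → Ideal (𝓞 K), (∀ i, I i ≠ ⊥) → Function.Surjective (cls I) →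
    ∀ u u' : 𝓞 K × 𝓞 K, InL I u → InB α β u → InL I u' → InB α β u' →
    u.1 * u'.2 ≠ u.2 * u'.1 → ∀ G : Finset (𝓞 K × 𝓞 K), (∀ g ∈ G, InL I g ∧ InB α β g) →
    (G.card : ℝ) * NI I ≤ C * (α ^ Module.finrank ℚ K * β ^ Module.finrank ℚ K) := by
  classical
  obtain ⟨C, hC, h⟩ := few_integers K
  have hC1 := one_le_C0 (K := K)
  obtain ⟨κ, hκ⟩ : ∃ κ, κ = 2 * C0 K + 1 := ⟨_, rfl⟩
  have hκ1 : 1 ≤ κ := by rw [hκ]; linarith
  refine ⟨(C * κ ^ Module.finrank ℚ K) * (C * κ ^ Module.finrank ℚ K), by positivity,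
    fun α β hα hβ I hI hsurj u u' hu hub hu' hub' hdet G hG => ?_⟩
  obtain ⟨_, hcard⟩ := card_classes hI
  have hα0 : 0 < α := by linarith
  have hβ0 : 0 < β := by linarith
  -- small representatives
  have hrep : ∀ q : (𝓞 K ⧸ I 0) × (𝓞 K ⧸ I 1) × (𝓞 K ⧸ I 2), ∃ z : 𝓞 K × 𝓞 K, cls I z = q ∧
      InB (2 * C0 K * α) (2 * C0 K * β) z := by
    intro q
    obtain ⟨z, hz⟩ := hsurj q
    obtain ⟨D, hD⟩ : ∃ D : K, D = (u.1 : K) * u'.2 - u.2 * u'.1 := ⟨_, rfl⟩
    have hD0 : D ≠ 0 := by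
      rw [hD]
      intro h0
      apply hdet
      have h1 : ((u.1 * u'.2 : 𝓞 K) : K) = ((u.2 * u'.1 : 𝓞 K) : K) := by
        push_cast
        exact sub_eq_zero.1 h0
      exact_mod_cast h1
    obtain ⟨s, hs⟩ : ∃ s : K, s = ((z.1 : K) * u'.2 - z.2 * u'.1) / D := ⟨_, rfl⟩
    obtain ⟨t, ht⟩ : ∃ t : K, t = ((u.1 : K) * z.2 - u.2 * z.1) / D := ⟨_, rfl⟩
    have hz1 : (z.1 : K) = s * u.1 + t * u'.1 := by
      rw [hs, ht]
      field_simp
      rw [hD]
      ring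
    have hz2 : (z.2 : K) = s * u.2 + t * u'.2 := by
      rw [hs, ht]
      field_simp
      rw [hD]
      ring
    obtain ⟨σ, hσ⟩ := approx s
    obtain ⟨τ, hτ⟩ := approx t
    have hin : InL I (σ • u + τ • u') := by
      obtain ⟨p1, p2, p3⟩ := hu
      obtain ⟨q1, q2, q3⟩ := hu'
      refine ⟨?_, ?_, ?_⟩
      · exact (I 0).add_mem ((I 0).mul_mem_left σ p1) ((I 0).mul_mem_left τ q1)
      · exact (I 1).add_mem ((I 1).mul_mem_left σ p2) ((I 1).mul_mem_left τ q2)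
      · have e : (σ • u + τ • u').1 + (σ • u + τ • u').2 =
            σ * (u.1 + u.2) + τ * (u'.1 + u'.2) := by
          simp only [Prod.fst_add, Prod.snd_add, Prod.smul_fst, Prod.smul_snd, smul_eq_mul]
          ring
        rw [e]
        exact (I 2).add_mem ((I 2).mul_mem_left σ p3) ((I 2).mul_mem_left τ q3)
    refine ⟨z - (σ • u + τ • u'), ?_, fun w => ?_⟩
    · rw [← hz, cls_eq_iff]
      have e : z - (σ • u + τ • u') - z = -(σ • u + τ • u') := by abel
      rw [e]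
      obtain ⟨p1, p2, p3⟩ := hin
      refine ⟨(I 0).neg_mem p1, (I 1).neg_mem p2, ?_⟩
      have e2 : (-(σ • u + τ • u')).1 + (-(σ • u + τ • u')).2 =
          -((σ • u + τ • u').1 + (σ • u + τ • u').2) := by
        rw [Prod.fst_neg, Prod.snd_neg]
        ring
      rw [e2]
      exact (I 2).neg_mem p3
    · have key : ∀ (x y y' : K) (r : ℝ), x = s * y + t * y' → w y ≤ r → w y' ≤ r →
          w (x - (σ * y + τ * y')) ≤ 2 * C0 K * r := by
        intro x y y' r hx hy hy'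
        have e : x - (σ * y + τ * y') = (s - σ) * y + (t - τ) * y' := by rw [hx]; ring
        rw [e]
        refine (place_add_le w _ _).trans ?_
        rw [map_mul, map_mul]
        have e1 : w (s - σ) * w y ≤ C0 K * r :=
          mul_le_mul (hσ w) hy (apply_nonneg w _) (by linarith)
        have e2 : w (t - τ) * w y' ≤ C0 K * r :=
          mul_le_mul (hτ w) hy' (apply_nonneg w _) (by linarith)
        linarith
      have k1 := key z.1 u.1 u'.1 α hz1 (hub w).1 (hub' w).1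
      have k2 := key z.2 u.2 u'.2 β hz2 (hub w).2 (hub' w).2
      constructor
      · have e : ((z - (σ • u + τ • u')).1 : K) = (z.1 : K) - (σ * u.1 + τ * u'.1) := by
          simp [Prod.fst_sub, Prod.fst_add]
        rw [e]
        exact k1
      · have e : ((z - (σ • u + τ • u')).2 : K) = (z.2 : K) - (σ * u.2 + τ * u'.2) := by
          simp [Prod.snd_sub, Prod.snd_add]
        rw [e]
        exact k2
  choose z hz hzb using hrep
  -- the sums
  obtain ⟨E, hE⟩ : ∃ E, E = (G ×ˢ (Finset.univ : Finset ((𝓞 K ⧸ I 0) × (𝓞 K ⧸ I 1) × (𝓞 K ⧸ I 2)))).image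
    fun p => p.1 + z p.2 := ⟨_, rfl⟩
  have hEc : E.card = G.card *
      Fintype.card ((𝓞 K ⧸ I 0) × (𝓞 K ⧸ I 1) × (𝓞 K ⧸ I 2)) := by
    rw [hE, Finset.card_image_of_injOn, Finset.card_product, Finset.card_univ]
    intro p hp p' hp' he
    rw [Finset.mem_coe, Finset.mem_product] at hp hp'
    have he' : p.1 + z p.2 = p'.1 + z p'.2 := he
    have h1 : ∀ g ∈ G, ∀ q, cls I (g + z q) = q := by
      intro g hg q
      conv_rhs => rw [← hz q]
      rw [cls_eq_iff]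
      have : g + z q - z q = g := by abel
      rw [this]
      exact (hG g hg).1
    have h2 : p.2 = p'.2 := by
      rw [← h1 p.1 hp.1 p.2, ← h1 p'.1 hp'.1 p'.2, he']
    rw [h2] at he'
    exact Prod.ext (add_right_cancel he') h2
  have hEb : ∀ g ∈ E, InB (κ * α) (κ * β) g := by
    intro g hg
    rw [hE] at hg
    obtain ⟨p, hp, rfl⟩ := Finset.mem_image.1 hg
    rw [Finset.mem_product] at hp
    intro w
    have h1 := (hG p.1 hp.1).2 w
    have h2 := hzb p.2 w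
    constructor
    · have e : ((p.1 + z p.2).1 : K) = (p.1.1 : K) + ((z p.2).1 : K) := by
        simp [Prod.fst_add]
      rw [e]
      refine (place_add_le w _ _).trans ?_
      rw [hκ]
      linarith [h1.1, h2.1]
    · have e : ((p.1 + z p.2).2 : K) = (p.1.2 : K) + ((z p.2).2 : K) := by
        simp [Prod.snd_add]
      rw [e]
      refine (place_add_le w _ _).trans ?_
      rw [hκ]
      linarith [h1.2, h2.2]
  have hEsub : E ⊆ (E.image Prod.fst) ×ˢ (E.image Prod.snd) := by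
    intro g hg
    rw [Finset.mem_product]
    exact ⟨Finset.mem_image_of_mem _ hg, Finset.mem_image_of_mem _ hg⟩
  have hc1 := h (κ * α) (by nlinarith) (E.image Prod.fst) (by
    intro a ha w
    obtain ⟨g, hg, rfl⟩ := Finset.mem_image.1 ha
    exact (hEb g hg w).1)
  have hc2 := h (κ * β) (by nlinarith) (E.image Prod.snd) (by
    intro a ha w
    obtain ⟨g, hg, rfl⟩ := Finset.mem_image.1 ha
    exact (hEb g hg w).2)
  have hE3 : (E.card : ℝ) ≤ ((E.image Prod.fst).card : ℝ) * ((E.image Prod.snd).card : ℝ) := by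
    have := Finset.card_le_card hEsub
    rw [Finset.card_product] at this
    exact_mod_cast this
  have hE4 : (E.card : ℝ) = G.card * NI I := by
    rw [hEc]
    push_cast
    rw [← hcard]
  rw [← hE4]
  calc (E.card : ℝ) ≤ _ := hE3
    _ ≤ (C * (κ * α) ^ Module.finrank ℚ K) * (C * (κ * β) ^ Module.finrank ℚ K) :=
        mul_le_mul hc1 hc2 (Nat.cast_nonneg _) (by positivity)
    _ = _ := by
        rw [mul_pow, mul_pow]
        ring

/-- the weighted height of a vector -/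
noncomputable def Hw (α β : ℝ) (g : 𝓞 K × 𝓞 K) : ℝ :=
  ∏ w : InfinitePlace K, max (w (g.1 : K) / α) (w (g.2 : K) / β) ^ w.mult

variable (K) in
/-- few vectors on a line -/
theorem one_dim : ∃ C : ℝ, 0 < C ∧ ∀ α β h₀ : ℝ, 0 < α → 0 < β → 0 < h₀ →
    ∀ G : Finset (𝓞 K × 𝓞 K), (∀ g ∈ G, InB α β g) →
    (∀ g ∈ G, ∀ g' ∈ G, g.1 * g'.2 = g.2 * g'.1) →
    (∀ g ∈ G, ∀ g' ∈ G, g ≠ g' → h₀ ≤ Hw α β (g - g')) →
    (G.card : ℝ) ≤ C * (1 + 1 / h₀) := by
  classical
  obtain ⟨C, hC, h⟩ := line_count K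
  refine ⟨C + 1, by positivity, fun α β h₀ hα hβ hh G hG hline hdiff => ?_⟩
  have h1h : 0 < 1 / h₀ := by positivity
  by_cases h0 : ∀ g ∈ G, g = 0
  · have h1 : G.card ≤ 1 := Finset.card_le_one.2 fun a ha b hb => by rw [h0 a ha, h0 b hb]
    have h2 : (G.card : ℝ) ≤ 1 := by exact_mod_cast h1
    nlinarith
  push Not at h0
  obtain ⟨u, hu, hu0⟩ := h0
  have hex : ∀ g : 𝓞 K × 𝓞 K, ∃ t : K, g ∈ G → (g.1 : K) = t * u.1 ∧ (g.2 : K) = t * u.2 := by
    intro g
    by_cases hg : g ∈ G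
    · have hl := hline g hg u hu
      have hl' : (g.1 : K) * u.2 = g.2 * u.1 := by exact_mod_cast congrArg (fun z : 𝓞 K => (z : K)) hl
      by_cases h1 : u.1 = 0
      · have h2 : u.2 ≠ 0 := by
          intro h2
          exact hu0 (Prod.ext h1 h2)
        have h2' : (u.2 : K) ≠ 0 := by exact_mod_cast h2
        refine ⟨(g.2 : K) / u.2, fun _ => ⟨?_, by field_simp⟩⟩
        have h1' : (u.1 : K) = 0 := by rw [h1]; simp
        rw [h1', mul_zero] at hl'
        rw [h1', mul_zero]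
        exact (mul_eq_zero.1 hl').resolve_right h2'
      · have h1' : (u.1 : K) ≠ 0 := by exact_mod_cast h1
        refine ⟨(g.1 : K) / u.1, fun _ => ⟨by field_simp, ?_⟩⟩
        field_simp
        linear_combination -hl'
    · exact ⟨0, fun h => absurd h hg⟩
  choose t ht using hex
  set nu : InfinitePlace K → ℝ := fun w => max (w (u.1 : K) / α) (w (u.2 : K) / β) with hnu
  have hnu0 : ∀ w, 0 < nu w := by
    intro w
    by_cases h1 : u.1 = 0
    · have h2 : u.2 ≠ 0 := by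
        intro h2
        exact hu0 (Prod.ext h1 h2)
      have h2' : (u.2 : K) ≠ 0 := by exact_mod_cast h2
      exact lt_of_lt_of_le (div_pos (InfinitePlace.pos_iff.2 h2') hβ) (le_max_right _ _)
    · have h1' : (u.1 : K) ≠ 0 := by exact_mod_cast h1
      exact lt_of_lt_of_le (div_pos (InfinitePlace.pos_iff.2 h1') hα) (le_max_left _ _)
  have hscale : ∀ (s : K) (w : InfinitePlace K) (x y : K), x = s * u.1 → y = s * u.2 →
      max (w x / α) (w y / β) = w s * nu w := by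
    intro s w x y hx hy
    rw [hx, hy, map_mul, map_mul, hnu, mul_max_of_nonneg _ _ (apply_nonneg w _), mul_div_assoc,
      mul_div_assoc]
  have hinj : Set.InjOn t (G : Set (𝓞 K × 𝓞 K)) := by
    intro g hg g' hg' he
    obtain ⟨a1, a2⟩ := ht g hg
    obtain ⟨b1, b2⟩ := ht g' hg'
    have e1 : (g.1 : K) = g'.1 := by rw [a1, b1, he]
    have e2 : (g.2 : K) = g'.2 := by rw [a2, b2, he]
    exact Prod.ext (by exact_mod_cast e1) (by exact_mod_cast e2)
  obtain ⟨Q, hQ⟩ : ∃ Q, Q = ∏ w : InfinitePlace K, (1 / nu w) ^ w.mult := ⟨_, rfl⟩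
  have hQ0 : 0 < Q := by
    rw [hQ]
    exact Finset.prod_pos fun w _ => pow_pos (one_div_pos.2 (hnu0 w)) _
  have h1 := h (G.image t) (fun w => 1 / nu w) (fun w => one_div_pos.2 (hnu0 w)) (by
    intro s hs w
    obtain ⟨g, hg, rfl⟩ := Finset.mem_image.1 hs
    obtain ⟨a1, a2⟩ := ht g hg
    obtain ⟨b1, b2⟩ := hG g hg w
    rw [le_div_iff₀ (hnu0 w), ← hscale (t g) w g.1 g.2 a1 a2]
    refine max_le ?_ ?_
    · rw [div_le_one hα]; exact b1
    · rw [div_le_one hβ]; exact b2) (h₀ * Q) (by positivity) (by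
    intro s hs s' hs' hne
    obtain ⟨g, hg, rfl⟩ := Finset.mem_image.1 hs
    obtain ⟨g', hg', rfl⟩ := Finset.mem_image.1 hs'
    have hgne : g ≠ g' := fun h => hne (by rw [h])
    have h2 := hdiff g hg g' hg' hgne
    obtain ⟨a1, a2⟩ := ht g hg
    obtain ⟨b1, b2⟩ := ht g' hg'
    have h3 : Hw α β (g - g') = (∏ w : InfinitePlace K, w (t g - t g') ^ w.mult) *
        ∏ w : InfinitePlace K, nu w ^ w.mult := by
      unfold Hw
      rw [← Finset.prod_mul_distrib]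
      refine Finset.prod_congr rfl fun w _ => ?_
      rw [← mul_pow]
      congr 1
      refine hscale _ w _ _ ?_ ?_
      · have e : ((g - g').1 : K) = (g.1 : K) - g'.1 := by simp [Prod.fst_sub]
        rw [e, a1, b1]
        ring
      · have e : ((g - g').2 : K) = (g.2 : K) - g'.2 := by simp [Prod.snd_sub]
        rw [e, a2, b2]
        ring
    have h4 : (∏ w : InfinitePlace K, nu w ^ w.mult) * Q = 1 := by
      rw [hQ, ← Finset.prod_mul_distrib]
      refine Finset.prod_eq_one fun w _ => ?_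
      rw [← mul_pow, mul_one_div_cancel (hnu0 w).ne', one_pow]
    rw [h3] at h2
    calc h₀ * Q ≤ ((∏ w : InfinitePlace K, w (t g - t g') ^ w.mult) *
        ∏ w : InfinitePlace K, nu w ^ w.mult) * Q := mul_le_mul_of_nonneg_right h2 hQ0.le
      _ = (∏ w : InfinitePlace K, w (t g - t g') ^ w.mult) *
        ((∏ w : InfinitePlace K, nu w ^ w.mult) * Q) := by ring
      _ = _ := by rw [h4, mul_one])
  rw [Finset.card_image_of_injOn hinj, ← hQ] at h1
  have h2 : Q / (h₀ * Q) = 1 / h₀ := by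
    rw [div_eq_div_iff (by positivity) hh.ne']
    ring
  rw [h2] at h1
  refine h1.trans (mul_le_mul_of_nonneg_right (by linarith) (by linarith))

end Pool.Agent.T6.H44.DIV
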