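import Pool.Agent.T6.H44.DIV.Core

/-!
A point of small radical with prescribed primes: the main step.
-/

set_option autoImplicit false

namespace Pool.Agent.T6.H44.DIV

open Finset NumberField IsDedekindDomain Pool.Agent.H691R3 Pool.Agent.TH876.Loc
open Filter Topology

variable {K : Type} [Field K] [NumberField K]

/-- removing a factor -/
theorem lev_split {s p' t P : ℝ} (hs : 1 ≤ s) (ht : 1 ≤ t) (hp' : 0 ≤ p')
    (hP : P ≤ p' ∨ P ≤ t) (hP0 : 0 ≤ P) : lev (s * t) P ≤ lev s p' * t ^ 3 := by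
  have hs0 : 0 < s := by linarith
  have ht0 : 0 < t := by linarith
  have hl : s ≤ lev s p' := by
    refine le_trans ?_ (le_max_left _ _)
    calc s = s ^ (1 : ℝ) := (Real.rpow_one s).symm
      _ ≤ s ^ (3 / 2 : ℝ) := Real.rpow_le_rpow_of_exponent_le hs (by norm_num)
  have hl0 : 0 < lev s p' := by linarith
  refine max_le ?_ ?_
  · rw [Real.mul_rpow hs0.le ht0.le]
    refine mul_le_mul (le_max_left _ _) ?_ (by positivity) hl0.le
    rw [← Real.rpow_natCast t 3]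
    exact Real.rpow_le_rpow_of_exponent_le ht (by norm_num)
  · rcases hP with h | h
    · have h1 : s * p' ≤ lev s p' := le_max_right _ _
      have h2 : t ≤ t ^ 3 := le_self_pow₀ ht (by norm_num)
      calc s * t * P ≤ s * t * p' := mul_le_mul_of_nonneg_left h (by positivity)
        _ = (s * p') * t := by ring
        _ ≤ lev s p' * t ^ 3 := mul_le_mul h1 h2 ht0.le hl0.le
    · have h2 : t * t ≤ t ^ 3 := by
        calc t * t = t ^ 2 := by ring
          _ ≤ t ^ 3 := pow_le_pow_right₀ ht (by norm_num)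
      calc s * t * P ≤ s * t * t := mul_le_mul_of_nonneg_left h (by positivity)
        _ = s * (t * t) := by ring
        _ ≤ lev s p' * t ^ 3 := mul_le_mul hl h2 (by positivity) hl0.le

theorem nn_inter_sdiff [DecidableEq (Pr K)] (S T : Finset (Pr K)) :
    nn (S ∩ T) * nn (S \ T) = nn S := by
  unfold nn
  exact Finset.prod_inter_mul_prod_sdiff _ _ _

theorem card_two_log {X : ℝ} {S : Finset (Pr K)} (hSX : nn S ≤ X) :
    (S.card : ℝ) ≤ 2 * Real.log X := by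
  have f1 := Pool.Agent.TH876.KR.card_log_le hSX
  have f2 := Real.log_two_gt_d9
  have f3 : (0 : ℝ) ≤ S.card := Nat.cast_nonneg _
  nlinarith

/-- the growth conditions -/
theorem growth (c C : ℝ) (hc : 0 < c) (d : ℕ) (κ : ℝ) (hκ : 0 < κ) :
    ∃ X0 : ℝ, 16 ≤ X0 ∧ ∀ X : ℝ, X0 ≤ X →
      2 * Real.log X * C / Real.log X ^ 2 ≤ c / 4 ∧
      (2 * Real.log X + 3) * (C * (1 + 16 ^ d * X ^ (5 / 4 * κ))) ≤ c / 4 * X ^ (3 / 2 * κ) := by
  have h1 : Tendsto (fun X : ℝ => 2 * Real.log X * C / Real.log X ^ 2) atTop (𝓝 0) := by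
    have h2 : Tendsto (fun X : ℝ => (Real.log X)⁻¹) atTop (𝓝 0) :=
      Real.tendsto_log_atTop.inv_tendsto_atTop
    have h3 := h2.const_mul (2 * C)
    rw [mul_zero] at h3
    refine h3.congr' ?_
    filter_upwards [Real.tendsto_log_atTop.eventually (eventually_gt_atTop 0)] with X hX
    field_simp
  have h2 : Tendsto (fun X : ℝ => (2 * Real.log X + 3) * (C * (1 + 16 ^ d * X ^ (5 / 4 * κ))) *
      X ^ (-(3 / 2 * κ))) atTop (𝓝 0) := by
    have a1 : Tendsto (fun X : ℝ => Real.log X / X ^ (κ / 4)) atTop (𝓝 0) :=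
      (isLittleO_log_rpow_atTop (by positivity)).tendsto_div_nhds_zero
    have a2 : Tendsto (fun X : ℝ => X ^ (-(κ / 4))) atTop (𝓝 0) :=
      tendsto_rpow_neg_atTop (by positivity)
    have a3 : Tendsto (fun X : ℝ => X ^ (-(5 / 4 * κ))) atTop (𝓝 0) :=
      tendsto_rpow_neg_atTop (by positivity)
    have a4 : Tendsto (fun X : ℝ => (2 * (Real.log X / X ^ (κ / 4)) + 3 * X ^ (-(κ / 4))) *
        (C * (X ^ (-(5 / 4 * κ)) + 16 ^ d))) atTop
        (𝓝 ((2 * 0 + 3 * 0) * (C * (0 + 16 ^ d)))) :=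
      ((a1.const_mul 2).add (a2.const_mul 3)).mul ((a3.add_const _).const_mul C)
    have e : (2 * 0 + 3 * 0) * (C * (0 + 16 ^ d)) = 0 := by ring
    rw [e] at a4
    refine a4.congr' ?_
    filter_upwards [eventually_gt_atTop 0] with X hX
    have e1 : X ^ (-(3 / 2 * κ)) = X ^ (-(κ / 4)) * X ^ (-(5 / 4 * κ)) := by
      rw [← Real.rpow_add hX]
      congr 1
      ring
    have e2 : X ^ (5 / 4 * κ) * X ^ (-(5 / 4 * κ)) = 1 := by
      rw [← Real.rpow_add hX]
      simp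
    have e3 : Real.log X / X ^ (κ / 4) = Real.log X * X ^ (-(κ / 4)) := by
      rw [Real.rpow_neg hX.le, div_eq_mul_inv]
    rw [e1, e3]
    linear_combination (-(2 * Real.log X + 3) * X ^ (-(κ / 4)) * C * 16 ^ d) * e2
  have hc4 : 0 < c / 4 := by positivity
  obtain ⟨X1, hX1⟩ := eventually_atTop.1 (h1.eventually (ge_mem_nhds hc4))
  obtain ⟨X2, hX2⟩ := eventually_atTop.1 (h2.eventually (ge_mem_nhds hc4))
  refine ⟨max 16 (max X1 X2), le_max_left _ _, fun X hX => ?_⟩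
  have hX16 : 16 ≤ X := (le_max_left _ _).trans hX
  have hX0 : 0 < X := by linarith
  refine ⟨hX1 X (((le_max_left _ _).trans (le_max_right _ _)).trans hX), ?_⟩
  have h3 := hX2 X (((le_max_right _ _).trans (le_max_right _ _)).trans hX)
  have hp : 0 < X ^ (3 / 2 * κ) := by positivity
  have h4 := mul_le_mul_of_nonneg_right h3 hp.le
  rw [mul_assoc, ← Real.rpow_add hX0, neg_add_cancel, Real.rpow_zero, mul_one] at h4
  exact h4

variable (K) in
/-- **a point of small radical with prescribed primes** -/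
theorem core (κ : ℝ) (hκ : 0 < κ) : ∃ C X0 : ℝ, 0 < C ∧ 16 ≤ X0 ∧ ∀ X : ℝ, X0 ≤ X →
    ∀ S : Finset (Pr K), nn S ≤ X → X ^ (3 / 4 : ℝ) ≤ nn S →
    (Real.log X ^ 2) ^ S.card ≤ X ^ (κ / 2) →
    (∀ S' ⊆ S, X ^ (1 / 4 : ℝ) ≤ nn S' → ∀ y : K, Pt y → S' ⊆ sp y →
      lev (nn S') (pm S') * X ^ (-(κ / 2)) ≤ nn (sp y)) →
    ∃ y : K, Pt y ∧ S ⊆ sp y ∧ nn (sp y) ≤ C * (lev (nn S) (pm S) * X ^ (3 * κ)) := by
  classical
  obtain ⟨c, C, hc, hC, hsel⟩ := select K
  obtain ⟨d, hd⟩ : ∃ d, d = Module.finrank ℚ K := ⟨_, rfl⟩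
  have hd1 : 1 ≤ d := by rw [hd]; exact Module.finrank_pos
  have hd0 : (0 : ℝ) < d := by exact_mod_cast hd1
  obtain ⟨X0, hX0, hgrow⟩ := growth c C hc d κ hκ
  refine ⟨16 ^ d, X0, by positivity, hX0, ?_⟩
  intro X hX S hSX hS34 hScard hlow
  obtain ⟨hg1, hg2⟩ := hgrow X hX
  have hX16 : 16 ≤ X := hX0.trans hX
  have hX1 : 1 ≤ X := by linarith
  have hXp : 0 < X := by linarith
  obtain ⟨N, hN⟩ : ∃ N, N = nn S := ⟨_, rfl⟩
  have hN1 : 1 ≤ N := by rw [hN]; exact one_le_nn S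
  have hN0 : 0 < N := by linarith
  obtain ⟨Lv, hLv⟩ : ∃ Lv, Lv = lev N (pm S) := ⟨_, rfl⟩
  have hlog : 1 ≤ Real.log X := by
    have := Pool.Agent.TH876.Loc.log_facts hX16
    have := Real.exp_one_gt_d9
    linarith
  obtain ⟨Y, hY⟩ : ∃ Y, Y = Real.log X ^ 2 := ⟨_, rfl⟩
  have hY1 : 1 ≤ Y := by rw [hY]; exact one_le_pow₀ hlog
  obtain ⟨m, hm⟩ := exists_exp (K := K) Y hY1
  obtain ⟨S1, S2, S3, h12, h13, h23, hS, A, B, hA1, hAB, hABN, hl1, hl2, n1, n2, n3⟩ := sizes S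
  rw [← hN] at hABN hl1 hl2 n1 n2 n3
  rw [← hLv] at hl1 hl2
  have hB1 : 1 ≤ B := hA1.trans hAB
  have hA0 : 0 < A := by linarith
  have hB0 : 0 < B := by linarith
  have hXκ : 1 ≤ X ^ κ := Real.one_le_rpow hX1 hκ.le
  have hXκ0 : 0 < X ^ κ := by positivity
  obtain ⟨α, hα⟩ : ∃ α : ℝ, α = (A * X ^ κ) ^ (1 / (d : ℝ)) := ⟨_, rfl⟩
  obtain ⟨β, hβ⟩ : ∃ β : ℝ, β = (B * X ^ κ) ^ (1 / (d : ℝ)) := ⟨_, rfl⟩
  have hα1 : 1 ≤ α := by
    rw [hα]
    exact Real.one_le_rpow (one_le_mul_of_one_le_of_one_le hA1 hXκ) (by positivity)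
  have hαβ : α ≤ β := by
    rw [hα, hβ]
    exact Real.rpow_le_rpow (by positivity) (mul_le_mul_of_nonneg_right hAB hXκ0.le)
      (by positivity)
  have hβ1 : 1 ≤ β := hα1.trans hαβ
  have hαd : α ^ d = A * X ^ κ := by
    rw [hα, ← Real.rpow_natCast, ← Real.rpow_mul (by positivity), one_div_mul_cancel hd0.ne',
      Real.rpow_one]
  have hβd : β ^ d = B * X ^ κ := by
    rw [hβ, ← Real.rpow_natCast, ← Real.rpow_mul (by positivity), one_div_mul_cancel hd0.ne',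
      Real.rpow_one]
  have hSm : ∀ v ∈ S, v ∈ S1 ∨ v ∈ S2 ∨ v ∈ S3 := by
    intro v hv
    rw [hS, Finset.mem_union, Finset.mem_union, or_assoc] at hv
    exact hv
  have hnnS : N = nn S1 * nn S2 * nn S3 := by
    rw [hN, hS, nn_union, nn_union h12]
    rw [Finset.disjoint_union_left]
    exact ⟨h13, h23⟩
  have hnmS : nm m S = nm m S1 * nm m S2 * nm m S3 := by
    rw [hS, nm_union, nm_union h12]
    rw [Finset.disjoint_union_left]
    exact ⟨h13, h23⟩
  have p1 := nn_pos S1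
  have p2 := nn_pos S2
  have p3 := nn_pos S3
  have q1 := nm_pos m S1
  have q2 := nm_pos m S2
  have q3 := nm_pos m S3
  have r1 := nn_le_nm (fun v => (hm v).1) S1
  have r2 := nn_le_nm (fun v => (hm v).1) S2
  have r3 := nn_le_nm (fun v => (hm v).1) S3
  -- the numbers
  obtain ⟨h₀, hh₀⟩ : ∃ h₀ : ℝ, h₀ = 1 / (16 ^ d * X ^ (5 / 4 * κ)) := ⟨_, rfl⟩
  have hh0 : 0 < h₀ := by rw [hh₀]; positivity
  have h16 : (1 : ℝ) ≤ 16 ^ d := one_le_pow₀ (by norm_num)
  have h2d : (2 : ℝ) ^ d ≤ 16 ^ d := pow_le_pow_left₀ (by norm_num) (by norm_num) _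
  have hhX : h₀ * (2 ^ d * X ^ κ) ≤ 1 := by
    rw [hh₀, one_div_mul_eq_div, div_le_one (by positivity)]
    refine mul_le_mul h2d ?_ hXκ0.le (by positivity)
    refine Real.rpow_le_rpow_of_exponent_le hX1 ?_
    linarith
  have hA2 : (2 * α) ^ d = 2 ^ d * (A * X ^ κ) := by rw [mul_pow, hαd]
  have hB2 : (2 * β) ^ d = 2 ^ d * (B * X ^ κ) := by rw [mul_pow, hβd]
  have c1 : h₀ * (2 * β) ^ Module.finrank ℚ K ≤ nm m S2 * nm m S3 := by
    rw [← hd, hB2]
    have e1 : B ≤ nn S2 * nn S3 := by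
      have : B * nn S1 ≤ (nn S2 * nn S3) * nn S1 := by
        calc B * nn S1 ≤ N := n1
          _ = _ := by rw [hnnS]; ring
      exact le_of_mul_le_mul_right this p1
    calc h₀ * (2 ^ d * (B * X ^ κ)) = (h₀ * (2 ^ d * X ^ κ)) * B := by ring
      _ ≤ 1 * B := mul_le_mul_of_nonneg_right hhX hB0.le
      _ = B := one_mul _
      _ ≤ nn S2 * nn S3 := e1
      _ ≤ _ := mul_le_mul r2 r3 p3.le q2.le
  have c2 : h₀ * (2 * α) ^ Module.finrank ℚ K ≤ nm m S1 * nm m S3 := by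
    rw [← hd, hA2]
    have e1 : A ≤ nn S1 * nn S3 := by
      have : A * nn S2 ≤ (nn S1 * nn S3) * nn S2 := by
        calc A * nn S2 ≤ N := n2
          _ = _ := by rw [hnnS]; ring
      exact le_of_mul_le_mul_right this p2
    calc h₀ * (2 ^ d * (A * X ^ κ)) = (h₀ * (2 ^ d * X ^ κ)) * A := by ring
      _ ≤ 1 * A := mul_le_mul_of_nonneg_right hhX hA0.le
      _ = A := one_mul _
      _ ≤ nn S1 * nn S3 := e1
      _ ≤ _ := mul_le_mul r1 r3 p3.le q1.le
  have c3 : h₀ * (2 * α) ^ Module.finrank ℚ K ≤ nm m S1 * nm m S2 := by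
    rw [← hd, hA2]
    have e1 : A ≤ nn S1 * nn S2 := by
      have : A * nn S3 ≤ (nn S1 * nn S2) * nn S3 := by
        calc A * nn S3 ≤ N := n3
          _ = _ := by rw [hnnS]
      exact le_of_mul_le_mul_right this p3
    calc h₀ * (2 ^ d * (A * X ^ κ)) = (h₀ * (2 ^ d * X ^ κ)) * A := by ring
      _ ≤ 1 * A := mul_le_mul_of_nonneg_right hhX hA0.le
      _ = A := one_mul _
      _ ≤ nn S1 * nn S2 := e1
      _ ≤ _ := mul_le_mul r1 r2 p2.le q1.le
  have hLvN : Lv ≤ N ^ 2 := by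
    rw [hLv]
    refine lev_le_sq hN1 ?_
    rw [hN]
    exact pm_le_nn S
  have hLv0 : 0 < Lv := by
    have : 0 < A * B ^ 2 := by positivity
    linarith
  have c4 : ∀ y : K, Pt y → h₀ ^ 3 * (2 ^ Module.finrank ℚ K * (2 * α) ^ Module.finrank ℚ K *
      ((2 * β) ^ Module.finrank ℚ K) ^ 2) ≤ nn (sp y) * nm m (S \ sp y) ^ 3 := by
    intro y hy
    have e0 : nn (S \ sp y) ≤ nm m (S \ sp y) := nn_le_nm (fun v => (hm v).1) _
    obtain ⟨s, hs⟩ : ∃ s, s = nn (S ∩ sp y) := ⟨_, rfl⟩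
    obtain ⟨t, ht⟩ : ∃ t, t = nn (S \ sp y) := ⟨_, rfl⟩
    have hst : s * t = N := by rw [hs, ht, hN]; exact nn_inter_sdiff _ _
    have hs1 : 1 ≤ s := by rw [hs]; exact one_le_nn _
    have ht1 : 1 ≤ t := by rw [ht]; exact one_le_nn _
    have hs0 : 0 < s := by linarith
    have ht0 : 0 < t := by linarith
    rw [← ht] at e0
    have hXe : X ^ (-(κ / 2)) ≤ 1 := Real.rpow_le_one_of_one_le_of_nonpos hX1 (by linarith)
    have hXe0 : 0 < X ^ (-(κ / 2)) := by positivity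
    -- the lower bound
    have hmain : Lv * X ^ (-(κ / 2)) ≤ nn (sp y) * t ^ 3 := by
      rcases le_or_gt (X ^ (1 / 4 : ℝ)) s with hcase | hcase
      · have h1 := hlow (S ∩ sp y) Finset.inter_subset_left (by rw [← hs]; exact hcase) y hy
          Finset.inter_subset_right
        rw [← hs] at h1
        have h2 : Lv ≤ lev s (pm (S ∩ sp y)) * t ^ 3 := by
          rw [hLv, ← hst]
          refine lev_split hs1 ht1 (Nat.cast_nonneg _) ?_ (Nat.cast_nonneg _)
          rcases S.eq_empty_or_nonempty with he | hne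
          · left
            rw [he]
            simp
          · obtain ⟨v, hv, hvp⟩ := pm_mem hne
            rw [← hvp]
            by_cases hvy : v ∈ sp y
            · exact Or.inl (le_pm (Finset.mem_inter.2 ⟨hv, hvy⟩))
            · right
              rw [ht]
              exact Nv_le_nn (Finset.mem_sdiff.2 ⟨hv, hvy⟩)
        calc Lv * X ^ (-(κ / 2)) ≤ lev s (pm (S ∩ sp y)) * t ^ 3 * X ^ (-(κ / 2)) :=
              mul_le_mul_of_nonneg_right h2 hXe0.le
          _ = lev s (pm (S ∩ sp y)) * X ^ (-(κ / 2)) * t ^ 3 := by ring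
          _ ≤ _ := mul_le_mul_of_nonneg_right h1 (by positivity)
      · have h1 : s ^ 3 ≤ N := by
          calc s ^ 3 ≤ (X ^ (1 / 4 : ℝ)) ^ 3 := pow_le_pow_left₀ hs0.le hcase.le _
            _ = X ^ (3 / 4 : ℝ) := by
                rw [← Real.rpow_natCast, ← Real.rpow_mul hXp.le]
                norm_num
            _ ≤ N := by rw [hN]; exact hS34
        have h2 : N ^ 2 ≤ t ^ 3 := by
          have h3 : N ^ 2 * s ^ 3 ≤ t ^ 3 * s ^ 3 := by
            calc N ^ 2 * s ^ 3 ≤ N ^ 2 * N := mul_le_mul_of_nonneg_left h1 (by positivity)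
              _ = (s * t) ^ 3 := by rw [hst]; ring
              _ = t ^ 3 * s ^ 3 := by ring
          exact le_of_mul_le_mul_right h3 (by positivity)
        calc Lv * X ^ (-(κ / 2)) ≤ Lv * 1 := mul_le_mul_of_nonneg_left hXe hLv0.le
          _ ≤ t ^ 3 := by linarith
          _ ≤ nn (sp y) * t ^ 3 := le_mul_of_one_le_left (by positivity) (one_le_nn _)
    have hfin : nn (sp y) * t ^ 3 ≤ nn (sp y) * nm m (S \ sp y) ^ 3 :=
      mul_le_mul_of_nonneg_left (pow_le_pow_left₀ ht0.le e0 _) (nn_pos _).le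
    refine le_trans ?_ (hmain.trans hfin)
    rw [← hd, hA2, hB2]
    have e1 : (2 : ℝ) ^ d * (2 ^ d * (A * X ^ κ)) * (2 ^ d * (B * X ^ κ)) ^ 2 =
        16 ^ d * (A * B ^ 2) * (X ^ κ) ^ 3 := by
      have : (16 : ℝ) ^ d = 2 ^ d * 2 ^ d * 2 ^ d * 2 ^ d := by
        rw [← mul_pow, ← mul_pow, ← mul_pow]
        norm_num
      rw [this]
      ring
    rw [e1]
    have e2 : (X ^ κ) ^ 3 = X ^ (3 * κ) := by
      rw [← Real.rpow_natCast, ← Real.rpow_mul hXp.le]
      congr 1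
      push_cast
      ring
    have e3 : h₀ ^ 3 * (16 ^ d * X ^ (3 * κ)) ≤ X ^ (-(κ / 2)) := by
      have f1 : h₀ ^ 3 = 1 / ((16 ^ d) ^ 3 * X ^ (15 / 4 * κ)) := by
        rw [hh₀, one_div_pow, mul_pow]
        congr 2
        rw [← Real.rpow_natCast (X ^ _), ← Real.rpow_mul hXp.le]
        congr 1
        push_cast
        ring
      rw [f1, one_div_mul_eq_div, div_le_iff₀ (by positivity)]
      calc (16 : ℝ) ^ d * X ^ (3 * κ) ≤ (16 ^ d) ^ 3 * X ^ (3 * κ) := by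
            refine mul_le_mul_of_nonneg_right ?_ (by positivity)
            exact le_self_pow₀ h16 (by norm_num)
        _ ≤ (16 ^ d) ^ 3 * (X ^ (-(κ / 2)) * X ^ (15 / 4 * κ)) := by
            refine mul_le_mul_of_nonneg_left ?_ (by positivity)
            rw [← Real.rpow_add hXp]
            refine Real.rpow_le_rpow_of_exponent_le hX1 ?_
            linarith
        _ = _ := by ring
    rw [e2]
    calc h₀ ^ 3 * (16 ^ d * (A * B ^ 2) * X ^ (3 * κ)) =
        (A * B ^ 2) * (h₀ ^ 3 * (16 ^ d * X ^ (3 * κ))) := by ring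
      _ ≤ Lv * X ^ (-(κ / 2)) := mul_le_mul hl1 e3 (by positivity) hLv0.le
  have hHw := Hw_ge (S := S) (show 0 < 2 * α by linarith) (by linarith) hh0 h12 h13 h23 hSm
    c1 c2 c3 c4
  -- the sizes
  obtain ⟨V, hV⟩ : ∃ V, V = α ^ Module.finrank ℚ K * β ^ Module.finrank ℚ K /
      (nm m S1 * nm m S2 * nm m S3) := ⟨_, rfl⟩
  have hVge : X ^ (3 / 2 * κ) ≤ V := by
    rw [hV, ← hnmS, ← hd, hαd, hβd, le_div_iff₀ (nm_pos _ _)]
    have f1 : nm m S ≤ X ^ (κ / 2) * N := by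
      refine (nm_le (fun v => (hm v).2.2) S).trans ?_
      rw [hN, hY]
      exact mul_le_mul_of_nonneg_right hScard (nn_pos S).le
    calc X ^ (3 / 2 * κ) * nm m S ≤ X ^ (3 / 2 * κ) * (X ^ (κ / 2) * N) :=
          mul_le_mul_of_nonneg_left f1 (by positivity)
      _ = (X ^ (3 / 2 * κ) * X ^ (κ / 2)) * N := by ring
      _ = (X ^ κ * X ^ κ) * N := by
          rw [← Real.rpow_add hXp, ← Real.rpow_add hXp]
          congr 2
          ring
      _ = _ := by rw [← hABN]; ring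
  have hV0 : 0 < V := lt_of_lt_of_le (by positivity) hVge
  have hScl : (S.card : ℝ) ≤ 2 * Real.log X := card_two_log hSX
  obtain ⟨g, hg1', hg2', hg3', hg4'⟩ := hsel α β hα1 hβ1 m S S1 S2 S3 h12 h13 h23 hSm Y h₀
    (by linarith) hh0 (fun v _ => (hm v).2.1) hHw (by
    rw [← hV]
    have f1 : (S.card : ℝ) * (C * V / Y) ≤ c / 4 * V := by
      calc (S.card : ℝ) * (C * V / Y) ≤ 2 * Real.log X * (C * V / Y) :=
            mul_le_mul_of_nonneg_right hScl (by positivity)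
        _ = (2 * Real.log X * C / Real.log X ^ 2) * V := by
            rw [hY]
            ring
        _ ≤ c / 4 * V := mul_le_mul_of_nonneg_right hg1 hV0.le
    have f2 : ((S.card : ℝ) + 3) * (C * (1 + 1 / h₀)) ≤ c / 4 * V := by
      have f3 : 1 / h₀ = 16 ^ d * X ^ (5 / 4 * κ) := by
        rw [hh₀, one_div_one_div]
      rw [f3]
      calc ((S.card : ℝ) + 3) * (C * (1 + 16 ^ d * X ^ (5 / 4 * κ))) ≤
          (2 * Real.log X + 3) * (C * (1 + 16 ^ d * X ^ (5 / 4 * κ))) :=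
            mul_le_mul_of_nonneg_right (by linarith) (by positivity)
        _ ≤ c / 4 * X ^ (3 / 2 * κ) := hg2
        _ ≤ c / 4 * V := mul_le_mul_of_nonneg_left hVge (by positivity)
    have f4 : 0 < c * V := by positivity
    linarith)
  refine ⟨pt g, hg3'.pt, hg4', ?_⟩
  have h1 := norm_sp hg3' m ∅ (fun v hv => absurd hv (Finset.notMem_empty v))
  rw [Finset.empty_sdiff, Finset.prod_empty, one_pow, mul_one] at h1
  have h2 := norm_abc_le (show 0 < 2 * α by linarith) (show 0 < 2 * β by linarith)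
    (by linarith) g
  have h3 := Hw_le_one (show 0 < 2 * α by linarith) (show 0 < 2 * β by linarith) hg2'
  have h4 := Hw_nonneg (K := K) (β := 2 * β) (show 0 < 2 * α by linarith) g
  have h5 : Hw (2 * α) (2 * β) g ^ 3 ≤ 1 := pow_le_one₀ h4 h3
  rw [← hd, hA2, hB2] at h2
  have e1 : (2 : ℝ) ^ d * (2 ^ d * (A * X ^ κ)) * (2 ^ d * (B * X ^ κ)) ^ 2 =
      16 ^ d * (A * B ^ 2) * X ^ (3 * κ) := by
    have t1 : (16 : ℝ) ^ d = 2 ^ d * 2 ^ d * 2 ^ d * 2 ^ d := by
      rw [← mul_pow, ← mul_pow, ← mul_pow]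
      norm_num
    have t2 : X ^ (3 * κ) = (X ^ κ) ^ 3 := by
      rw [← Real.rpow_natCast, ← Real.rpow_mul hXp.le]
      congr 1
      push_cast
      ring
    rw [t1, t2]
    ring
  rw [e1] at h2
  rw [← hN, ← hLv]
  calc nn (sp (pt g)) ≤ 16 ^ d * (A * B ^ 2) * X ^ (3 * κ) * Hw (2 * α) (2 * β) g ^ 3 := h1.trans h2
    _ ≤ 16 ^ d * (A * B ^ 2) * X ^ (3 * κ) * 1 := mul_le_mul_of_nonneg_left h5 (by positivity)
    _ = 16 ^ d * ((A * B ^ 2) * X ^ (3 * κ)) := by ring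
    _ ≤ _ := by
        refine mul_le_mul_of_nonneg_left ?_ (by positivity)
        exact mul_le_mul_of_nonneg_right hl1 (by positivity)

end Pool.Agent.T6.H44.DIV
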