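import Pool.Agent.T6.H44.DIV.Gen

/-!
Points of `a + b + c = 0` over a number field, of all heights, with radical at most `X` and a prime
of norm at least `P`: at most `D X ^ ε (X / P)`.
-/

set_option autoImplicit false

namespace Pool.Agent.T6.H44.DIV

open Finset NumberField IsDedekindDomain Pool.Agent.H691R3 Pool.Agent.TH876.Loc
open Pool.Agent.TH876.KR (InP aw log_Nv_pos' log_nn side mem_side df_eq_zero Light Sc rho rho_gt
  scales all_heights rr_sum' side_sub rr rr_nonneg side_uniq mem_sp_iff side_sum)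
open Pool.Agent.Y728

variable {K : Type} [Field K] [NumberField K]

theorem three_cases {A B E : Fin 3} (hAB : A ≠ B) (hBE : B ≠ E) (hAE : A ≠ E) (f : Fin 3 → ℝ) :
    f 0 + f 1 + f 2 = f A + f B + f E := by
  fin_cases A <;> fin_cases B <;> fin_cases E <;> simp at hAB hBE hAE ⊢ <;> ring

theorem others (B : Fin 3) : ∃ A E : Fin 3, A ≠ B ∧ B ≠ E ∧ A ≠ E := by
  fin_cases B
  · exact ⟨1, 2, by decide, by decide, by decide⟩
  · exact ⟨0, 2, by decide, by decide, by decide⟩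
  · exact ⟨0, 1, by decide, by decide, by decide⟩

open Classical in
/-- the class of a point with a given prime -/
theorem InP_erase {k : ℕ} (hk : 1 ≤ k) {x : K} (hx : Pt x) (h0 : 0 ≤ hgt x) {p : Pr K}
    (hp : p ∈ sp x) : ∃ A B E : Fin 3, A ≠ B ∧ B ≠ E ∧ A ≠ E ∧
      InP k ((sp x).erase p) A B E x p := by
  obtain ⟨B, hB⟩ := (mem_sp_iff hx p).1 hp
  obtain ⟨A, E, hAB, hBE, hAE⟩ := others B
  have hk1 : (1 : ℝ) ≤ k := by exact_mod_cast hk
  have hother : ∀ j : Fin 3, j ≠ B → side j x ⊆ (sp x).erase p := by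
    intro j hj q hq
    rw [Finset.mem_erase]
    refine ⟨?_, side_sub j x hq⟩
    rintro rfl
    exact hj (side_uniq hq hB)
  refine ⟨A, B, E, hAB, hBE, hAE, ?_⟩
  refine { pS := Finset.notMem_erase _ _, pB := hB, fB := ?_, fC := hother E hBE.symm, wt := ?_ }
  · intro q hq
    rw [Finset.insert_erase hp]
    exact side_sub B x hq
  · have h1 := side_sum hx A
    have h2 : ∑ v ∈ side A x, df (Sum.inr v : Pl K) A x ≤
        ∑ v ∈ (sp x).erase p, df (Sum.inr v : Pl K) A x :=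
      Finset.sum_le_sum_of_subset_of_nonneg (hother A hAB) fun v _ _ => df_nonneg _ A hx
    have h3 : hgt x / k ≤ hgt x := div_le_self h0 hk1
    linarith

theorem nn_erase [DecidableEq (Pr K)] {S : Finset (Pr K)} {p : Pr K} (hp : p ∈ S) : nn (S.erase p) * Nv p = nn S := by
  unfold nn
  rw [mul_comm]
  exact Finset.mul_prod_erase S Nv hp

/-- the two sides without a given prime -/
theorem pair_sides {x : K} (hx : Pt x) {p : Pr K} (hp : p ∈ sp x) :
    ∃ i j : Fin 3, i ≠ j ∧ rr i x + rr j x ≤ Real.log (nn (sp x)) - Real.log (Nv p) := by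
  obtain ⟨B, hB⟩ := (mem_sp_iff hx p).1 hp
  obtain ⟨A, E, hAB, hBE, hAE⟩ := others B
  refine ⟨A, E, hAE, ?_⟩
  have h1 := three_cases hAB hBE hAE (fun i => rr i x)
  have h2 := rr_sum' hx
  have h3 : Real.log (Nv p) ≤ rr B x :=
    Finset.single_le_sum (f := fun v => Real.log (Nv v)) (fun v _ => (log_Nv_pos' v).le) hB
  linarith

/-- **points of all heights with radical at most `X` and a prime of norm at least `P`** -/
theorem prime_allK (K : Type) [Field K] [NumberField K] (ε : ℝ) (hε : 0 < ε) :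
    ∃ D : ℝ, 0 < D ∧ ∀ X P : ℝ, 1 ≤ X → 1 ≤ P →
    ∀ F : Finset K, (∀ x ∈ F, Pt x ∧ nn (sp x) ≤ X ∧ ∃ p ∈ sp x, P ≤ Nv p) →
    (F.card : ℝ) ≤ D * X ^ ε * (X / P) := by
  classical
  obtain ⟨h, r, Cc, εu, g, G⟩ := exists_GD K
  obtain ⟨k0, hk0⟩ : ∃ k0 : ℕ, 6 / ε ≤ k0 := exists_nat_ge _
  obtain ⟨k, hk⟩ : ∃ k, k = k0 + 9 := ⟨_, rfl⟩
  have hk9 : 9 ≤ k := by omega
  have hk1 : 1 ≤ k := by omega
  have hk9' : (9 : ℝ) ≤ k := by exact_mod_cast hk9
  have hkp : (0 : ℝ) < k := by exact_mod_cast hk1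
  have h1k : 0 < 1 / (k : ℝ) := by positivity
  have hkε : 6 / (k : ℝ) ≤ ε := by
    have h1 : 6 / ε ≤ (k : ℝ) := hk0.trans (by rw [hk]; push_cast; linarith)
    rw [div_le_iff₀ hε] at h1
    rw [div_le_iff₀ hkp]
    linarith
  obtain ⟨D0, hD0, hall'⟩ := mainK K ε hε
  obtain ⟨η, hη, L1, hL1, C1, hC1, hsmall⟩ := small_genK K ε hε
  obtain ⟨Ch, hCh, Xh, hXh, hhuge⟩ := few_high G
  obtain ⟨C, hC, D1, hD1, X1, hX1, hhigh⟩ := high_genK G hk1 8
    (Pool.Agent.Y492.fam_lightK K (by omega) 8)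
  obtain ⟨D2, hD2, X2, hX2, hlow'⟩ := low_genK K (k := k) (by omega) hC hη
  obtain ⟨D4, hD4, hlog⟩ := log_pow_leK 8 h1k
  have hρ := rho_gt hk1
  have hlρ : 0 < Real.log (rho k) := Real.log_pos hρ
  obtain ⟨X0, hX0e⟩ : ∃ X0, X0 = max (max X1 X2) (max Xh (Real.exp (L1 + 1))) := ⟨_, rfl⟩
  have hX016 : 16 ≤ X0 := by
    rw [hX0e]
    exact hX1.trans ((le_max_left _ _).trans (le_max_left _ _))
  have hX0p : 0 < X0 := by linarith
  obtain ⟨DD, hDD⟩ : ∃ DD, DD = C1 + Ch + D1 + (1 + 1 / Real.log (rho k)) * D4 * D2 := ⟨_, rfl⟩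
  have hDD0 : 0 < DD := by rw [hDD]; positivity
  refine ⟨D0 + D0 * X0 ^ (2 / 3 + ε) + DD, by positivity, fun X P hX hP F hF => ?_⟩
  have hXp : 0 < X := by linarith
  have hPp : 0 < P := by linarith
  have hXe1 : 1 ≤ X ^ ε := Real.one_le_rpow hX hε.le
  rcases F.eq_empty_or_nonempty with he | ⟨t0, ht0⟩
  · rw [he, Finset.card_empty, Nat.cast_zero]
    positivity
  have hXPp : 0 < X / P := by positivity
  have hlogP : ∀ x ∈ F, ∃ i j : Fin 3, i ≠ j ∧ rr i x + rr j x ≤ Real.log (X / P) := by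
    intro x hx
    obtain ⟨a1, a2, p, a3, a4⟩ := hF x hx
    obtain ⟨i, j, hij, h1⟩ := pair_sides a1 a3
    refine ⟨i, j, hij, ?_⟩
    rw [Real.log_div hXp.ne' hPp.ne']
    have h2 := Real.log_le_log hPp a4
    have h3 := Real.log_le_log (nn_pos _) a2
    linarith
  have hXP0 : 0 ≤ Real.log (X / P) := by
    obtain ⟨i, j, -, h1⟩ := hlogP t0 ht0
    have h2 := rr_nonneg i t0
    have h3 := rr_nonneg j t0
    linarith
  have hXP1 : 1 ≤ X / P := by
    by_contra hcon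
    rw [not_le] at hcon
    have := Real.log_neg hXPp hcon
    linarith
  have hXPX : X / P ≤ X := div_le_self hXp.le hP
  have hY0 : 1 ≤ X ^ ε * (X / P) := one_le_mul_of_one_le_of_one_le hXe1 hXP1
  have hallF := hall' X hX F fun x hx => ⟨(hF x hx).1, (hF x hx).2.1⟩
  rcases le_or_gt P (X ^ (1 / 3 : ℝ)) with hc | hc
  · -- `P` small
    have h2 : X ^ (2 / 3 : ℝ) ≤ X / P := by
      rw [le_div_iff₀ hPp]
      calc X ^ (2 / 3 : ℝ) * P ≤ X ^ (2 / 3 : ℝ) * X ^ (1 / 3 : ℝ) :=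
            mul_le_mul_of_nonneg_left hc (by positivity)
        _ = X := by
            rw [← Real.rpow_add hXp]
            norm_num
    have h3 : D0 * X ^ (2 / 3 + ε) ≤ D0 * (X ^ ε * (X / P)) := by
      rw [Real.rpow_add hXp, mul_comm (X ^ (2 / 3 : ℝ))]
      exact mul_le_mul_of_nonneg_left (mul_le_mul_of_nonneg_left h2 (by positivity)) hD0.le
    have h4 : 0 ≤ (D0 * X0 ^ (2 / 3 + ε) + DD) * (X ^ ε * (X / P)) := by positivity
    calc (F.card : ℝ) ≤ D0 * (X ^ ε * (X / P)) := hallF.trans h3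
      _ ≤ D0 * (X ^ ε * (X / P)) + (D0 * X0 ^ (2 / 3 + ε) + DD) * (X ^ ε * (X / P)) := by linarith
      _ = _ := by ring
  rcases lt_or_ge X X0 with hsm | hlarge
  · -- small `X`
    have h2 : X ^ (2 / 3 + ε) ≤ X0 ^ (2 / 3 + ε) :=
      Real.rpow_le_rpow hXp.le hsm.le (by positivity)
    have h3 : D0 * X ^ (2 / 3 + ε) ≤ D0 * X0 ^ (2 / 3 + ε) * (X ^ ε * (X / P)) := by
      calc D0 * X ^ (2 / 3 + ε) ≤ D0 * X0 ^ (2 / 3 + ε) * 1 := by
            rw [mul_one]
            exact mul_le_mul_of_nonneg_left h2 hD0.le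
        _ ≤ _ := mul_le_mul_of_nonneg_left hY0 (by positivity)
    have h4 : 0 ≤ (D0 + DD) * (X ^ ε * (X / P)) := by positivity
    calc (F.card : ℝ) ≤ D0 * X0 ^ (2 / 3 + ε) * (X ^ ε * (X / P)) := hallF.trans h3
      _ ≤ D0 * X0 ^ (2 / 3 + ε) * (X ^ ε * (X / P)) + (D0 + DD) * (X ^ ε * (X / P)) := by linarith
      _ = _ := by ring
  have hXX : max X1 X2 ≤ X := by
    rw [hX0e] at hlarge
    exact (le_max_left _ _).trans hlarge
  have hXX1 : X1 ≤ X := (le_max_left _ _).trans hXX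
  have hXX2 : X2 ≤ X := (le_max_right _ _).trans hXX
  have hXX5 : Xh ≤ X := by
    rw [hX0e] at hlarge
    exact ((le_max_left _ _).trans (le_max_right _ _)).trans hlarge
  have hXL1 : Real.exp (L1 + 1) ≤ X := by
    rw [hX0e] at hlarge
    exact ((le_max_right _ _).trans (le_max_right _ _)).trans hlarge
  obtain ⟨L, hL⟩ : ∃ L, L = Real.log X := ⟨_, rfl⟩
  have hLL2 : L1 + 1 ≤ L := by rw [hL, Real.le_log_iff_exp_le hXp]; exact hXL1
  have hLL1 : L1 ≤ L := by linarith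
  have hL1' : 1 ≤ L := hL1.trans hLL1
  have hL0 : 0 < L := by linarith
  obtain ⟨l0, hl0⟩ : ∃ l0, l0 = L ^ (2 + η) := ⟨_, rfl⟩
  have hl0L : L ≤ l0 := by
    have h1 : L ^ (1 : ℝ) ≤ L ^ (2 + η) := Real.rpow_le_rpow_of_exponent_le hL1' (by linarith)
    rw [Real.rpow_one] at h1
    rw [hl0]
    exact h1
  have hl01 : 1 ≤ l0 := by linarith
  have hl00 : 0 < l0 := by linarith
  obtain ⟨H, hH⟩ : ∃ H, H = Real.exp (L ^ 8) := ⟨_, rfl⟩
  have hlH : Real.log H = L ^ 8 := by rw [hH, Real.log_exp]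
  have hH1 : 1 ≤ H := by
    rw [hH]
    exact Real.one_le_exp (by positivity)
  have hlogH : 1 + Real.log H ≤ D4 * X ^ (1 / (k : ℝ)) := by
    rw [hlH, hL]
    exact hlog X hX
  obtain ⟨M, hM⟩ : ∃ M, M = X / P := ⟨_, rfl⟩
  have hM1 : 1 ≤ M := by rw [hM]; exact hXP1
  have hMX : M ≤ X := by rw [hM]; exact hXPX
  have hM0 : 0 < M := by linarith
  have hM2 : M * X ^ (2 / (k : ℝ)) ≤ X := by
    have h1 : X ^ (2 / (k : ℝ)) ≤ X ^ (1 / 3 : ℝ) := by
      refine Real.rpow_le_rpow_of_exponent_le hX ?_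
      rw [div_le_div_iff₀ hkp (by norm_num)]
      linarith
    calc M * X ^ (2 / (k : ℝ)) ≤ (X / P) * P := by
          rw [hM]
          exact mul_le_mul_of_nonneg_left (h1.trans hc.le) hXPp.le
      _ = X := div_mul_cancel₀ _ hPp.ne'
  -- the parts
  obtain ⟨F1, hF1⟩ : ∃ F1, F1 = F.filter fun x => hgt x ≤ l0 := ⟨_, rfl⟩
  obtain ⟨F2, hF2⟩ : ∃ F2, F2 = F.filter fun x => H < hgt x := ⟨_, rfl⟩
  obtain ⟨FH, hFH⟩ : ∃ FH, FH = F.filter fun x => (l0 ≤ hgt x ∧ hgt x ≤ H) ∧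
    ∃ (S : Finset (Pr K)) (A B E : Fin 3) (p : Pr K), nn S ≤ M ∧
        A ≠ B ∧ B ≠ E ∧ A ≠ E ∧ InP k S A B E x p ∧ Nv p ≤ X ∧
        (C * L) ^ S.card * X ^ (1 / (k : ℝ)) < hgt x := ⟨_, rfl⟩
  obtain ⟨FW, hFW⟩ : ∃ FW, FW = F.filter fun x => (l0 ≤ hgt x ∧ hgt x ≤ H) ∧
    ∃ (S : Finset (Pr K)) (A B E : Fin 3) (p : Pr K), nn S ≤ M ∧
        A ≠ B ∧ B ≠ E ∧ A ≠ E ∧ InP k S A B E x p ∧ Nv p ≤ X ∧
        hgt x ≤ (C * L) ^ S.card * X ^ (1 / (k : ℝ)) := ⟨_, rfl⟩
  have hcov : F ⊆ F1 ∪ (F2 ∪ (FH ∪ FW)) := by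
    intro x hx
    obtain ⟨a1, a2, p, a3, a4⟩ := hF x hx
    rcases le_or_gt (hgt x) l0 with h1 | h1
    · refine Finset.mem_union_left _ ?_
      rw [hF1]
      exact Finset.mem_filter.2 ⟨hx, h1⟩
    refine Finset.mem_union_right _ ?_
    rcases lt_or_ge H (hgt x) with h2 | h2
    · refine Finset.mem_union_left _ ?_
      rw [hF2]
      exact Finset.mem_filter.2 ⟨hx, h2⟩
    refine Finset.mem_union_right _ ?_
    have hh0 : 0 < hgt x := by linarith
    obtain ⟨A, B, E, hAB, hBE, hAE, hPP⟩ := InP_erase hk1 a1 hh0.le a3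
    have hnnS : nn ((sp x).erase p) ≤ M := by
      rw [hM, le_div_iff₀ hPp]
      calc nn ((sp x).erase p) * P ≤ nn ((sp x).erase p) * Nv p :=
            mul_le_mul_of_nonneg_left a4 (nn_pos _).le
        _ = nn (sp x) := nn_erase a3
        _ ≤ X := a2
    have hpX : Nv p ≤ X := (Nv_le_nn a3).trans a2
    rcases lt_or_ge ((C * L) ^ ((sp x).erase p).card * X ^ (1 / (k : ℝ))) (hgt x) with h3 | h3
    · refine Finset.mem_union_left _ ?_
      rw [hFH]
      exact Finset.mem_filter.2 ⟨hx, ⟨h1.le, h2⟩, _, A, B, E, p, hnnS, hAB, hBE, hAE, hPP, hpX, h3⟩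
    · refine Finset.mem_union_right _ ?_
      rw [hFW]
      exact Finset.mem_filter.2 ⟨hx, ⟨h1.le, h2⟩, _, A, B, E, p, hnnS, hAB, hBE, hAE, hPP, hpX, h3⟩
  have d1 : (F1.card : ℝ) ≤ C1 * (X ^ ε * M) := by
    have h1 := hsmall X hX (by rw [← hL]; exact hLL1) (Real.log (X / P)) hXP0
      (Real.log_le_log hXPp hXPX) F1
      (fun x hx => by
        rw [hF1, mem_filter] at hx
        exact ⟨(hF x hx.1).1, hlogP x hx.1, by rw [← hL, ← hl0]; exact hx.2⟩)
    rw [Real.exp_log hXPp, ← hM, mul_assoc] at h1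
    exact h1
  have d2 : (F2.card : ℝ) ≤ Ch := hhuge X hXX5 F2 (fun x hx => by
      rw [hF2, mem_filter] at hx
      exact ⟨(hF x hx.1).1, (hF x hx.1).2.1, by rw [← hL, ← hH]; exact hx.2⟩)
  have hexp : ∀ a : ℝ, a ≤ 6 → X ^ (a / (k : ℝ)) ≤ X ^ ε := by
    intro a ha
    refine Real.rpow_le_rpow_of_exponent_le hX ?_
    have : a / (k : ℝ) ≤ 6 / k := div_le_div_of_nonneg_right ha hkp.le
    linarith
  -- large heights
  have dH : (FH.card : ℝ) ≤ D1 * (X ^ ε * M) := by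
    have h1 := hhigh X hXX1 M hM1 hMX FH (fun x hx => by
      rw [hFH, mem_filter] at hx
      obtain ⟨b1, ⟨b2, b3⟩, b4⟩ := hx
      rw [← hL]
      exact ⟨(hF x b1).1, by rw [← hH]; exact b3, b4⟩)
    calc (FH.card : ℝ) ≤ D1 * M * X ^ (4 / (k : ℝ)) := h1
      _ ≤ D1 * M * X ^ ε := mul_le_mul_of_nonneg_left (hexp 4 (by norm_num)) (by positivity)
      _ = _ := by ring
  -- small heights
  have dW : (FW.card : ℝ) ≤ (1 + 1 / Real.log (rho k)) * D4 * D2 * (X ^ ε * M) := by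
    rcases lt_or_ge H l0 with hHl | hHl
    · have : FW = ∅ := by
        rw [Finset.eq_empty_iff_forall_notMem]
        intro x hx
        rw [hFW, mem_filter] at hx
        obtain ⟨b1, ⟨b2, b3⟩, b4⟩ := hx
        linarith
      rw [this, Finset.card_empty, Nat.cast_zero]
      positivity
    obtain ⟨J, hJ, hcard⟩ := scales hk1 hl00 hHl FW (by
      intro x hx
      rw [hFW, mem_filter] at hx
      exact hx.2.1)
    have h1 : ∀ j ∈ Finset.range (J + 1), ((FW.filter fun x => Sc k (l0 * rho k ^ j) x).card : ℝ) ≤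
        D2 * M * X ^ (3 / (k : ℝ)) := by
      intro j _
      have p1 : 1 ≤ rho k ^ j := one_le_pow₀ hρ.le
      have p2 : l0 ≤ l0 * rho k ^ j := le_mul_of_one_le_right hl00.le p1
      refine hlow' X hXX2 M hM1 hM2 (l0 * rho k ^ j) (by rw [← hL, ← hl0]; exact p2) _ ?_
      intro x hx
      obtain ⟨h2, h3⟩ := Finset.mem_filter.1 hx
      rw [hFW, mem_filter] at h2
      obtain ⟨b1, _, S, A, B, E, p, c1, c2, c3, c4, c5, c6, c7⟩ := h2
      refine ⟨(hF x b1).1, h3, S, A, B, E, p, c1, c2, c3, c4, c5, c6, ?_⟩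
      rw [← hL]
      exact h3.1.trans c7
    have h2 : (FW.card : ℝ) ≤ ∑ j ∈ Finset.range (J + 1),
        ((FW.filter fun x => Sc k (l0 * rho k ^ j) x).card : ℝ) := by exact_mod_cast hcard
    have h4 := h2.trans (Finset.sum_le_sum h1)
    rw [Finset.sum_const, Finset.card_range, nsmul_eq_mul] at h4
    have hJ1 : ((J + 1 : ℕ) : ℝ) ≤ (1 + 1 / Real.log (rho k)) * D4 * X ^ (1 / (k : ℝ)) := by
      have e1 : rho k ^ J ≤ H := by
        refine le_trans ?_ hJ
        exact le_mul_of_one_le_left (by positivity) hl01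
      have e2 := Real.log_le_log (by positivity) e1
      rw [Real.log_pow] at e2
      have e3 : (J : ℝ) ≤ 1 / Real.log (rho k) * Real.log H := by
        rw [one_div, ← div_eq_inv_mul, le_div_iff₀ hlρ]
        exact e2
      have e4 : 0 ≤ Real.log H := Real.log_nonneg hH1
      have e5 : 0 < 1 / Real.log (rho k) := by positivity
      calc ((J + 1 : ℕ) : ℝ) = (J : ℝ) + 1 := by push_cast; ring
        _ ≤ (1 + 1 / Real.log (rho k)) * (1 + Real.log H) := by
            have : (1 + 1 / Real.log (rho k)) * (1 + Real.log H) =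
              1 + Real.log H + 1 / Real.log (rho k) + 1 / Real.log (rho k) * Real.log H := by ring
            rw [this]
            linarith only [e3, e4, e5]
        _ ≤ (1 + 1 / Real.log (rho k)) * (D4 * X ^ (1 / (k : ℝ))) :=
            mul_le_mul_of_nonneg_left hlogH (by positivity)
        _ = _ := by ring
    have c0 : 0 ≤ (1 + 1 / Real.log (rho k)) * D4 * D2 := by
      have : 0 < 1 / Real.log (rho k) := by positivity
      positivity
    calc (FW.card : ℝ) ≤ ((J + 1 : ℕ) : ℝ) * (D2 * M * X ^ (3 / (k : ℝ))) := h4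
      _ ≤ ((1 + 1 / Real.log (rho k)) * D4 * X ^ (1 / (k : ℝ))) *
            (D2 * M * X ^ (3 / (k : ℝ))) := mul_le_mul_of_nonneg_right hJ1 (by positivity)
      _ = (1 + 1 / Real.log (rho k)) * D4 * D2 *
          (X ^ (1 / (k : ℝ)) * X ^ (3 / (k : ℝ)) * M) := by ring
      _ = (1 + 1 / Real.log (rho k)) * D4 * D2 * (X ^ (4 / (k : ℝ)) * M) := by
          rw [← Real.rpow_add hXp]
          congr 3
          ring
      _ ≤ _ := mul_le_mul_of_nonneg_left
          (mul_le_mul_of_nonneg_right (hexp 4 (by norm_num)) hM0.le) c0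
  have hcard : (F.card : ℝ) ≤ F1.card + (F2.card + (FH.card + FW.card)) := by
    have h1 := Finset.card_le_card hcov
    have h2 := Finset.card_union_le F1 (F2 ∪ (FH ∪ FW))
    have h3 := Finset.card_union_le F2 (FH ∪ FW)
    have h5 := Finset.card_union_le FH FW
    have h6 : F.card ≤ F1.card + (F2.card + (FH.card + FW.card)) := by omega
    exact_mod_cast h6
  rw [← hM] at hY0 ⊢
  have hCh' : Ch ≤ Ch * (X ^ ε * M) := le_mul_of_one_le_right hCh.le hY0
  have hPP : 0 ≤ (D0 + D0 * X0 ^ (2 / 3 + ε)) * (X ^ ε * M) := by positivity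
  calc (F.card : ℝ) ≤ C1 * (X ^ ε * M) + (Ch * (X ^ ε * M) + (D1 * (X ^ ε * M) +
        (1 + 1 / Real.log (rho k)) * D4 * D2 * (X ^ ε * M))) := by
        linarith only [hcard, d1, d2, dH, dW, hCh']
    _ = DD * (X ^ ε * M) := by rw [hDD]; ring
    _ ≤ (D0 + D0 * X0 ^ (2 / 3 + ε)) * (X ^ ε * M) + DD * (X ^ ε * M) := by
        linarith only [hPP]
    _ = _ := by ring

end Pool.Agent.T6.H44.DIV
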