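import Pool.Agent.T6.H44.DIV.Val

/-!
A vector of the lattice all of whose prescribed primes are primes of the point.
-/

set_option autoImplicit false

namespace Pool.Agent.T6.H44.DIV

open Finset NumberField IsDedekindDomain Pool.Agent.H691R3 Pool.Agent.TH876.Loc

variable {K : Type} [Field K] [NumberField K]

/-- the three ideals -/
noncomputable def tri (m : Pr K → ℕ) (S1 S2 S3 : Finset (Pr K)) : Fin 3 → Ideal (𝓞 K) :=
  ![pr m S1, pr m S2, pr m S3]

/-- the product of the powers -/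
noncomputable def nm (m : Pr K → ℕ) (S : Finset (Pr K)) : ℝ := ∏ v ∈ S, Nv v ^ m v

theorem nm_pos (m : Pr K → ℕ) (S : Finset (Pr K)) : 0 < nm m S :=
  Finset.prod_pos fun v _ => pow_pos (Nv_pos v) _

theorem NI_tri (m : Pr K → ℕ) (S1 S2 S3 : Finset (Pr K)) :
    NI (tri m S1 S2 S3) = nm m S1 * nm m S2 * nm m S3 := by
  unfold NI tri nm
  rw [← absNorm_pr, ← absNorm_pr, ← absNorm_pr]
  rfl

theorem tri_ne (m : Pr K → ℕ) (S1 S2 S3 : Finset (Pr K)) (i : Fin 3) :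
    tri m S1 S2 S3 i ≠ ⊥ := by
  unfold tri
  fin_cases i <;> exact pr_ne_bot _ _

theorem InL_tri {m : Pr K → ℕ} {S1 S2 S3 : Finset (Pr K)} {g : 𝓞 K × 𝓞 K} :
    InL (tri m S1 S2 S3) g ↔ (∀ v ∈ S1, g.1 ∈ v.asIdeal ^ m v) ∧
      (∀ v ∈ S2, g.2 ∈ v.asIdeal ^ m v) ∧ (∀ v ∈ S3, g.1 + g.2 ∈ v.asIdeal ^ m v) := by
  rw [← mem_pr, ← mem_pr, ← mem_pr]
  rfl

theorem nm_insert [DecidableEq (Pr K)] {m : Pr K → ℕ} {S : Finset (Pr K)} {v : Pr K}
    (h : v ∉ S) : nm m (insert v S) = Nv v ^ m v * nm m S := by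
  unfold nm
  rw [Finset.prod_insert h]

/-- the vectors for which a prescribed prime is not a prime of the point lie in a smaller lattice -/
theorem small_lattice {m : Pr K → ℕ} {S1 S2 S3 : Finset (Pr K)} (h12 : Disjoint S1 S2)
    (h13 : Disjoint S1 S3) (h23 : Disjoint S2 S3) {v : Pr K} (hv : v ∈ S1 ∨ v ∈ S2 ∨ v ∈ S3) :
    ∃ I : Fin 3 → Ideal (𝓞 K), (∀ i, I i ≠ ⊥) ∧ Function.Surjective (cls I) ∧
      NI I = Nv v ^ m v * (nm m S1 * nm m S2 * nm m S3) ∧
      ∀ g : 𝓞 K × 𝓞 K, InL (tri m S1 S2 S3) g → Nz g → v ∉ sp (pt g) → InL I g := by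
  classical
  rw [Finset.disjoint_left] at h12 h13 h23
  have key : ∀ g : 𝓞 K × 𝓞 K, InL (tri m S1 S2 S3) g → Nz g → v ∉ sp (pt g) →
      g.1 ∈ v.asIdeal ^ m v ∧ g.2 ∈ v.asIdeal ^ m v ∧ g.1 + g.2 ∈ v.asIdeal ^ m v := by
    intro g hg hz hn
    rw [InL_tri] at hg
    refine all_div hz hn ?_
    rcases hv with h | h | h
    · exact Or.inl (hg.1 v h)
    · exact Or.inr (Or.inl (hg.2.1 v h))
    · exact Or.inr (Or.inr (hg.2.2 v h))
  rcases hv with hv | hv | hv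
  · have hv2 : v ∉ S2 := h12 hv
    refine ⟨tri m S1 (insert v S2) S3, tri_ne _ _ _ _, surj_a ?_ ?_, ?_, fun g hg hz hn => ?_⟩
    · refine coprime_pr ?_
      rw [Finset.disjoint_left]
      exact h13
    · refine coprime_pr ?_
      rw [Finset.disjoint_left]
      intro u hu
      rcases Finset.mem_insert.1 hu with rfl | hu
      · exact h13 hv
      · exact h23 hu
    · rw [NI_tri, nm_insert hv2]
      ring
    · obtain ⟨a1, a2, a3⟩ := key g hg hz hn
      rw [InL_tri] at hg ⊢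
      refine ⟨hg.1, fun u hu => ?_, hg.2.2⟩
      rcases Finset.mem_insert.1 hu with rfl | hu
      · exact a2
      · exact hg.2.1 u hu
  · have hv1 : v ∉ S1 := fun h => h12 h hv
    refine ⟨tri m (insert v S1) S2 S3, tri_ne _ _ _ _, surj_a ?_ ?_, ?_, fun g hg hz hn => ?_⟩
    · refine coprime_pr ?_
      rw [Finset.disjoint_left]
      intro u hu
      rcases Finset.mem_insert.1 hu with rfl | hu
      · exact h23 hv
      · exact h13 hu
    · refine coprime_pr ?_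
      rw [Finset.disjoint_left]
      exact h23
    · rw [NI_tri, nm_insert hv1]
      ring
    · obtain ⟨a1, a2, a3⟩ := key g hg hz hn
      rw [InL_tri] at hg ⊢
      refine ⟨fun u hu => ?_, hg.2.1, hg.2.2⟩
      rcases Finset.mem_insert.1 hu with rfl | hu
      · exact a1
      · exact hg.1 u hu
  · have hv1 : v ∉ S1 := fun h => h13 h hv
    refine ⟨tri m (insert v S1) S2 S3, tri_ne _ _ _ _, surj_b ?_ ?_, ?_, fun g hg hz hn => ?_⟩
    · refine coprime_pr ?_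
      rw [Finset.disjoint_left]
      intro u hu
      rcases Finset.mem_insert.1 hu with rfl | hu
      · exact fun h => h23 h hv
      · exact h12 hu
    · refine coprime_pr ?_
      rw [Finset.disjoint_left]
      exact fun u hu h => h23 h hu
    · rw [NI_tri, nm_insert hv1]
      ring
    · obtain ⟨a1, a2, a3⟩ := key g hg hz hn
      rw [InL_tri] at hg ⊢
      refine ⟨fun u hu => ?_, hg.2.1, hg.2.2⟩
      rcases Finset.mem_insert.1 hu with rfl | hu
      · exact a1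
      · exact hg.1 u hu

theorem InL.sub {I : Fin 3 → Ideal (𝓞 K)} {g g' : 𝓞 K × 𝓞 K} (h : InL I g) (h' : InL I g') :
    InL I (g - g') := by
  obtain ⟨a1, a2, a3⟩ := h
  obtain ⟨b1, b2, b3⟩ := h'
  refine ⟨(I 0).sub_mem a1 b1, (I 1).sub_mem a2 b2, ?_⟩
  have e : (g - g').1 + (g - g').2 = (g.1 + g.2) - (g'.1 + g'.2) := by
    rw [Prod.fst_sub, Prod.snd_sub]
    ring
  rw [e]
  exact (I 2).sub_mem a3 b3

variable (K) in
/-- **the selection of a vector** -/
theorem select : ∃ c C : ℝ, 0 < c ∧ 0 < C ∧ ∀ α β : ℝ, 1 ≤ α → 1 ≤ β → ∀ m : Pr K → ℕ,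
    ∀ S S1 S2 S3 : Finset (Pr K), Disjoint S1 S2 → Disjoint S1 S3 → Disjoint S2 S3 →
    (∀ v ∈ S, v ∈ S1 ∨ v ∈ S2 ∨ v ∈ S3) → ∀ Y h₀ : ℝ, 0 < Y → 0 < h₀ →
    (∀ v ∈ S, Y ≤ Nv v ^ m v) →
    (∀ g : 𝓞 K × 𝓞 K, g ≠ 0 → InL (tri m S1 S2 S3) g → h₀ ≤ Hw (2 * α) (2 * β) g) →
    S.card * (C * (α ^ Module.finrank ℚ K * β ^ Module.finrank ℚ K /
      (nm m S1 * nm m S2 * nm m S3)) / Y) + (S.card + 3) * (C * (1 + 1 / h₀)) <
      c * (α ^ Module.finrank ℚ K * β ^ Module.finrank ℚ K /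
        (nm m S1 * nm m S2 * nm m S3)) →
    ∃ g : 𝓞 K × 𝓞 K, InL (tri m S1 S2 S3) g ∧ InB (2 * α) (2 * β) g ∧ Nz g ∧
      ∀ v ∈ S, v ∈ sp (pt g) := by
  classical
  obtain ⟨c, hc, hmany⟩ := many_vectors K
  obtain ⟨C1, hC1, hone⟩ := one_dim K
  obtain ⟨C2, hC2, htwo⟩ := two_dim K
  refine ⟨c, C1 + C2 * 4 ^ Module.finrank ℚ K, hc, by positivity, ?_⟩
  intro α β hα hβ m S S1 S2 S3 h12 h13 h23 hS Y h₀ hY hh hYm hH hbig
  have hα0 : 0 < α := by linarith
  have hβ0 : 0 < β := by linarith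
  obtain ⟨N, hN⟩ : ∃ N, N = nm m S1 * nm m S2 * nm m S3 := ⟨_, rfl⟩
  have hN0 : 0 < N := by
    rw [hN]
    exact mul_pos (mul_pos (nm_pos _ _) (nm_pos _ _)) (nm_pos _ _)
  obtain ⟨V, hV⟩ : ∃ V, V = α ^ Module.finrank ℚ K * β ^ Module.finrank ℚ K / N := ⟨_, rfl⟩
  have hV0 : 0 < V := by rw [hV]; positivity
  rw [← hN, ← hV] at hbig
  obtain ⟨E, hE⟩ : ∃ E, E = 1 + 1 / h₀ := ⟨_, rfl⟩
  have hE0 : 0 < E := by rw [hE]; positivity
  rw [← hE] at hbig
  obtain ⟨G, hG, hGc⟩ := hmany α β hα hβ (tri m S1 S2 S3) (tri_ne _ _ _ _)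
  rw [NI_tri, ← hN] at hGc
  have hGc' : c * V ≤ G.card := by
    rw [hV, ← mul_div_assoc, div_le_iff₀ hN0]
    exact hGc
  by_contra hcon
  push Not at hcon
  -- vectors on a line
  have hline : ∀ T : Finset (𝓞 K × 𝓞 K), T ⊆ G →
      (∀ g ∈ T, ∀ g' ∈ T, g.1 * g'.2 = g.2 * g'.1) → (T.card : ℝ) ≤ C1 * E := by
    intro T hT hl
    rw [hE]
    refine hone (2 * α) (2 * β) h₀ (by positivity) (by positivity) hh T
      (fun g hg => (hG g (hT hg)).2) hl ?_
    intro g hg g' hg' hne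
    exact hH _ (sub_ne_zero.2 hne) ((hG g (hT hg)).1.sub (hG g' (hT hg')).1)
  obtain ⟨T1, hT1⟩ : ∃ T1, T1 = G.filter fun g => g.1 = 0 := ⟨_, rfl⟩
  obtain ⟨T2, hT2⟩ : ∃ T2, T2 = G.filter fun g => g.2 = 0 := ⟨_, rfl⟩
  obtain ⟨T3, hT3⟩ : ∃ T3, T3 = G.filter fun g => g.1 + g.2 = 0 := ⟨_, rfl⟩
  obtain ⟨Gv, hGv⟩ : ∃ Gv : Pr K → Finset (𝓞 K × 𝓞 K), Gv = fun v => G.filter fun g =>
      Nz g ∧ v ∉ sp (pt g) := ⟨_, rfl⟩
  have k1 : (T1.card : ℝ) ≤ C1 * E := by
    refine hline T1 (by rw [hT1]; exact Finset.filter_subset _ _) ?_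
    intro g hg g' hg'
    rw [hT1, Finset.mem_filter] at hg hg'
    rw [hg.2, hg'.2]
    ring
  have k2 : (T2.card : ℝ) ≤ C1 * E := by
    refine hline T2 (by rw [hT2]; exact Finset.filter_subset _ _) ?_
    intro g hg g' hg'
    rw [hT2, Finset.mem_filter] at hg hg'
    rw [hg.2, hg'.2]
    ring
  have k3 : (T3.card : ℝ) ≤ C1 * E := by
    refine hline T3 (by rw [hT3]; exact Finset.filter_subset _ _) ?_
    intro g hg g' hg'
    rw [hT3, Finset.mem_filter] at hg hg'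
    have e1 : g.2 = -g.1 := by linear_combination hg.2
    have e2 : g'.2 = -g'.1 := by linear_combination hg'.2
    rw [e1, e2]
    ring
  have kv : ∀ v ∈ S, ((Gv v).card : ℝ) ≤
      (C1 + C2 * 4 ^ Module.finrank ℚ K) * V / Y + (C1 + C2 * 4 ^ Module.finrank ℚ K) * E := by
    intro v hv
    have hsub : Gv v ⊆ G := by rw [hGv]; exact Finset.filter_subset _ _
    have p1 : 0 ≤ (C1 + C2 * 4 ^ Module.finrank ℚ K) * V / Y := by positivity
    have p2 : 0 ≤ (C1 + C2 * 4 ^ Module.finrank ℚ K) * E := by positivity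
    by_cases hall : ∀ g ∈ Gv v, ∀ g' ∈ Gv v, g.1 * g'.2 = g.2 * g'.1
    · have h1 := hline (Gv v) hsub hall
      have h2 : C1 * E ≤ (C1 + C2 * 4 ^ Module.finrank ℚ K) * E := by
        refine mul_le_mul_of_nonneg_right ?_ hE0.le
        have : 0 < C2 * 4 ^ Module.finrank ℚ K := by positivity
        linarith
      linarith
    · push Not at hall
      obtain ⟨u, hu, u', hu', hdet⟩ := hall
      obtain ⟨I, hI, hsurj, hNI, hin⟩ := small_lattice (m := m) h12 h13 h23 (hS v hv)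
      have hmem : ∀ g ∈ Gv v, InL I g ∧ InB (2 * α) (2 * β) g := by
        intro g hg
        rw [hGv, Finset.mem_filter] at hg
        obtain ⟨b1, b2, b3⟩ := hg
        exact ⟨hin g (hG g b1).1 b2 b3, (hG g b1).2⟩
      have h1 := htwo (2 * α) (2 * β) (by linarith) (by linarith) I hI hsurj u u' (hmem u hu).1
        (hmem u hu).2 (hmem u' hu').1 (hmem u' hu').2 hdet (Gv v) hmem
      rw [hNI, ← hN] at h1
      have h2 : ((Gv v).card : ℝ) * (Y * N) ≤
          C2 * 4 ^ Module.finrank ℚ K * (α ^ Module.finrank ℚ K * β ^ Module.finrank ℚ K) := by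
        calc ((Gv v).card : ℝ) * (Y * N) ≤ (Gv v).card * (Nv v ^ m v * N) := by
              refine mul_le_mul_of_nonneg_left ?_ (Nat.cast_nonneg _)
              exact mul_le_mul_of_nonneg_right (hYm v hv) hN0.le
          _ ≤ _ := h1
          _ = _ := by
              rw [mul_pow, mul_pow]
              have : (4 : ℝ) ^ Module.finrank ℚ K = 2 ^ Module.finrank ℚ K * 2 ^ Module.finrank ℚ K := by
                rw [← mul_pow]
                norm_num
              rw [this]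
              ring
      have h3 : ((Gv v).card : ℝ) ≤ C2 * 4 ^ Module.finrank ℚ K * V / Y := by
        rw [le_div_iff₀ hY, hV, ← mul_div_assoc, le_div_iff₀ hN0]
        linarith
      have h4 : C2 * 4 ^ Module.finrank ℚ K * V / Y ≤
          (C1 + C2 * 4 ^ Module.finrank ℚ K) * V / Y := by
        refine div_le_div_of_nonneg_right ?_ hY.le
        exact mul_le_mul_of_nonneg_right (by linarith) hV0.le
      linarith
  have hcov : G ⊆ (T1 ∪ T2) ∪ (T3 ∪ S.biUnion Gv) := by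
    intro g hg
    by_cases h1 : g.1 = 0
    · refine Finset.mem_union_left _ (Finset.mem_union_left _ ?_)
      rw [hT1]
      exact Finset.mem_filter.2 ⟨hg, h1⟩
    by_cases h2 : g.2 = 0
    · refine Finset.mem_union_left _ (Finset.mem_union_right _ ?_)
      rw [hT2]
      exact Finset.mem_filter.2 ⟨hg, h2⟩
    by_cases h3 : g.1 + g.2 = 0
    · refine Finset.mem_union_right _ (Finset.mem_union_left _ ?_)
      rw [hT3]
      exact Finset.mem_filter.2 ⟨hg, h3⟩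
    · obtain ⟨v, hv, hv'⟩ := hcon g (hG g hg).1 (hG g hg).2 ⟨h1, h2, h3⟩
      refine Finset.mem_union_right _ (Finset.mem_union_right _ ?_)
      rw [Finset.mem_biUnion]
      refine ⟨v, hv, ?_⟩
      rw [hGv]
      exact Finset.mem_filter.2 ⟨hg, ⟨h1, h2, h3⟩, hv'⟩
  have hcard : (G.card : ℝ) ≤ T1.card + T2.card + (T3.card + ∑ v ∈ S, ((Gv v).card : ℝ)) := by
    have h1 := Finset.card_le_card hcov
    have h2 := Finset.card_union_le (T1 ∪ T2) (T3 ∪ S.biUnion Gv)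
    have h3 := Finset.card_union_le T1 T2
    have h4 := Finset.card_union_le T3 (S.biUnion Gv)
    have h5 : (S.biUnion Gv).card ≤ ∑ v ∈ S, (Gv v).card := Finset.card_biUnion_le
    have h6 : G.card ≤ T1.card + T2.card + (T3.card + ∑ v ∈ S, (Gv v).card) := by omega
    exact_mod_cast h6
  have hsum := Finset.sum_le_sum kv
  rw [Finset.sum_const, nsmul_eq_mul] at hsum
  have h7 : C1 * E ≤ (C1 + C2 * 4 ^ Module.finrank ℚ K) * E := by
    refine mul_le_mul_of_nonneg_right ?_ hE0.le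
    have : 0 < C2 * 4 ^ Module.finrank ℚ K := by positivity
    linarith
  have h8 : (S.card : ℝ) * ((C1 + C2 * 4 ^ Module.finrank ℚ K) * V / Y +
      (C1 + C2 * 4 ^ Module.finrank ℚ K) * E) + 3 * ((C1 + C2 * 4 ^ Module.finrank ℚ K) * E) =
      S.card * ((C1 + C2 * 4 ^ Module.finrank ℚ K) * V / Y) +
        (S.card + 3) * ((C1 + C2 * 4 ^ Module.finrank ℚ K) * E) := by ring
  linarith

end Pool.Agent.T6.H44.DIV
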