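import Pool.Agent.T6.H44.DIV.Main

/-!
Almost all ideals divide points of the expected radical.
-/

set_option autoImplicit false

namespace Pool.Agent.T6.H44.DIV

open Finset NumberField IsDedekindDomain Pool.Agent.H691R3 Pool.Agent.TH876.Loc
open Pool.Agent.Y728 (log_pow_leK)
open Filter Topology

variable {K : Type} [Field K] [NumberField K]

/-- the squarefree ideal of a set of primes -/
noncomputable def sqf (S : Finset (Pr K)) : Ideal (𝓞 K) := pr (fun _ => 1) S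

theorem dvd_sqf {S : Finset (Pr K)} {v : Pr K} : v.asIdeal ∣ sqf S ↔ v ∈ S := by
  classical
  constructor
  · intro h
    unfold sqf pr at h
    obtain ⟨u, hu, h1⟩ := v.prime.exists_mem_finset_dvd h
    rw [pow_one] at h1
    have h2 : u.asIdeal ≤ v.asIdeal := Ideal.dvd_iff_le.1 h1
    have h3 : u.asIdeal = v.asIdeal := u.isMaximal.eq_of_le v.isPrime.ne_top h2
    have h4 : u = v := HeightOneSpectrum.ext h3
    rw [← h4]
    exact hu
  · intro h
    have := Finset.dvd_prod_of_mem (fun v : Pr K => v.asIdeal ^ 1) h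
    rw [pow_one] at this
    exact this

theorem sqf_ne (S : Finset (Pr K)) : sqf S ≠ 0 := pr_ne_bot _ _

theorem supp_sqf (S : Finset (Pr K)) : supp (sqf S) (sqf_ne S) = S := by
  ext v
  rw [mem_supp, dvd_sqf]

theorem absNorm_sqf (S : Finset (Pr K)) : ((Ideal.absNorm (sqf S) : ℕ) : ℝ) = nn S := by
  unfold sqf
  rw [absNorm_pr]
  unfold nn
  exact Finset.prod_congr rfl fun v _ => pow_one _

theorem sqf_inj : Function.Injective (sqf : Finset (Pr K) → Ideal (𝓞 K)) := by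
  intro S T h
  ext v
  rw [← dvd_sqf, ← dvd_sqf, h]

/-- the lower bound for sets of primes -/
theorem lower_sets (K : Type) [Field K] [NumberField K] (ε : ℝ) (hε : 0 < ε) (hε1 : ε ≤ 1) :
    ∃ D : ℝ, 0 < D ∧ ∀ X : ℝ, 1 ≤ X → ∀ U : Finset (Finset (Pr K)),
    (∀ S ∈ U, nn S ≤ X ∧ ∃ y : K, Pt y ∧ S ⊆ sp y ∧
      nn (sp y) ≤ lev (nn S) (pm S) * X ^ (-ε)) →
    (U.card : ℝ) ≤ D * X ^ (1 - ε / 2) := by
  classical
  obtain ⟨D, hD, h⟩ := lower_ideals K ε hε hε1
  refine ⟨D, hD, fun X hX U hU => ?_⟩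
  have h1 := h X hX (U.image sqf) (by
    intro n hn
    obtain ⟨S, hS, rfl⟩ := Finset.mem_image.1 hn
    obtain ⟨a1, y, a2, a3, a4⟩ := hU S hS
    refine ⟨sqf_ne S, by rw [absNorm_sqf]; exact a1, y, a2, fun v hv => a3 (dvd_sqf.1 hv), ?_⟩
    rw [absNorm_sqf, supp_sqf]
    exact a4)
  rw [Finset.card_image_of_injective _ sqf_inj] at h1
  exact h1

/-- sets of primes containing an exceptional subset -/
theorem bad_sets (K : Type) [Field K] [NumberField K] (κ : ℝ) (hκ : 0 < κ) (hκ1 : κ ≤ 1) :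
    ∃ D X0 : ℝ, 0 < D ∧ 16 ≤ X0 ∧ ∀ X : ℝ, X0 ≤ X → ∀ U : Finset (Finset (Pr K)),
    (∀ S ∈ U, nn S ≤ X ∧ ∃ S' ⊆ S, X ^ (1 / 4 : ℝ) ≤ nn S' ∧ ∃ y : K, Pt y ∧ S' ⊆ sp y ∧
      nn (sp y) ≤ lev (nn S') (pm S') * X ^ (-(κ / 2))) →
    (U.card : ℝ) ≤ D * X ^ (1 - κ / 64) := by
  classical
  obtain ⟨k0, hk0⟩ : ∃ k0 : ℕ, 128 / κ ≤ k0 := exists_nat_ge _
  obtain ⟨k, hk⟩ : ∃ k, k = k0 + 1 := ⟨_, rfl⟩
  have hk1 : 1 ≤ k := by omega
  have hkp : (0 : ℝ) < k := by exact_mod_cast hk1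
  have hkκ : 1 / (k : ℝ) ≤ κ / 128 := by
    have h1 : 128 / κ ≤ (k : ℝ) := hk0.trans (by rw [hk]; push_cast; linarith)
    rw [div_le_iff₀ hκ] at h1
    rw [div_le_iff₀ hkp]
    linarith
  obtain ⟨η, hη⟩ : ∃ η, η = κ / 128 := ⟨_, rfl⟩
  have hη0 : 0 < η := by rw [hη]; positivity
  obtain ⟨D1, hD1, hlow⟩ := lower_sets K (κ / 4) (by positivity) (by linarith)
  obtain ⟨X0, hX0, hsets⟩ := card_setsM K hk1
  obtain ⟨D4, hD4, hlog⟩ := log_pow_leK 1 hη0
  refine ⟨2 * D4 * (4 * D1), X0, by positivity, hX0, fun X hX U hU => ?_⟩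
  have hX16 : 16 ≤ X := hX0.trans hX
  have hX1 : 1 ≤ X := by linarith
  have hXp : 0 < X := by linarith
  have hexf : ∀ S : Finset (Pr K), ∃ S' : Finset (Pr K), S ∈ U → S' ⊆ S ∧
      X ^ (1 / 4 : ℝ) ≤ nn S' ∧ ∃ y : K, Pt y ∧ S' ⊆ sp y ∧
      nn (sp y) ≤ lev (nn S') (pm S') * X ^ (-(κ / 2)) := by
    intro S
    by_cases h : S ∈ U
    · obtain ⟨_, S', h1, h2⟩ := hU S h
      exact ⟨S', fun _ => ⟨h1, h2⟩⟩
    · exact ⟨∅, fun h' => absurd h' h⟩
  choose f hf using hexf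
  obtain ⟨ix, hix⟩ : ∃ ix : Finset (Pr K) → ℕ, ix = fun S => Nat.log 2 ⌊nn (f S)⌋₊ := ⟨_, rfl⟩
  obtain ⟨J, hJ⟩ : ∃ J : ℕ, J = Nat.log 2 ⌊X⌋₊ := ⟨_, rfl⟩
  have hfX : ∀ S ∈ U, nn (f S) ≤ X := fun S hS => (nn_mono (hf S hS).1).trans (hU S hS).1
  have hjn : ∀ S ∈ U, ix S ∈ Finset.range (J + 1) := by
    intro S hS
    rw [Finset.mem_range, Nat.lt_succ_iff, hJ, hix]
    exact Nat.log_mono_right (Nat.floor_le_floor (hfX S hS))
  have hixl : ∀ S, (2 : ℝ) ^ ix S ≤ nn (f S) ∧ nn (f S) ≤ 2 * 2 ^ ix S := by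
    intro S
    have h1 : 1 ≤ nn (f S) := one_le_nn _
    have h2 : ⌊nn (f S)⌋₊ ≠ 0 := by
      have : 1 ≤ ⌊nn (f S)⌋₊ := Nat.le_floor (by exact_mod_cast h1)
      omega
    have h3 := Nat.pow_log_le_self 2 h2
    have h4 := Nat.lt_pow_succ_log_self (b := 2) (by norm_num) ⌊nn (f S)⌋₊
    constructor
    · rw [hix]
      calc (2 : ℝ) ^ Nat.log 2 ⌊nn (f S)⌋₊ ≤ (⌊nn (f S)⌋₊ : ℝ) := by exact_mod_cast h3
        _ ≤ nn (f S) := Nat.floor_le (by linarith)
    · rw [hix]
      have h5 : (⌊nn (f S)⌋₊ : ℝ) + 1 ≤ 2 ^ (Nat.log 2 ⌊nn (f S)⌋₊ + 1) := by exact_mod_cast h4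
      have h6 := (Nat.lt_floor_add_one (nn (f S))).le
      rw [pow_succ] at h5
      linarith
  have hcardU : (U.card : ℝ) = ∑ j ∈ Finset.range (J + 1), ((U.filter fun S => ix S = j).card : ℝ) := by
    have := Finset.card_eq_sum_card_fiberwise (f := ix) (s := U)
      (t := Finset.range (J + 1)) (fun n hn => hjn n hn)
    rw [this, Nat.cast_sum]
  have hone : ∀ j ∈ Finset.range (J + 1), ((U.filter fun S => ix S = j).card : ℝ) ≤
      4 * D1 * X ^ (1 - 3 * η) := by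
    intro j _
    obtain ⟨W, hW⟩ : ∃ W, W = (U.filter fun S => ix S = j).image f := ⟨_, rfl⟩
    have hmem : ∀ S ∈ U.filter (fun S => ix S = j), S ∈ U ∧ ix S = j := fun S hS =>
      Finset.mem_filter.1 hS
    rcases (U.filter fun S => ix S = j).eq_empty_or_nonempty with he | ⟨S0, hS0⟩
    · rw [he, Finset.card_empty, Nat.cast_zero]
      positivity
    obtain ⟨Z, hZ⟩ : ∃ Z : ℝ, Z = 2 * 2 ^ j := ⟨_, rfl⟩
    have h2j : (1 : ℝ) ≤ 2 ^ j := one_le_pow₀ (by norm_num)
    have hZ1 : 1 ≤ Z := by rw [hZ]; linarith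
    have hZ0 : 0 < Z := by linarith
    have hjX : (2 : ℝ) ^ j ≤ X := by
      obtain ⟨a1, a2⟩ := hmem S0 hS0
      have := (hixl S0).1
      rw [a2] at this
      exact this.trans (hfX S0 a1)
    have hZX : Z ≤ X ^ (2 : ℝ) := by
      rw [hZ, show (2 : ℝ) = ((2 : ℕ) : ℝ) by norm_num, Real.rpow_natCast]
      push_cast
      nlinarith
    have hZX4 : X ^ (1 / 4 : ℝ) ≤ Z := by
      obtain ⟨a1, a2⟩ := hmem S0 hS0
      have h1 := (hixl S0).2
      rw [a2] at h1
      rw [hZ]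
      exact (hf S0 a1).2.1.trans h1
    have hWc : (W.card : ℝ) ≤ D1 * Z ^ (1 - κ / 8) := by
      have h1 := hlow Z hZ1 W (by
        intro S' hS'
        rw [hW] at hS'
        obtain ⟨S, hS, rfl⟩ := Finset.mem_image.1 hS'
        obtain ⟨a1, a2⟩ := hmem S hS
        obtain ⟨b1, b2, y, b3, b4, b5⟩ := hf S a1
        have h2 := (hixl S).2
        rw [a2, ← hZ] at h2
        refine ⟨h2, y, b3, b4, b5.trans ?_⟩
        refine mul_le_mul_of_nonneg_left ?_ ?_
        · have h3 : Z ^ (κ / 4) ≤ X ^ (κ / 2) := by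
            calc Z ^ (κ / 4) ≤ (X ^ (2 : ℝ)) ^ (κ / 4) :=
                  Real.rpow_le_rpow hZ0.le hZX (by positivity)
              _ = X ^ (κ / 2) := by
                  rw [← Real.rpow_mul hXp.le]
                  congr 1
                  ring
          rw [Real.rpow_neg hXp.le, Real.rpow_neg hZ0.le]
          exact inv_anti₀ (by positivity) h3
        · exact (Real.rpow_nonneg (nn_pos _).le _).trans (le_max_left _ _))
      have e : 1 - κ / 4 / 2 = 1 - κ / 8 := by ring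
      rw [e] at h1
      exact h1
    -- the fibres
    have hfib : ∀ S' ∈ W, (((U.filter fun S => ix S = j).filter fun S => f S = S').card : ℝ) ≤
        2 * (X / Z) * X ^ (1 / (k : ℝ)) := by
      intro S' hS'
      obtain ⟨R, hR⟩ : ∃ R, R = ((U.filter fun S => ix S = j).filter fun S => f S = S') := ⟨_, rfl⟩
      rw [← hR]
      have hR' : ∀ S ∈ R, S ∈ U ∧ ix S = j ∧ f S = S' := by
        intro S hS
        rw [hR] at hS
        obtain ⟨b1, b2⟩ := Finset.mem_filter.1 hS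
        obtain ⟨b3, b4⟩ := Finset.mem_filter.1 b1
        exact ⟨b3, b4, b2⟩
      rcases R.eq_empty_or_nonempty with he | ⟨S1, hS1⟩
      · rw [he, Finset.card_empty, Nat.cast_zero]
        positivity
      have hn' : (2 : ℝ) ^ j ≤ nn S' ∧ nn S' ≤ X := by
        obtain ⟨b1, b2, b3⟩ := hR' S1 hS1
        have h1 := (hixl S1).1
        rw [b2, b3] at h1
        refine ⟨h1, ?_⟩
        rw [← b3]
        exact hfX S1 b1
      have hinj : Set.InjOn (fun S : Finset (Pr K) => S \ S') (R : Set (Finset (Pr K))) := by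
        intro S hS T hT he
        have h1 : S' ⊆ S := by
          obtain ⟨b1, b2, b3⟩ := hR' S hS
          rw [← b3]
          exact (hf S b1).1
        have h2 : S' ⊆ T := by
          obtain ⟨b1, b2, b3⟩ := hR' T hT
          rw [← b3]
          exact (hf T b1).1
        have he' : S \ S' = T \ S' := he
        rw [← Finset.sdiff_union_of_subset h1, he', Finset.sdiff_union_of_subset h2]
      have h1 := hsets X hX (X / nn S') ((one_le_div (nn_pos _)).2 hn'.2)
        (div_le_self hXp.le (one_le_nn _)) (R.image fun S => S \ S') (by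
        intro T hT
        obtain ⟨S, hS, rfl⟩ := Finset.mem_image.1 hT
        obtain ⟨b1, b2, b3⟩ := hR' S hS
        have h2 : S' ⊆ S := by
          rw [← b3]
          exact (hf S b1).1
        rw [le_div_iff₀ (nn_pos _)]
        have h3 : nn (S \ S') * nn S' = nn S := by
          unfold nn
          exact Finset.prod_sdiff h2
        rw [h3]
        exact (hU S b1).1)
      rw [Finset.card_image_of_injOn hinj] at h1
      refine h1.trans (mul_le_mul_of_nonneg_right ?_ (by positivity))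
      have h4 : X / nn S' ≤ X / 2 ^ j := div_le_div_of_nonneg_left hXp.le (by positivity) hn'.1
      refine h4.trans (le_of_eq ?_)
      rw [hZ]
      field_simp
    have hcard : ((U.filter fun S => ix S = j).card : ℝ) ≤
        W.card * (2 * (X / Z) * X ^ (1 / (k : ℝ))) := by
      have h1 := Finset.card_eq_sum_card_image f (U.filter fun S => ix S = j)
      rw [h1, Nat.cast_sum, ← hW]
      refine (Finset.sum_le_sum hfib).trans ?_
      rw [Finset.sum_const, nsmul_eq_mul]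
    refine hcard.trans ?_
    have e1 : D1 * Z ^ (1 - κ / 8) * (2 * (X / Z) * X ^ (1 / (k : ℝ))) =
        2 * D1 * (X * X ^ (1 / (k : ℝ)) * Z ^ (-(κ / 8))) := by
      have : Z ^ (1 - κ / 8) = Z * Z ^ (-(κ / 8)) := by
        rw [sub_eq_add_neg, Real.rpow_add hZ0, Real.rpow_one]
      rw [this]
      field_simp
    have e2 : Z ^ (-(κ / 8)) ≤ X ^ (-(κ / 32)) := by
      rw [Real.rpow_neg hZ0.le, Real.rpow_neg hXp.le]
      refine inv_anti₀ (by positivity) ?_
      calc X ^ (κ / 32) = (X ^ (1 / 4 : ℝ)) ^ (κ / 8) := by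
            rw [← Real.rpow_mul hXp.le]
            congr 1
            ring
        _ ≤ Z ^ (κ / 8) := Real.rpow_le_rpow (by positivity) hZX4 (by positivity)
    have e3 : X ^ (1 / (k : ℝ)) ≤ X ^ η := by
      refine Real.rpow_le_rpow_of_exponent_le hX1 ?_
      rw [hη]
      exact hkκ
    calc (W.card : ℝ) * (2 * (X / Z) * X ^ (1 / (k : ℝ))) ≤
        D1 * Z ^ (1 - κ / 8) * (2 * (X / Z) * X ^ (1 / (k : ℝ))) :=
          mul_le_mul_of_nonneg_right hWc (by positivity)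
      _ = 2 * D1 * (X * X ^ (1 / (k : ℝ)) * Z ^ (-(κ / 8))) := e1
      _ ≤ 2 * D1 * (X * X ^ η * X ^ (-(κ / 32))) := by
          refine mul_le_mul_of_nonneg_left ?_ (by positivity)
          exact mul_le_mul (mul_le_mul_of_nonneg_left e3 hXp.le) e2 (by positivity) (by positivity)
      _ = 2 * D1 * X ^ (1 - 3 * η) := by
          have : X * X ^ η * X ^ (-(κ / 32)) = X ^ (1 - 3 * η) := by
            conv_lhs => rw [← Real.rpow_one X]
            rw [← Real.rpow_mul hXp.le, ← Real.rpow_mul hXp.le, ← Real.rpow_add hXp,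
              ← Real.rpow_add hXp]
            congr 1
            rw [hη]
            ring
          rw [this]
      _ ≤ 4 * D1 * X ^ (1 - 3 * η) := mul_le_mul_of_nonneg_right (by linarith) (by positivity)
  have hJ1 : ((J + 1 : ℕ) : ℝ) ≤ 2 * D4 * X ^ η := by
    have h1 : (2 : ℝ) ^ J ≤ X := by
      have h2 : 2 ^ J ≤ ⌊X⌋₊ := by
        rw [hJ]
        refine Nat.pow_log_le_self 2 ?_
        have : 1 ≤ ⌊X⌋₊ := Nat.le_floor (by exact_mod_cast hX1)
        omega
      calc (2 : ℝ) ^ J ≤ (⌊X⌋₊ : ℝ) := by exact_mod_cast h2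
        _ ≤ X := Nat.floor_le hXp.le
    have h2 := Real.log_le_log (by positivity) h1
    rw [Real.log_pow] at h2
    have h3 := Real.log_two_gt_d9
    have h4 : (J : ℝ) ≤ 2 * Real.log X := by
      have h5 : (0 : ℝ) ≤ J := Nat.cast_nonneg _
      nlinarith
    have h5 := hlog X hX1
    rw [pow_one] at h5
    push_cast
    have h6 : 0 ≤ Real.log X := Real.log_nonneg hX1
    nlinarith
  rw [hcardU]
  refine (Finset.sum_le_sum hone).trans ?_
  rw [Finset.sum_const, Finset.card_range, nsmul_eq_mul]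
  calc ((J + 1 : ℕ) : ℝ) * (4 * D1 * X ^ (1 - 3 * η)) ≤
      2 * D4 * X ^ η * (4 * D1 * X ^ (1 - 3 * η)) := mul_le_mul_of_nonneg_right hJ1 (by positivity)
    _ = 2 * D4 * (4 * D1) * (X ^ η * X ^ (1 - 3 * η)) := by ring
    _ = 2 * D4 * (4 * D1) * X ^ (1 - κ / 64) := by
        rw [← Real.rpow_add hXp]
        congr 2
        rw [hη]
        ring

end Pool.Agent.T6.H44.DIV
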