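import Pool.Agent.T6.H44.DIV.Lat
import Pool.Agent.T6.H44.DIV.Ide
import Pool.Agent.H691R3.Rep

/-!
Products of powers of primes, and the primes of a point.
-/

set_option autoImplicit false

namespace Pool.Agent.T6.H44.DIV

open Finset NumberField IsDedekindDomain Pool.Agent.H691R3 Pool.Agent.TH876.Loc

variable {K : Type} [Field K] [NumberField K]

theorem surj_a {I : Fin 3 → Ideal (𝓞 K)} (h0 : IsCoprime (I 0) (I 2)) (h1 : IsCoprime (I 1) (I 2)) :
    Function.Surjective (cls I) := by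
  obtain ⟨i, hi, k, hk, e1⟩ := Ideal.isCoprime_iff_exists.1 h0
  obtain ⟨j, hj, k', hk', e2⟩ := Ideal.isCoprime_iff_exists.1 h1
  rintro ⟨q1, q2, q3⟩
  obtain ⟨r1, rfl⟩ := Ideal.Quotient.mk_surjective q1
  obtain ⟨r2, rfl⟩ := Ideal.Quotient.mk_surjective q2
  obtain ⟨r3, rfl⟩ := Ideal.Quotient.mk_surjective q3
  refine ⟨(r1 * k + r3 * i, r2 * k'), ?_⟩
  unfold cls
  rw [Prod.mk.injEq, Prod.mk.injEq, Ideal.Quotient.eq, Ideal.Quotient.eq, Ideal.Quotient.eq]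
  refine ⟨?_, ?_, ?_⟩
  · have e : r1 * k + r3 * i - r1 = (r3 - r1) * i := by linear_combination r1 * e1
    rw [e]
    exact (I 0).mul_mem_left _ hi
  · have e : r2 * k' - r2 = -r2 * j := by linear_combination r2 * e2
    rw [e]
    exact (I 1).mul_mem_left _ hj
  · have e : r1 * k + r3 * i + r2 * k' - r3 = (r1 - r3) * k + r2 * k' := by
      linear_combination r3 * e1
    rw [e]
    exact (I 2).add_mem ((I 2).mul_mem_left _ hk) ((I 2).mul_mem_left _ hk')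

theorem surj_b {I : Fin 3 → Ideal (𝓞 K)} (h0 : IsCoprime (I 0) (I 1)) (h1 : IsCoprime (I 2) (I 1)) :
    Function.Surjective (cls I) := by
  obtain ⟨i, hi, j, hj, e1⟩ := Ideal.isCoprime_iff_exists.1 h0
  obtain ⟨k, hk, j', hj', e2⟩ := Ideal.isCoprime_iff_exists.1 h1
  rintro ⟨q1, q2, q3⟩
  obtain ⟨r1, rfl⟩ := Ideal.Quotient.mk_surjective q1
  obtain ⟨r2, rfl⟩ := Ideal.Quotient.mk_surjective q2
  obtain ⟨r3, rfl⟩ := Ideal.Quotient.mk_surjective q3
  refine ⟨(r1 * j, r3 * j' + r2 * k - r1 * j), ?_⟩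
  unfold cls
  rw [Prod.mk.injEq, Prod.mk.injEq, Ideal.Quotient.eq, Ideal.Quotient.eq, Ideal.Quotient.eq]
  refine ⟨?_, ?_, ?_⟩
  · have e : r1 * j - r1 = -r1 * i := by linear_combination r1 * e1
    rw [e]
    exact (I 0).mul_mem_left _ hi
  · have e : r3 * j' + r2 * k - r1 * j - r2 = (r3 - r2) * j' + (-r1) * j := by
      linear_combination r2 * e2
    rw [e]
    exact (I 1).add_mem ((I 1).mul_mem_left _ hj') ((I 1).mul_mem_left _ hj)
  · have e : r1 * j + (r3 * j' + r2 * k - r1 * j) - r3 = (r2 - r3) * k := by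
      linear_combination r3 * e2
    rw [e]
    exact (I 2).mul_mem_left _ hk

/-- a product of powers of primes -/
noncomputable def pr (m : Pr K → ℕ) (S : Finset (Pr K)) : Ideal (𝓞 K) := ∏ v ∈ S, v.asIdeal ^ m v

theorem pr_ne_bot (m : Pr K → ℕ) (S : Finset (Pr K)) : pr m S ≠ ⊥ := by
  unfold pr
  have h : ∏ v ∈ S, v.asIdeal ^ m v ≠ 0 := Finset.prod_ne_zero_iff.2 fun v _ => pow_ne_zero _ v.ne_bot
  exact h

theorem absNorm_pr (m : Pr K → ℕ) (S : Finset (Pr K)) :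
    ((Ideal.absNorm (pr m S) : ℕ) : ℝ) = ∏ v ∈ S, Nv v ^ m v := by
  unfold pr
  rw [map_prod]
  push_cast
  refine Finset.prod_congr rfl fun v _ => ?_
  rw [map_pow]
  push_cast
  rfl

theorem coprime_primes {u v : Pr K} (h : u ≠ v) (a b : ℕ) :
    IsCoprime (u.asIdeal ^ a) (v.asIdeal ^ b) := by
  refine IsCoprime.pow ?_
  rw [Ideal.isCoprime_iff_sup_eq]
  refine Ideal.IsMaximal.coprime_of_ne u.isMaximal v.isMaximal fun h' => h ?_
  exact HeightOneSpectrum.ext h'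

theorem coprime_pr {m : Pr K → ℕ} {S T : Finset (Pr K)} (h : Disjoint S T) :
    IsCoprime (pr m S) (pr m T) := by
  unfold pr
  refine IsCoprime.prod_left fun u hu => IsCoprime.prod_right fun v hv => ?_
  refine coprime_primes ?_ _ _
  rintro rfl
  exact (Finset.disjoint_left.1 h) hu hv

theorem mem_pr {m : Pr K → ℕ} {S : Finset (Pr K)} {a : 𝓞 K} :
    a ∈ pr m S ↔ ∀ v ∈ S, a ∈ v.asIdeal ^ m v := by
  classical
  constructor
  · intro h v hv
    have h1 : v.asIdeal ^ m v ∣ pr m S := Finset.dvd_prod_of_mem (fun v : Pr K => v.asIdeal ^ m v) hv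
    exact (Ideal.dvd_iff_le.1 h1) h
  · intro h
    have h1 : pr m S ∣ Ideal.span {a} := by
      unfold pr
      refine Finset.prod_dvd_of_coprime ?_ ?_
      · intro u _ v _ huv
        exact coprime_primes huv _ _
      · intro v hv
        exact Ideal.dvd_span_singleton.2 (h v hv)
    exact Ideal.dvd_span_singleton.1 h1

/-- the norm of a nonzero element of an ideal -/
theorem norm_ge {J : Ideal (𝓞 K)} {a : 𝓞 K} (ha : a ≠ 0) (h : a ∈ J) :
    ((Ideal.absNorm J : ℕ) : ℝ) ≤ ∏ w : InfinitePlace K, w (a : K) ^ w.mult := by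
  rw [InfinitePlace.prod_eq_abs_norm]
  have h1 : J ∣ Ideal.span {a} := Ideal.dvd_span_singleton.2 h
  have h2 : Ideal.absNorm J ∣ Ideal.absNorm (Ideal.span {a}) := Ideal.absNorm_dvd_absNorm_of_le (Ideal.dvd_iff_le.1 h1)
  rw [Ideal.absNorm_span_singleton] at h2
  have h3 : Algebra.norm ℤ a ≠ 0 := Algebra.norm_ne_zero_iff.2 ha
  have h4 : Ideal.absNorm J ≤ (Algebra.norm ℤ a).natAbs := Nat.le_of_dvd (Int.natAbs_pos.2 h3) h2
  have h5 : (Algebra.norm ℚ (a : K)) = ((Algebra.norm ℤ a : ℤ) : ℚ) := (Algebra.coe_norm_int a).symm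
  rw [h5]
  have h6 : ((Ideal.absNorm J : ℕ) : ℝ) ≤ (((Algebra.norm ℤ a).natAbs : ℕ) : ℝ) := by exact_mod_cast h4
  refine h6.trans (le_of_eq ?_)
  rw [Nat.cast_natAbs]
  push_cast
  rfl

/-- the point of a vector -/
noncomputable def pt (g : 𝓞 K × 𝓞 K) : K := (g.1 : K) / g.2

/-- the three coordinates are not zero -/
def Nz (g : 𝓞 K × 𝓞 K) : Prop := g.1 ≠ 0 ∧ g.2 ≠ 0 ∧ g.1 + g.2 ≠ 0

theorem Nz.pt {g : 𝓞 K × 𝓞 K} (h : Nz g) : Pt (pt g) := by
  obtain ⟨h1, h2, h3⟩ := h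
  have h1' : (g.1 : K) ≠ 0 := by exact_mod_cast h1
  have h2' : (g.2 : K) ≠ 0 := by exact_mod_cast h2
  have h3' : ((g.1 + g.2 : 𝓞 K) : K) ≠ 0 := by exact_mod_cast h3
  refine ⟨div_ne_zero h1' h2', ?_⟩
  unfold DIV.pt
  rw [div_add_one h2']
  refine div_ne_zero ?_ h2'
  have e : ((g.1 + g.2 : 𝓞 K) : K) = (g.1 : K) + g.2 := map_add _ _ _
  rw [← e]
  exact h3'

theorem notMem_sp {g : 𝓞 K × 𝓞 K} (h : Nz g) (v : Pr K) : v ∉ sp (pt g) ↔
    fv v (g.1 : K) = fv v (g.2 : K) ∧ fv v ((g.1 + g.2 : 𝓞 K) : K) = fv v (g.2 : K) := by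
  have h2' : (g.2 : K) ≠ 0 := by exact_mod_cast h.2.1
  have h2 : fv v (g.2 : K) ≠ 0 := ((fv v).pos h2').ne'
  rw [mem_sp h.pt, not_not]
  have e1 : fv v (DIV.pt g) = fv v (g.1 : K) / fv v (g.2 : K) := by
    unfold DIV.pt
    rw [map_div₀]
  have e2 : fv v (DIV.pt g + 1) = fv v ((g.1 + g.2 : 𝓞 K) : K) / fv v (g.2 : K) := by
    unfold DIV.pt
    rw [div_add_one h2', map_div₀]
    have e : ((g.1 + g.2 : 𝓞 K) : K) = (g.1 : K) + g.2 := map_add _ _ _
    rw [e]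
  rw [e1, e2, div_eq_one_iff_eq h2, div_eq_one_iff_eq h2]

/-- if one coordinate is divisible by a power of a prime which is not a prime of the point, then so
are all -/
theorem all_div {g : 𝓞 K × 𝓞 K} (h : Nz g) {v : Pr K} (hv : v ∉ sp (pt g)) {e : ℕ}
    (hd : g.1 ∈ v.asIdeal ^ e ∨ g.2 ∈ v.asIdeal ^ e ∨ g.1 + g.2 ∈ v.asIdeal ^ e) :
    g.1 ∈ v.asIdeal ^ e ∧ g.2 ∈ v.asIdeal ^ e ∧ g.1 + g.2 ∈ v.asIdeal ^ e := by
  obtain ⟨h1, h2⟩ := (notMem_sp h v).1 hv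
  simp only [← fv_le_pow_iff] at hd ⊢
  rw [h1, h2] at hd ⊢
  have : fv v (g.2 : K) ≤ Nv v ^ (-(e : ℤ)) := by
    rcases hd with h | h | h <;> exact h
  exact ⟨this, this, this⟩

/-- a prime of the point divides one of the coordinates -/
theorem sp_div {g : 𝓞 K × 𝓞 K} (h : Nz g) {v : Pr K} (hv : v ∈ sp (pt g)) :
    g.1 * g.2 * (g.1 + g.2) ∈ v.asIdeal := by
  by_contra hcon
  have hp := v.isPrime
  have h1 : g.1 ∉ v.asIdeal := fun h1 => hcon
    (v.asIdeal.mul_mem_right _ (v.asIdeal.mul_mem_right _ h1))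
  have h2 : g.2 ∉ v.asIdeal := fun h2 => hcon
    (v.asIdeal.mul_mem_right _ (v.asIdeal.mul_mem_left _ h2))
  have h3 : g.1 + g.2 ∉ v.asIdeal := fun h3 => hcon (v.asIdeal.mul_mem_left _ h3)
  have hns : v ∉ sp (DIV.pt g) := by
    rw [notMem_sp h, fv_eq_one_of_notMem v h1, fv_eq_one_of_notMem v h2,
      fv_eq_one_of_notMem v h3]
    exact ⟨rfl, rfl⟩
  exact hns hv

/-- the primes of the point and the primes dividing all coordinates -/
theorem norm_sp [DecidableEq (Pr K)] {g : 𝓞 K × 𝓞 K} (h : Nz g) (m : Pr K → ℕ) (S : Finset (Pr K))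
    (hS : ∀ v ∈ S, v ∉ sp (pt g) →
      g.1 ∈ v.asIdeal ^ m v ∨ g.2 ∈ v.asIdeal ^ m v ∨ g.1 + g.2 ∈ v.asIdeal ^ m v) :
    nn (sp (pt g)) * (∏ v ∈ S \ sp (pt g), Nv v ^ m v) ^ 3 ≤
      ∏ w : InfinitePlace K, w ((g.1 * g.2 * (g.1 + g.2) : 𝓞 K) : K) ^ w.mult := by
  obtain ⟨T, hT⟩ : ∃ T, T = S \ sp (DIV.pt g) := ⟨_, rfl⟩
  set e : Pr K → ℕ := fun v => if v ∈ sp (DIV.pt g) then 1 else 3 * m v with he
  have h1 : ((Ideal.absNorm (pr e (sp (DIV.pt g) ∪ T)) : ℕ) : ℝ) =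
      nn (sp (DIV.pt g)) * (∏ v ∈ T, Nv v ^ m v) ^ 3 := by
    rw [absNorm_pr, Finset.prod_union]
    · congr 1
      · unfold nn
        refine Finset.prod_congr rfl fun v hv => ?_
        simp only [he]
        rw [if_pos hv, pow_one]
      · rw [← Finset.prod_pow]
        refine Finset.prod_congr rfl fun v hv => ?_
        rw [hT, Finset.mem_sdiff] at hv
        simp only [he]
        rw [if_neg hv.2, mul_comm, pow_mul]
    · rw [hT]
      exact Finset.disjoint_sdiff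
  rw [← hT, ← h1]
  refine norm_ge (mul_ne_zero (mul_ne_zero h.1 h.2.1) h.2.2) ?_
  rw [mem_pr]
  intro v hv
  by_cases hvs : v ∈ sp (DIV.pt g)
  · simp only [he]
    rw [if_pos hvs, pow_one]
    exact sp_div h hvs
  · have hvT : v ∈ T := by
      rcases Finset.mem_union.1 hv with h' | h'
      · exact absurd h' hvs
      · exact h'
    rw [hT, Finset.mem_sdiff] at hvT
    obtain ⟨a1, a2, a3⟩ := all_div h hvs (hS v hvT.1 hvs)
    simp only [he]
    rw [if_neg hvs]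
    have e3 : v.asIdeal ^ (3 * m v) = v.asIdeal ^ m v * v.asIdeal ^ m v * v.asIdeal ^ m v := by
      rw [← pow_add, ← pow_add]
      congr 1
      ring
    rw [e3]
    exact Ideal.mul_mem_mul (Ideal.mul_mem_mul a1 a2) a3

end Pool.Agent.T6.H44.DIV
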